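import Pool.Agent.K4H76.LD.GalvA

/-!
# Bipartite graphs: lists a bit longer than the maximum degree, some shorter
-/

set_option autoImplicit false

namespace Pool.Agent.K4H76.LD

open Finset Pool.Agent.H162R2.Sparse Pool.Agent.H162R2.AG

theorem GV : ∃ C : ℝ, 1 ≤ C ∧ ∀ n : ℕ, 2 ≤ n → ∀ D : ℕ, 1 ≤ D → D ≤ n →
    ∀ (G : SimpleGraph (Fin n)) (σ : Fin n → Bool), (∀ a b, G.Adj a b → σ a ≠ σ b) →
    (∀ v, dg G v ≤ D) → ∀ L : Fin n → Fin n → Finset ℕ, (∀ a b, L a b = L b a) →
    ∀ F : Fin n → Fin n → Prop, ∀ f y φ : ℝ, 0 ≤ y → y ≤ D →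
    (∀ v, cnt (fun w => G.Adj v w ∧ F v w) ≤ f) →
    C * (f * (y + Real.log n) / D + Real.log n) ≤ φ →
    (∀ a b, G.Adj a b → ¬ F a b → ¬ F b a → (D : ℝ) + φ ≤ (L a b).card) →
    (∀ a b, G.Adj a b → (D : ℝ) + φ - y ≤ (L a b).card) →
    (∀ a b, G.Adj a b → F a b → ¬ F b a → (dg G b : ℝ) + φ ≤ (L a b).card) → LC G L := by
  classical
  obtain ⟨C3, hC3, h3⟩ := K3
  refine ⟨4 * C3, by linarith, ?_⟩
  intro n hn D hD hDn G σ hσ hdeg L hLs F f y φ hy hyD hf hφ hL0 hL1 hL2
  have hnb : ∀ v w, w ∈ nb G v ↔ G.Adj v w := by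
    intro v w
    simp [nb]
  have hf0 : 0 ≤ f := le_trans (cnt_nonneg _) (hf ⟨0, by omega⟩)
  have hlog : 0 ≤ Real.log n := Real.log_natCast_nonneg n
  have hD0 : (0 : ℝ) < D := by exact_mod_cast hD
  have hφ0 : 0 ≤ φ := by
    refine le_trans ?_ hφ
    positivity
  -- the edges, oriented
  let E : Finset (Fin n × Fin n) := univ.filter (fun e => G.Adj e.1 e.2 ∧ σ e.1 = true)
  have hE : ∀ e, e ∈ E ↔ G.Adj e.1 e.2 ∧ σ e.1 = true := by
    intro e
    simp [E]
  have hd1 : ∀ u, (E.filter (fun e => e.1 = u)).card ≤ dg G u := by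
    intro u
    unfold dg
    refine Finset.card_le_card_of_injOn (fun e => e.2) (fun e he => ?_) (fun e he e' he' hee => ?_)
    · rw [Finset.mem_coe, Finset.mem_filter, hE] at he
      rw [Finset.mem_coe, hnb, ← he.2]
      exact he.1.1
    · rw [Finset.mem_coe, Finset.mem_filter] at he he'
      exact Prod.ext (he.2.trans he'.2.symm) hee
  have hd2 : ∀ u, (E.filter (fun e => e.2 = u)).card ≤ dg G u := by
    intro u
    unfold dg
    refine Finset.card_le_card_of_injOn (fun e => e.1) (fun e he => ?_) (fun e he e' he' hee => ?_)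
    · rw [Finset.mem_coe, Finset.mem_filter, hE] at he
      rw [Finset.mem_coe, hnb, ← he.2]
      exact he.1.1.symm
    · rw [Finset.mem_coe, Finset.mem_filter] at he he'
      exact Prod.ext hee (he.2.trans he'.2.symm)
  obtain ⟨c, hc1, hc2⟩ := K1 (Fin n) E D (fun u => (hd1 u).trans (hdeg u))
    (fun u => (hd2 u).trans (hdeg u))
  -- the colours of the deficient edges at a vertex
  let A : Fin n ⊕ Fin n → Finset ℕ := fun w =>
    match w with
    | Sum.inl u => (E.filter (fun e => e.1 = u ∧ F e.1 e.2)).image c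
    | Sum.inr u => (E.filter (fun e => e.2 = u ∧ F e.2 e.1)).image c
  have hA1 : ∀ w, A w ⊆ range D := by
    intro w x hx
    rw [Finset.mem_range]
    rcases w with u | u
    · obtain ⟨e, he, rfl⟩ := Finset.mem_image.1 (show x ∈ (E.filter _).image c from hx)
      exact hc1 e (Finset.mem_filter.1 he).1
    · obtain ⟨e, he, rfl⟩ := Finset.mem_image.1 (show x ∈ (E.filter _).image c from hx)
      exact hc1 e (Finset.mem_filter.1 he).1
  have hA2 : ∀ w, ((A w).card : ℝ) ≤ f := by
    intro w
    rcases w with u | u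
    · refine le_trans ?_ (hf u)
      rw [cnt_eq_card]
      norm_cast
      refine le_trans Finset.card_image_le ?_
      refine Finset.card_le_card_of_injOn (fun e => e.2) (fun e he => ?_)
        (fun e he e' he' hee => ?_)
      · rw [Finset.mem_coe, Finset.mem_filter, hE] at he
        obtain ⟨⟨ha, hb⟩, hc, hd⟩ := he
        rw [Finset.mem_coe, Finset.mem_filter]
        subst hc
        exact ⟨Finset.mem_univ _, ha, hd⟩
      · rw [Finset.mem_coe, Finset.mem_filter] at he he'
        exact Prod.ext (he.2.1.trans he'.2.1.symm) hee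
    · refine le_trans ?_ (hf u)
      rw [cnt_eq_card]
      norm_cast
      refine le_trans Finset.card_image_le ?_
      refine Finset.card_le_card_of_injOn (fun e => e.1) (fun e he => ?_)
        (fun e he e' he' hee => ?_)
      · rw [Finset.mem_coe, Finset.mem_filter, hE] at he
        obtain ⟨⟨ha, hb⟩, hc, hd⟩ := he
        rw [Finset.mem_coe, Finset.mem_filter]
        subst hc
        exact ⟨Finset.mem_univ _, ha.symm, hd⟩
      · rw [Finset.mem_coe, Finset.mem_filter] at he he'
        exact Prod.ext hee (he.2.1.trans he'.2.1.symm)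
  obtain ⟨h, hh1, hh2⟩ := h3 n hn D hD hDn f y (φ / 4) hy hyD (by linarith) A hA1 hA2
  obtain ⟨g, hg1, hg2⟩ := labels D h
  have hfl : (4 : ℝ) * ⌊φ / 4⌋₊ ≤ φ := by
    have := Nat.floor_le (show 0 ≤ φ / 4 by linarith)
    linarith
  obtain ⟨col, hcol1, hcol2⟩ := K2p E D ⌊y⌋₊ ⌊φ / 4⌋₊ c g (fun e => F e.1 e.2)
    (fun e => F e.2 e.1) (fun e => L e.1 e.2) hc1 hc2
    (by
      intro i hi
      refine Nat.floor_le_of_le ?_
      have h1 := hh1 i hi
      have h2 : (range D).filter (fun j => g j = g i) = (range D).filter (fun j => h j = h i) := by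
        apply Finset.filter_congr
        intro j hj
        exact hg1 j (mem_range.1 hj) i hi
      rw [h2]
      convert h1) hg2
    (by
      intro u i
      apply Nat.le_floor
      by_cases hne : ∃ e₀ ∈ E, e₀.1 = u ∧ F e₀.1 e₀.2 ∧ g (c e₀) = i
      · obtain ⟨e₀, he₀, _, _, hi₀⟩ := hne
        refine le_trans ?_ (hh2 (Sum.inl u) (h (c e₀)))
        norm_cast
        refine Finset.card_le_card_of_injOn c (fun e he => ?_) (fun e he e' he' hee => ?_)
        · rw [Finset.mem_coe, Finset.mem_filter] at he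
          rw [Finset.mem_coe, Finset.mem_filter]
          refine ⟨?_, (hg1 _ (hc1 e he.1) _ (hc1 e₀ he₀)).1 (he.2.2.2.trans hi₀.symm)⟩
          exact Finset.mem_image_of_mem c (Finset.mem_filter.2 ⟨he.1, he.2.1, he.2.2.1⟩)
        · rw [Finset.mem_coe, Finset.mem_filter] at he he'
          by_contra hne
          exact hc2 e he.1 e' he'.1 hne (Or.inl (he.2.1.trans he'.2.1.symm)) hee
      · have h4 : E.filter (fun e => e.1 = u ∧ F e.1 e.2 ∧ g (c e) = i) = ∅ := by
          rw [filter_eq_empty_iff]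
          intro e he h5
          exact hne ⟨e, he, h5⟩
        rw [h4, card_empty, Nat.cast_zero]
        linarith)
    (by
      intro u i
      apply Nat.le_floor
      by_cases hne : ∃ e₀ ∈ E, e₀.2 = u ∧ F e₀.2 e₀.1 ∧ g (c e₀) = i
      · obtain ⟨e₀, he₀, _, _, hi₀⟩ := hne
        refine le_trans ?_ (hh2 (Sum.inr u) (h (c e₀)))
        norm_cast
        refine Finset.card_le_card_of_injOn c (fun e he => ?_) (fun e he e' he' hee => ?_)
        · rw [Finset.mem_coe, Finset.mem_filter] at he
          rw [Finset.mem_coe, Finset.mem_filter]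
          refine ⟨?_, (hg1 _ (hc1 e he.1) _ (hc1 e₀ he₀)).1 (he.2.2.2.trans hi₀.symm)⟩
          exact Finset.mem_image_of_mem c (Finset.mem_filter.2 ⟨he.1, he.2.1, he.2.2.1⟩)
        · rw [Finset.mem_coe, Finset.mem_filter] at he he'
          by_contra hne
          exact hc2 e he.1 e' he'.1 hne (Or.inr (he.2.1.trans he'.2.1.symm)) hee
      · have h4 : E.filter (fun e => e.2 = u ∧ F e.2 e.1 ∧ g (c e) = i) = ∅ := by
          rw [filter_eq_empty_iff]
          intro e he h5
          exact hne ⟨e, he, h5⟩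
        rw [h4, card_empty, Nat.cast_zero]
        linarith)
    (by
      intro e he hF1 hF2
      have h4 := hL0 e.1 e.2 ((hE e).1 he).1 hF1 hF2
      have h5 : ((D + 4 * ⌊φ / 4⌋₊ : ℕ) : ℝ) ≤ ((L e.1 e.2).card : ℝ) := by
        push_cast
        linarith
      exact_mod_cast h5)
    (by
      intro e he
      have h4 := hL1 e.1 e.2 ((hE e).1 he).1
      by_cases h5 : D + 4 * ⌊φ / 4⌋₊ ≤ (L e.1 e.2).card
      · omega
      · have h6 : D + 4 * ⌊φ / 4⌋₊ - (L e.1 e.2).card ≤ ⌊y⌋₊ := by
          apply Nat.le_floor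
          rw [Nat.cast_sub (by omega)]
          push_cast
          linarith
        omega)
    (by
      intro e he hF1 hF2
      have h4 := hL2 e.1 e.2 ((hE e).1 he).1 hF1 hF2
      have h5 : (((E.filter (fun f => f.2 = e.2)).card + 4 * ⌊φ / 4⌋₊ : ℕ) : ℝ) ≤
          ((L e.1 e.2).card : ℝ) := by
        push_cast
        have h6 : ((E.filter (fun f => f.2 = e.2)).card : ℝ) ≤ dg G e.2 := by
          exact_mod_cast hd2 e.2
        linarith
      exact_mod_cast h5)
    (by
      intro e he hF1 hF2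
      have h4 := hL2 e.2 e.1 ((hE e).1 he).1.symm hF2 hF1
      rw [hLs e.2 e.1] at h4
      have h5 : (((E.filter (fun f => f.1 = e.1)).card + 4 * ⌊φ / 4⌋₊ : ℕ) : ℝ) ≤
          ((L e.1 e.2).card : ℝ) := by
        push_cast
        have h6 : ((E.filter (fun f => f.1 = e.1)).card : ℝ) ≤ dg G e.1 := by
          exact_mod_cast hd1 e.1
        linarith
      exact_mod_cast h5)
  refine ⟨fun a b => if σ a = true then col (a, b) else col (b, a), ?_, ?_, ?_⟩
  · intro a b hab
    have := hσ a b hab
    simp only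
    by_cases ha : σ a = true
    · rw [if_pos ha, if_neg (fun hb => this (ha.trans hb.symm))]
    · have hb : σ b = true := by
        rw [Bool.not_eq_true] at ha
        rw [ha] at this
        cases hsb : σ b
        · exact absurd hsb.symm this
        · rfl
      rw [if_neg ha, if_pos hb]
  · intro a b hab
    have := hσ a b hab
    simp only
    by_cases ha : σ a = true
    · rw [if_pos ha]
      exact hcol1 (a, b) ((hE (a, b)).2 ⟨hab, ha⟩)
    · have hb : σ b = true := by
        rw [Bool.not_eq_true] at ha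
        rw [ha] at this
        cases hsb : σ b
        · exact absurd hsb.symm this
        · rfl
      rw [if_neg ha, hLs a b]
      exact hcol1 (b, a) ((hE (b, a)).2 ⟨hab.symm, hb⟩)
  · intro a b d hab had hbd
    simp only
    by_cases ha : σ a = true
    · rw [if_pos ha, if_pos ha]
      refine hcol2 (a, b) ((hE (a, b)).2 ⟨hab, ha⟩) (a, d) ((hE (a, d)).2 ⟨had, ha⟩)
        (fun h => hbd (Prod.ext_iff.1 h).2) (Or.inl rfl)
    · have hb : ∀ x, G.Adj a x → σ x = true := by
        intro x hx
        have := hσ a x hx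
        rw [Bool.not_eq_true] at ha
        rw [ha] at this
        cases hsb : σ x
        · exact absurd hsb.symm this
        · rfl
      rw [if_neg ha, if_neg ha]
      refine hcol2 (b, a) ((hE (b, a)).2 ⟨hab.symm, hb b hab⟩) (d, a)
        ((hE (d, a)).2 ⟨had.symm, hb d had⟩) (fun h => hbd (Prod.ext_iff.1 h).1) (Or.inr rfl)

end Pool.Agent.K4H76.LD
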