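import Mathlib

/-!
# Choosing edges at many vertices with small load
-/

set_option autoImplicit false

namespace Pool.Agent.K4H76.LD

open Finset

theorem inj_of_large {ι α : Type} [Fintype ι] [DecidableEq α] (t : ι → Finset α)
    (h : ∀ i, Fintype.card ι ≤ (t i).card) :
    ∃ f : ι → α, Function.Injective f ∧ ∀ x, f x ∈ t x := by
  classical
  apply (Finset.all_card_le_biUnion_card_iff_exists_injective t).1
  intro s
  rcases s.eq_empty_or_nonempty with h0 | ⟨i, hi⟩
  · subst h0
    simp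
  · calc s.card ≤ Fintype.card ι := card_le_univ s
      _ ≤ (t i).card := h i
      _ ≤ (s.biUnion t).card := card_le_card (subset_biUnion_of_mem t hi)

theorem demands {V : Type} [Fintype V] [DecidableEq V] (T : Finset V) (M r z b : ℕ)
    (hz : 0 < z) (hr : 0 < r) (X : V → Fin M → Finset V)
    (hX : ∀ v ∈ T, ∀ a, M * z ≤ (X v a).card)
    (hb : ∀ u, (T.filter (fun v => ∃ a, u ∈ X v a)).card ≤ b) (hbz : b ≤ z * r) :
    ∃ s : V → Fin M → V, (∀ v ∈ T, ∀ a, s v a ∈ X v a) ∧
      (∀ v ∈ T, Function.Injective (s v)) ∧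
      ∀ u, (T.filter (fun v => ∃ a, s v a = u)).card ≤ r := by
  classical
  have h1 : ∀ v : {v // v ∈ T}, ∃ g : Fin M × Fin z → V, Function.Injective g ∧
      ∀ x, g x ∈ X v.1 x.1 := by
    intro v
    apply inj_of_large (fun x : Fin M × Fin z => X v.1 x.1)
    intro x
    rw [Fintype.card_prod, Fintype.card_fin, Fintype.card_fin]
    exact hX v.1 v.2 x.1
  choose g hg1 hg2 using h1
  set t : {v // v ∈ T} × Fin M → Finset (V × Fin r) := fun x =>
    ((univ : Finset (Fin z)).image (fun i => g x.1 (x.2, i))) ×ˢ (univ : Finset (Fin r)) with ht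
  have hmem : ∀ x p, p ∈ t x ↔ ∃ i, g x.1 (x.2, i) = p.1 := by
    intro x p
    rw [ht, mem_product, mem_image]
    simp
  have hcard : ∀ x, (t x).card = z * r := by
    intro x
    rw [ht, card_product, card_image_of_injective, card_univ, card_univ, Fintype.card_fin,
      Fintype.card_fin]
    intro i j hij
    have := hg1 x.1 hij
    exact (Prod.ext_iff.1 this).2
  have hzr : 0 < z * r := Nat.mul_pos hz hr
  obtain ⟨f, hf1, hf2⟩ := (Finset.all_card_le_biUnion_card_iff_exists_injective t).1 (by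
    intro S
    have h2 := Finset.card_mul_le_card_mul (fun x p => p ∈ t x) (s := S) (t := S.biUnion t)
      (m := z * r) (n := b) (by
      intro x hx
      rw [← hcard x]
      apply card_le_card
      intro p hp
      rw [mem_bipartiteAbove]
      exact ⟨mem_biUnion.2 ⟨x, hx, hp⟩, hp⟩) (by
      intro p _
      refine le_trans ?_ (hb p.1)
      apply card_le_card_of_injOn (fun x => x.1.1)
      · intro x hx
        rw [mem_coe, mem_bipartiteBelow] at hx
        rw [mem_coe, mem_filter]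
        refine ⟨x.1.2, x.2, ?_⟩
        obtain ⟨i, hi⟩ := (hmem x p).1 hx.2
        rw [← hi]
        exact hg2 x.1 (x.2, i)
      · intro x hx y hy hxy
        rw [mem_coe, mem_bipartiteBelow] at hx hy
        obtain ⟨i, hi⟩ := (hmem x p).1 hx.2
        obtain ⟨j, hj⟩ := (hmem y p).1 hy.2
        have h3 : x.1 = y.1 := Subtype.ext hxy
        rw [← h3] at hj
        have h4 := hg1 x.1 (hi.trans hj.symm)
        exact Prod.ext h3 (Prod.ext_iff.1 h4).1)
    have h3 : S.card * (z * r) ≤ (S.biUnion t).card * (z * r) :=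
      h2.trans (Nat.mul_le_mul_left _ hbz)
    exact Nat.le_of_mul_le_mul_right h3 hzr)
  have hf3 : ∀ (v : {v // v ∈ T}) (a : Fin M), ∃ i, g v (a, i) = (f (v, a)).1 := by
    intro v a
    exact (hmem _ _).1 (hf2 (v, a))
  refine ⟨fun v a => if h : v ∈ T then (f (⟨v, h⟩, a)).1 else v, ?_, ?_, ?_⟩
  · intro v hv a
    simp only [dif_pos hv]
    obtain ⟨i, hi⟩ := hf3 ⟨v, hv⟩ a
    rw [← hi]
    exact hg2 ⟨v, hv⟩ (a, i)
  · intro v hv a a' h
    simp only [dif_pos hv] at h
    obtain ⟨i, hi⟩ := hf3 ⟨v, hv⟩ a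
    obtain ⟨j, hj⟩ := hf3 ⟨v, hv⟩ a'
    have h4 := hg1 ⟨v, hv⟩ (hi.trans (h.trans hj.symm))
    exact (Prod.ext_iff.1 h4).1
  · intro u
    have h5 : ∀ v ∈ T.filter (fun v => ∃ a, (if h : v ∈ T then (f (⟨v, h⟩, a)).1 else v) = u),
        ∃ i : Fin r, ∃ (h : v ∈ T) (a : Fin M), f (⟨v, h⟩, a) = (u, i) := by
      intro v hv
      obtain ⟨hvT, a, ha⟩ := mem_filter.1 hv
      rw [dif_pos hvT] at ha
      exact ⟨(f (⟨v, hvT⟩, a)).2, hvT, a, Prod.ext ha rfl⟩
    have : Nonempty (Fin r) := ⟨⟨0, hr⟩⟩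
    choose! k hk using h5
    calc (T.filter (fun v => ∃ a, (if h : v ∈ T then (f (⟨v, h⟩, a)).1 else v) = u)).card
        ≤ (univ : Finset (Fin r)).card := by
          apply card_le_card_of_injOn k (fun _ _ => mem_coe.2 (mem_univ _))
          intro v hv w hw hvw
          obtain ⟨h1, a, ha⟩ := hk v (mem_coe.1 hv)
          obtain ⟨h2, a', ha'⟩ := hk w (mem_coe.1 hw)
          rw [← hvw] at ha'
          have := hf1 (ha.trans ha'.symm)
          exact congrArg (fun x => x.1.1) this
      _ = r := by rw [card_univ, Fintype.card_fin]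

end Pool.Agent.K4H76.LD
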