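import Mathlib

/-!
# Choosing colours which avoid many lists in many places
-/

set_option autoImplicit false

namespace Pool.Agent.K4H76.LD

open Finset

theorem pick1 {B : Type} (M : ℕ) (A Fb : Fin M → Finset ℕ) (r : ℕ)
    (tests : Finset B) (K : B → Fin M → Prop) (Λ : B → Finset ℕ) (c : ℝ) (hc0 : 0 < c)
    (hc1 : c ≤ 1) (hFb : ∀ a, (Fb a).card ≤ r)
    (hA : ∀ a, ((M : ℝ) + r) < c * (A a).card)
    (hΛ : ∀ β ∈ tests, ∀ a, K β a → 2 * c * (A a).card ≤ ((A a \ Λ β).card : ℝ))
    [∀ β, DecidablePred (K β)] :
    ∃ col : Fin M → ℕ, Function.Injective col ∧ (∀ a, col a ∈ A a ∧ col a ∉ Fb a) ∧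
      ∀ β ∈ tests, (1 + c / 2) ^ (univ.filter (fun a => K β a ∧ col a ∈ Λ β)).card ≤
        (tests.card : ℝ) * (1 + c / 2 * (1 - c)) ^ (univ.filter (fun a => K β a)).card := by
  classical
  set x : ℝ := 1 + c / 2 with hx
  set ρ : ℝ := 1 + c / 2 * (1 - c) with hρ
  have hx0 : 0 < x := by rw [hx]; positivity
  have hρ0 : 0 < ρ := by
    rw [hρ]
    have : 0 ≤ c / 2 * (1 - c) := mul_nonneg (by positivity) (by linarith)
    linarith
  have key : ∀ i ≤ M, ∃ col : Fin M → ℕ,
      (∀ a b : Fin M, a.val < i → b.val < i → col a = col b → a = b) ∧
      (∀ a : Fin M, a.val < i → col a ∈ A a ∧ col a ∉ Fb a) ∧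
      ∑ β ∈ tests, x ^ (univ.filter (fun a : Fin M => a.val < i ∧ K β a ∧ col a ∈ Λ β)).card /
        ρ ^ (univ.filter (fun a : Fin M => a.val < i ∧ K β a)).card ≤ tests.card := by
    intro i
    induction i with
    | zero =>
      intro _
      refine ⟨fun _ => 0, fun a _ ha => absurd ha (Nat.not_lt_zero _),
        fun a ha => absurd ha (Nat.not_lt_zero _), ?_⟩
      simp
    | succ i ih =>
      intro hi
      obtain ⟨col, h1, h2, h3⟩ := ih (by omega)
      set a₀ : Fin M := ⟨i, by omega⟩ with ha₀
      set U : Finset ℕ := (univ.filter (fun a : Fin M => a.val < i)).image col ∪ Fb a₀ with hU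
      have hUc : (U.card : ℝ) ≤ M + r := by
        have e1 : U.card ≤ M + r := by
          refine (card_union_le _ _).trans (Nat.add_le_add ?_ (hFb a₀))
          refine card_image_le.trans ?_
          calc (univ.filter (fun a : Fin M => a.val < i)).card ≤ (univ : Finset (Fin M)).card :=
                card_le_card (filter_subset _ _)
            _ = M := by rw [card_univ, Fintype.card_fin]
        exact_mod_cast e1
      set A' : Finset ℕ := A a₀ \ U with hA'
      have hA'c : ((A a₀).card : ℝ) ≤ A'.card + U.card := by
        have e1 := le_card_sdiff U (A a₀)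
        rw [← hA'] at e1
        have e2 : (A a₀).card ≤ A'.card + U.card := by omega
        exact_mod_cast e2
      have hAa := hA a₀
      have hA'pos : (0 : ℝ) < A'.card := by
        have e1 : c * (A a₀).card ≤ (A a₀).card := by
          have : (0 : ℝ) ≤ (A a₀).card := Nat.cast_nonneg _
          nlinarith
        linarith
      have hA'ne : A'.Nonempty := by
        rw [← card_pos]
        exact_mod_cast hA'pos
      -- weights
      set w : B → ℝ := fun β =>
        x ^ (univ.filter (fun a : Fin M => a.val < i ∧ K β a ∧ col a ∈ Λ β)).card /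
          ρ ^ (univ.filter (fun a : Fin M => a.val < i ∧ K β a)).card with hw
      have hw0 : ∀ β, 0 ≤ w β := fun β => by
        rw [hw]
        positivity
      set ψ : B → ℕ → ℝ := fun β d =>
        if K β a₀ then (if d ∈ Λ β then x else 1) / ρ else 1 with hψ
      have havg : ∑ d ∈ A', ∑ β ∈ tests, w β * ψ β d ≤ ∑ _d ∈ A', ∑ β ∈ tests, w β := by
        rw [sum_comm]
        rw [sum_comm (s := A')]
        apply sum_le_sum
        intro β hβ
        rw [← mul_sum, sum_const, nsmul_eq_mul, mul_comm]
        apply mul_le_mul_of_nonneg_right _ (hw0 β)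
        by_cases hK : K β a₀
        · simp only [hψ, if_pos hK]
          rw [← sum_div, div_le_iff₀ hρ0]
          have e1 : ∑ d ∈ A', (if d ∈ Λ β then x else (1 : ℝ)) =
              A'.card + (c / 2) * ((A'.filter (fun d => d ∈ Λ β)).card : ℝ) := by
            have e2 : ∀ d ∈ A', (if d ∈ Λ β then x else (1 : ℝ)) =
                1 + (c / 2) * (if d ∈ Λ β then (1 : ℝ) else 0) := by
              intro d _
              by_cases hd : d ∈ Λ β
              · rw [if_pos hd, if_pos hd, hx]
                ring
              · rw [if_neg hd, if_neg hd]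
                ring
            rw [sum_congr rfl e2, sum_add_distrib, ← mul_sum, sum_boole, sum_const,
              nsmul_eq_mul, mul_one]
          rw [e1, hρ]
          have e3 : ((A a₀ \ Λ β).card : ℝ) ≤ (A'.filter (fun d => d ∉ Λ β)).card + U.card := by
            have e4 : A a₀ \ Λ β ⊆ A'.filter (fun d => d ∉ Λ β) ∪ U := by
              intro d hd
              rw [mem_sdiff] at hd
              rw [mem_union, mem_filter, hA', mem_sdiff]
              by_cases hdU : d ∈ U
              · exact Or.inr hdU
              · exact Or.inl ⟨⟨hd.1, hdU⟩, hd.2⟩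
            have e5 := (card_le_card e4).trans (card_union_le _ _)
            exact_mod_cast e5
          have e6 := hΛ β hβ a₀ hK
          have e7 : ((A'.filter (fun d => d ∈ Λ β)).card : ℝ) +
              (A'.filter (fun d => d ∉ Λ β)).card = A'.card := by
            have := card_filter_add_card_filter_not (s := A') (fun d => d ∈ Λ β)
            exact_mod_cast this
          have e8 : ((A'.card : ℝ)) ≤ (A a₀).card := by
            have := card_le_card (sdiff_subset (s := A a₀) (t := U))
            exact_mod_cast this
          have e9 : c * (A'.card : ℝ) ≤ (A'.filter (fun d => d ∉ Λ β)).card := by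
            have : c * (A'.card : ℝ) ≤ c * (A a₀).card := mul_le_mul_of_nonneg_left e8 hc0.le
            linarith
          nlinarith
        · simp only [hψ, if_neg hK]
          simp
      obtain ⟨d, hd, hle⟩ := exists_le_of_sum_le hA'ne havg
      rw [hA', mem_sdiff, hU, mem_union, not_or] at hd
      obtain ⟨hdA, hdU, hdF⟩ := hd
      have hupd : ∀ a : Fin M, a.val < i → Function.update col a₀ d a = col a := by
        intro a ha
        rw [Function.update_of_ne]
        intro h
        rw [h, ha₀] at ha
        exact lt_irrefl _ ha
      have hupd0 : Function.update col a₀ d a₀ = d := Function.update_self _ _ _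
      have hcase : ∀ a : Fin M, a.val < i + 1 → a.val < i ∨ a = a₀ := by
        intro a ha
        rcases Nat.lt_or_ge a.val i with h | h
        · exact Or.inl h
        · exact Or.inr (Fin.ext (by rw [ha₀]; simp only; omega))
      have hnew : ∀ a : Fin M, a.val < i → col a ≠ d := by
        intro a ha h
        apply hdU
        rw [← h]
        exact mem_image_of_mem _ (mem_filter.2 ⟨mem_univ _, ha⟩)
      refine ⟨Function.update col a₀ d, ?_, ?_, ?_⟩
      · intro a b ha hb hab
        rcases hcase a ha with h | h <;> rcases hcase b hb with h' | h'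
        · rw [hupd a h, hupd b h'] at hab
          exact h1 a b h h' hab
        · rw [hupd a h, h', hupd0] at hab
          exact absurd hab (hnew a h)
        · rw [hupd b h', h, hupd0] at hab
          exact absurd hab.symm (hnew b h')
        · rw [h, h']
      · intro a ha
        rcases hcase a ha with h | h
        · rw [hupd a h]
          exact h2 a h
        · rw [h, hupd0]
          exact ⟨hdA, hdF⟩
      · refine le_trans (le_of_eq ?_) (hle.trans h3)
        apply sum_congr rfl
        intro β _
        rw [hw, hψ]
        simp only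
        have hai : ¬ a₀.val < i := by rw [ha₀]; simp
        by_cases hK : K β a₀
        · have f1 : (univ.filter (fun a : Fin M => a.val < i + 1 ∧ K β a)) =
              insert a₀ (univ.filter (fun a : Fin M => a.val < i ∧ K β a)) := by
            ext a
            simp only [mem_filter, mem_univ, true_and, mem_insert]
            constructor
            · rintro ⟨g1, g2⟩
              rcases hcase a g1 with h | h
              · exact Or.inr ⟨h, g2⟩
              · exact Or.inl h
            · rintro (h | ⟨g1, g2⟩)
              · rw [h]
                exact ⟨by rw [ha₀]; simp, hK⟩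
              · exact ⟨by omega, g2⟩
          have f1c : (univ.filter (fun a : Fin M => a.val < i + 1 ∧ K β a)).card =
              (univ.filter (fun a : Fin M => a.val < i ∧ K β a)).card + 1 := by
            rw [f1, card_insert_of_notMem]
            rw [mem_filter]
            exact fun h => hai h.2.1
          rw [if_pos hK, f1c]
          by_cases hdΛ : d ∈ Λ β
          · have f2 : (univ.filter (fun a : Fin M => a.val < i + 1 ∧ K β a ∧
                Function.update col a₀ d a ∈ Λ β)) =
                insert a₀ (univ.filter (fun a : Fin M => a.val < i ∧ K β a ∧ col a ∈ Λ β)) := by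
              ext a
              simp only [mem_filter, mem_univ, true_and, mem_insert]
              constructor
              · rintro ⟨g1, g2, g3⟩
                rcases hcase a g1 with h | h
                · rw [hupd a h] at g3
                  exact Or.inr ⟨h, g2, g3⟩
                · exact Or.inl h
              · rintro (h | ⟨g1, g2, g3⟩)
                · rw [h, hupd0]
                  exact ⟨by rw [ha₀]; simp, hK, hdΛ⟩
                · rw [hupd a g1]
                  exact ⟨by omega, g2, g3⟩
            have f2c : (univ.filter (fun a : Fin M => a.val < i + 1 ∧ K β a ∧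
                Function.update col a₀ d a ∈ Λ β)).card =
                (univ.filter (fun a : Fin M => a.val < i ∧ K β a ∧ col a ∈ Λ β)).card + 1 := by
              rw [f2, card_insert_of_notMem]
              rw [mem_filter]
              exact fun h => hai h.2.1
            rw [if_pos hdΛ, f2c, pow_succ, pow_succ]
            field_simp
          · have f2 : (univ.filter (fun a : Fin M => a.val < i + 1 ∧ K β a ∧
                Function.update col a₀ d a ∈ Λ β)) =
                (univ.filter (fun a : Fin M => a.val < i ∧ K β a ∧ col a ∈ Λ β)) := by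
              ext a
              simp only [mem_filter, mem_univ, true_and]
              constructor
              · rintro ⟨g1, g2, g3⟩
                rcases hcase a g1 with h | h
                · rw [hupd a h] at g3
                  exact ⟨h, g2, g3⟩
                · rw [h, hupd0] at g3
                  exact absurd g3 hdΛ
              · rintro ⟨g1, g2, g3⟩
                rw [hupd a g1]
                exact ⟨by omega, g2, g3⟩
            rw [if_neg hdΛ, f2, pow_succ]
            field_simp
        · have f1 : (univ.filter (fun a : Fin M => a.val < i + 1 ∧ K β a)) =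
              (univ.filter (fun a : Fin M => a.val < i ∧ K β a)) := by
            ext a
            simp only [mem_filter, mem_univ, true_and]
            constructor
            · rintro ⟨g1, g2⟩
              rcases hcase a g1 with h | h
              · exact ⟨h, g2⟩
              · rw [h] at g2
                exact absurd g2 hK
            · rintro ⟨g1, g2⟩
              exact ⟨by omega, g2⟩
          have f2 : (univ.filter (fun a : Fin M => a.val < i + 1 ∧ K β a ∧
              Function.update col a₀ d a ∈ Λ β)) =
              (univ.filter (fun a : Fin M => a.val < i ∧ K β a ∧ col a ∈ Λ β)) := by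
            ext a
            simp only [mem_filter, mem_univ, true_and]
            constructor
            · rintro ⟨g1, g2, g3⟩
              rcases hcase a g1 with h | h
              · rw [hupd a h] at g3
                exact ⟨h, g2, g3⟩
              · rw [h] at g2
                exact absurd g2 hK
            · rintro ⟨g1, g2, g3⟩
              rw [hupd a g1]
              exact ⟨by omega, g2, g3⟩
          rw [f1, f2, if_neg hK, mul_one]
  obtain ⟨col, h1, h2, h3⟩ := key M le_rfl
  refine ⟨col, fun a b hab => h1 a b a.2 b.2 hab, fun a => h2 a a.2, ?_⟩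
  intro β hβ
  have h4 := single_le_sum (f := fun β =>
    x ^ (univ.filter (fun a : Fin M => a.val < M ∧ K β a ∧ col a ∈ Λ β)).card /
        ρ ^ (univ.filter (fun a : Fin M => a.val < M ∧ K β a)).card)
    (fun β _ => by positivity) hβ
  have h5 := h4.trans h3
  simp only [Fin.is_lt, true_and] at h5
  rw [div_le_iff₀ (by positivity)] at h5
  exact h5

theorem pick_bound (c : ℝ) (hc0 : 0 < c) (hc1 : c ≤ 1) (N k : ℕ) (T : ℝ) (hT : 1 ≤ T)
    (h : (1 + c / 2) ^ N ≤ T * (1 + c / 2 * (1 - c)) ^ k) (hk : 12 * Real.log T ≤ c ^ 2 * k) :
    (N : ℝ) ≤ (1 - c / 4) * k := by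
  have hρ0 : 0 < 1 + c / 2 * (1 - c) := by
    have : 0 ≤ c / 2 * (1 - c) := mul_nonneg (by positivity) (by linarith)
    linarith
  have h1 := Real.log_le_log (by positivity) h
  rw [Real.log_mul (by positivity) (by positivity), Real.log_pow, Real.log_pow] at h1
  have h2 : Real.log (1 + c / 2 * (1 - c)) ≤ c / 2 * (1 - c) := by
    have := Real.log_le_sub_one_of_pos hρ0
    linarith
  have h3 : (c / 2) / (1 + c / 2) ≤ Real.log (1 + c / 2) := by
    have := Real.one_sub_inv_le_log_of_pos (show 0 < 1 + c / 2 by positivity)
    refine le_trans (le_of_eq ?_) this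
    field_simp
    ring
  have hk0 : (0 : ℝ) ≤ k := Nat.cast_nonneg k
  have hN0 : (0 : ℝ) ≤ N := Nat.cast_nonneg N
  have h4 : (N : ℝ) * ((c / 2) / (1 + c / 2)) ≤ Real.log T + k * (c / 2 * (1 - c)) := by
    calc (N : ℝ) * ((c / 2) / (1 + c / 2)) ≤ N * Real.log (1 + c / 2) :=
          mul_le_mul_of_nonneg_left h3 hN0
      _ ≤ Real.log T + k * Real.log (1 + c / 2 * (1 - c)) := h1
      _ ≤ _ := by
        have := mul_le_mul_of_nonneg_left h2 hk0
        linarith
  have h5 : (N : ℝ) * (c / 2) ≤ (Real.log T + k * (c / 2 * (1 - c))) * (1 + c / 2) := by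
    rw [mul_div_assoc', div_le_iff₀ (by positivity)] at h4
    exact h4
  have hl : 0 ≤ Real.log T := Real.log_nonneg hT
  have h6 : (Real.log T + k * (c / 2 * (1 - c))) * (1 + c / 2) ≤
      (c / 2) * ((1 - c / 4) * k) := by
    have h7 : Real.log T * (1 + c / 2) ≤ (c ^ 2 * k / 12) * (3 / 2) := by
      apply mul_le_mul (by linarith) (by linarith) (by linarith) (by positivity)
    nlinarith [mul_nonneg hk0 (sq_nonneg c), mul_nonneg (mul_nonneg hk0 (sq_nonneg c)) hc0.le]
  have h8 : (N : ℝ) * (c / 2) ≤ ((1 - c / 4) * k) * (c / 2) := by linarith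
  exact le_of_mul_le_mul_right h8 (by positivity)

theorem pickAll {V B : Type} [DecidableEq V] (T : Finset V) (M r : ℕ) (s : V → Fin M → V)
    (A : V → Fin M → Finset ℕ) (tests : V → Finset B) (K : V → B → Fin M → Prop)
    (Λ : V → B → Finset ℕ) (c : ℝ) (hc0 : 0 < c) (hc1 : c ≤ 1) (t : ℕ) (N : ℝ) (hN : 1 ≤ N)
    [∀ v β, DecidablePred (K v β)]
    (hinj : ∀ v ∈ T, Function.Injective (s v))
    (hload : ∀ u, (T.filter (fun v => ∃ a, s v a = u)).card ≤ r)
    (htests : ∀ v ∈ T, ((tests v).card : ℝ) ≤ N)
    (ht : 12 * Real.log N ≤ c ^ 2 * t)
    (hK : ∀ v ∈ T, ∀ β ∈ tests v, (univ.filter (fun a => K v β a)).card = t)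
    (hA : ∀ v ∈ T, ∀ a, ((M : ℝ) + r) < c * (A v a).card)
    (hΛ : ∀ v ∈ T, ∀ β ∈ tests v, ∀ a, K v β a →
      2 * c * (A v a).card ≤ ((A v a \ Λ v β).card : ℝ)) :
    ∃ col : V → Fin M → ℕ, (∀ v ∈ T, Function.Injective (col v)) ∧
      (∀ v ∈ T, ∀ a, col v a ∈ A v a) ∧
      (∀ v ∈ T, ∀ v' ∈ T, v ≠ v' → ∀ a a', s v a = s v' a' → col v a ≠ col v' a') ∧
      ∀ v ∈ T, ∀ β ∈ tests v,
        ((univ.filter (fun a => K v β a ∧ col v a ∈ Λ v β)).card : ℝ) ≤ (1 - c / 4) * t := by
  classical
  have key : ∀ S : Finset V, S ⊆ T → ∃ col : V → Fin M → ℕ,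
      (∀ v ∈ S, Function.Injective (col v)) ∧ (∀ v ∈ S, ∀ a, col v a ∈ A v a) ∧
      (∀ v ∈ S, ∀ v' ∈ S, v ≠ v' → ∀ a a', s v a = s v' a' → col v a ≠ col v' a') ∧
      ∀ v ∈ S, ∀ β ∈ tests v,
        ((univ.filter (fun a => K v β a ∧ col v a ∈ Λ v β)).card : ℝ) ≤ (1 - c / 4) * t := by
    intro S
    induction S using Finset.induction_on with
    | empty =>
      intro _
      exact ⟨fun _ _ => 0, by simp, by simp, by simp, by simp⟩
    | insert v S hvS ih =>
      intro hS
      obtain ⟨col, h1, h2, h3, h4⟩ := ih ((subset_insert v S).trans hS)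
      have hvT : v ∈ T := hS (mem_insert_self _ _)
      set Fb : Fin M → Finset ℕ := fun a =>
        (S.filter (fun v' => ∃ a', s v' a' = s v a)).biUnion
          (fun v' => (univ.filter (fun a' => s v' a' = s v a)).image (col v')) with hFb
      have hFbc : ∀ a, (Fb a).card ≤ r := by
        intro a
        refine (card_biUnion_le_card_mul _ _ 1 ?_).trans ?_
        · intro v' hv'
          refine card_image_le.trans ?_
          rw [card_le_one]
          intro a1 ha1 a2 ha2
          have hv'T : v' ∈ T := hS (mem_insert_of_mem (mem_filter.1 hv').1)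
          exact hinj v' hv'T ((mem_filter.1 ha1).2.trans (mem_filter.1 ha2).2.symm)
        · rw [mul_one]
          refine le_trans (card_le_card ?_) (hload (s v a))
          intro v' hv'
          rw [mem_filter] at hv' ⊢
          exact ⟨hS (mem_insert_of_mem hv'.1), hv'.2⟩
      obtain ⟨cv, g1, g2, g3⟩ := pick1 M (A v) Fb r (tests v) (K v) (Λ v) c hc0 hc1 hFbc
        (hA v hvT) (hΛ v hvT)
      have hne : ∀ v' ∈ S, v' ≠ v := fun v' hv' h => hvS (h ▸ hv')
      have hmix : ∀ v' ∈ S, ∀ a a', s v a = s v' a' → cv a ≠ col v' a' := by
        intro v' hv' a a' hss heq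
        apply (g2 a).2
        rw [hFb, mem_biUnion]
        refine ⟨v', mem_filter.2 ⟨hv', a', hss.symm⟩, ?_⟩
        rw [heq]
        exact mem_image_of_mem _ (mem_filter.2 ⟨mem_univ _, hss.symm⟩)
      refine ⟨Function.update col v cv, ?_, ?_, ?_, ?_⟩
      · intro u hu
        rcases mem_insert.1 hu with h | h
        · subst h
          rw [Function.update_self]
          exact g1
        · rw [Function.update_of_ne (hne u h)]
          exact h1 u h
      · intro u hu a
        rcases mem_insert.1 hu with h | h
        · subst h
          rw [Function.update_self]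
          exact (g2 a).1
        · rw [Function.update_of_ne (hne u h)]
          exact h2 u h a
      · intro u hu u' hu' huu a a' hss
        rcases mem_insert.1 hu with h | h <;> rcases mem_insert.1 hu' with h' | h'
        · exact absurd (h.trans h'.symm) huu
        · subst h
          rw [Function.update_self, Function.update_of_ne (hne u' h')]
          exact hmix u' h' a a' hss
        · subst h'
          rw [Function.update_self, Function.update_of_ne (hne u h)]
          exact (hmix u h a' a hss.symm).symm
        · rw [Function.update_of_ne (hne u h), Function.update_of_ne (hne u' h')]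
          exact h3 u h u' h' huu a a' hss
      · intro u hu β hβ
        rcases mem_insert.1 hu with h | h
        · subst h
          rw [Function.update_self]
          apply pick_bound c hc0 hc1 _ t N hN _ ht
          have e1 := g3 β hβ
          rw [hK u hvT β hβ] at e1
          refine e1.trans ?_
          apply mul_le_mul_of_nonneg_right (htests u hvT)
          apply pow_nonneg
          have : 0 ≤ c / 2 * (1 - c) := mul_nonneg (by positivity) (by linarith)
          linarith
        · rw [Function.update_of_ne (hne u h)]
          exact h4 u h β hβ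
  exact key T (Subset.refl _)

end Pool.Agent.K4H76.LD
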