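import Pool.Agent.K4H76.LD.Comb
import Pool.Agent.K4H76.LD.GalvB
import Pool.Agent.K4H76.LD.Hall
import Pool.Agent.K4H76.LD.Pot
import Pool.Agent.H162R2.AG.All

/-!
# Repairing the bad vertices, colouring level by level
-/

set_option autoImplicit false
set_option linter.unusedSectionVars false

namespace Pool.Agent.K4H76.LD

open Finset Pool.Agent.H162R2.Sparse Pool.Agent.H162R2.AG Pool.Agent.K4H76.LR

section
variable {V : Type} [Fintype V] [DecidableEq V]

theorem dgL_sum (G : SimpleGraph V) {ℓ : ℕ} (σ : V → Fin ℓ → Bool) (v : V) :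
    ∑ j ∈ range ℓ, dgL G σ j v + dgL G σ ℓ v = dg G v := by
  classical
  rw [← sum_range_succ (fun j => dgL G σ j v) ℓ]
  have h1 : nb G v = (range (ℓ + 1)).biUnion
      (fun j => (nb G v).filter (fun w => At (σ v) (σ w) j)) := by
    ext w
    rw [mem_biUnion]
    constructor
    · intro hw
      obtain ⟨j, hj, hj2⟩ := At_exists (σ v) (σ w)
      exact ⟨j, mem_range.2 (by omega), mem_filter.2 ⟨hw, hj2⟩⟩
    · rintro ⟨j, _, hj⟩
      exact (mem_filter.1 hj).1
  unfold dg
  conv_rhs => rw [h1]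
  rw [card_biUnion]
  · apply sum_congr rfl
    intro j _
    unfold dgL
    congr!
  · intro i hi j hj hij
    rw [Function.onFun, disjoint_left]
    intro w hw1 hw2
    apply hij
    rw [mem_coe, mem_range] at hi hj
    exact At_unique (mem_filter.1 hw1).2 (mem_filter.1 hw2).2 (by omega) (by omega)

end

open Classical in
/-- the demanded edges -/
theorem repair (n : ℕ) (hn : 2 ≤ n) (G : SimpleGraph (Fin n)) (J t r z b d D' B2 : ℕ)
    (σ : Fin n → Fin J → Bool) (τ : ℕ → ℕ) (L0 L : Fin n → Fin n → Finset ℕ)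
    (T : Finset (Fin n)) (q : ℕ → ℝ) (thr : Fin n → ℕ → ℝ) (θ Y e1 c g3 φ : ℝ)
    (hJ : 1 ≤ J) (hr : 0 < r) (hz : 0 < z) (hbz : b ≤ z * r) (hθ : 0 ≤ θ) (hY : 0 ≤ Y)
    (hφ : 0 ≤ φ) (hc0 : 0 < c) (hc1 : c ≤ 1) (hsym : ∀ v w, L v w = L w v)
    (hLL : ∀ v w, G.Adj v w → L v w ⊆ L0 v w)
    (hLL' : ∀ v w, G.Adj v w → (L0 v w \ L v w).card ≤ B2)
    (hcard : ∀ v w, G.Adj v w → (L0 v w).card ≤ D')
    (hd : ∀ v, dg G v ≤ d)
    (hq1 : ∀ j < J, (d : ℝ) / 2 ^ (j + 1) + e1 ≤ q j * D')
    (hsup : ∀ v w, G.Adj v w → ∀ j < J, q j * D' - Y ≤ cl (L0 v w) τ j)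
    (hdegT : ∀ v ∈ T, ∀ j < J, (dgL G σ j v : ℝ) ≤ d / 2 ^ (j + 1) + Y)
    (hdegJ' : ∀ v ∈ T, (dg G v : ℝ) / 2 ^ J - θ ≤ dgL G σ J v)
    (hTb : ∀ v, ((nb G v).filter (fun w => w ∈ T)).card ≤ b)
    (hthr1 : ∀ v ∈ T, ∀ j < J, q j * D' - Y ≤ thr v j ∧ thr v j ≤ q j * D' + Y)
    (hthr2 : ∀ v ∈ T, ∑ j ∈ range J, q j * D' - θ ≤ ∑ j ∈ range J, thr v j)
    (hcand : ∀ v ∈ T, ∀ i < J, ∀ j < J, J * t * z ≤ ((nb G v).filter (fun w => w ∉ T ∧
      At (σ v) (σ w) i ∧ thr v j ≤ cl (L0 v w) τ j)).card)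
    (hpair : ∀ v ∈ T, ∀ w w', G.Adj v w → G.Adj v w' → ∀ j < J,
      (cl (L0 v w) τ j : ℝ) < thr v j - θ → thr v j ≤ cl (L0 v w') τ j →
      g3 ≤ (((L0 v w' \ L0 v w).filter (fun c => τ c = j)).card : ℝ))
    (n2 : ∀ j < J, ((J * t : ℕ) : ℝ) + r < c * (q j * D' - Y - B2))
    (n3 : 2 * c * D' ≤ g3 - B2)
    (n4 : 12 * Real.log n ≤ c ^ 2 * t)
    (n5 : 2 * Y ≤ c / 4 * t)
    (nE : B2 + r + φ ≤ θ)
    (n6 : 4 * θ + 1 ≤ e1)
    (n7 : J * (2 * Y + 1) ≤ (t : ℝ)) :
    ∃ (P : SimpleGraph (Fin n)) (f₁ : Fin n → Fin n → ℕ),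
      (∀ a b, P.Adj a b → G.Adj a b) ∧
      (∀ a b, P.Adj a b → f₁ a b = f₁ b a) ∧
      (∀ a b, P.Adj a b → f₁ a b ∈ L a b) ∧
      (∀ a b c, P.Adj a b → P.Adj a c → b ≠ c → f₁ a b ≠ f₁ a c) ∧
      (∀ a b, P.Adj a b → τ (f₁ a b) < J) ∧
      (∀ v, v ∉ T → (nb P v).card ≤ r) ∧
      (∀ v ∈ T, (nb P v).card ≤ J * t) ∧
      (∀ v ∈ T, ∀ j < J, (dg (LvG (G \ P) σ j) v : ℝ) ≤ thr v j - t - 2 * θ) ∧
      (∀ v ∈ T, ∀ w, w ∉ T → G.Adj v w → ∀ j < J, At (σ v) (σ w) j → ¬ P.Adj v w →
        (dg (LvG (G \ P) σ j) v : ℝ) + φ ≤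
          cl (L0 v w) τ j - B2 - r -
            (((nb P v).image (f₁ v)).filter (fun c => c ∈ L0 v w ∧ τ c = j)).card) := by
  classical
  set M : ℕ := J * t with hM
  have hlog : 0 ≤ Real.log n := Real.log_natCast_nonneg n
  -- the numbers of the demanded edges of the levels
  have hlev : ∀ v ∈ T, ∃ lev : Fin M → Fin J, ∀ j : Fin J,
      (t : ℝ) + dgL G σ j v - thr v j + 2 * θ ≤
        ((univ.filter (fun a => lev a = j)).card : ℝ) := by
    intro v hv
    set lb : Fin J → ℝ := fun j => (t : ℝ) + dgL G σ j v - thr v j + 2 * θ with hlb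
    have hlb1 : ∀ j, lb j ≤ t + 2 * Y := by
      intro j
      have e1' := hdegT v hv j j.2
      have e2 := (hthr1 v hv j j.2).1
      have e3 := hq1 j j.2
      simp only [hlb]
      linarith
    have hJ0 : (1 : ℝ) ≤ J := by exact_mod_cast hJ
    have hsum : ∑ j, lb j + J ≤ M := by
      have e1' : ∑ j : Fin J, lb j = J * t + ∑ j ∈ range J, (dgL G σ j v : ℝ) -
          ∑ j ∈ range J, thr v j + 2 * J * θ := by
        simp only [hlb]
        rw [sum_add_distrib, sum_sub_distrib, sum_add_distrib,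
          Fin.sum_univ_eq_sum_range (fun j => (dgL G σ j v : ℝ)) J,
          Fin.sum_univ_eq_sum_range (fun j => thr v j) J, sum_const, sum_const, card_univ,
          Fintype.card_fin, nsmul_eq_mul, nsmul_eq_mul]
        ring
      have e2 : (∑ j ∈ range J, (dgL G σ j v : ℝ)) + dgL G σ J v = dg G v := by
        have := dgL_sum G σ v
        exact_mod_cast this
      have e3 := hdegJ' v hv
      have e4 := hthr2 v hv
      have e5 : ∑ j ∈ range J, ((d : ℝ) / 2 ^ (j + 1) + e1) ≤ ∑ j ∈ range J, q j * D' :=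
        sum_le_sum (fun j hj => hq1 j (mem_range.1 hj))
      have e6 : ∑ j ∈ range J, ((d : ℝ) / 2 ^ (j + 1) + e1) = d * (1 - 1 / 2 ^ J) + J * e1 := by
        rw [sum_add_distrib, sum_const, card_range, nsmul_eq_mul]
        congr 1
        have : ∀ k : ℕ, ∑ j ∈ range k, (d : ℝ) / 2 ^ (j + 1) = d * (1 - 1 / 2 ^ k) := by
          intro k
          induction k with
          | zero => simp
          | succ k ih =>
            rw [sum_range_succ, ih, pow_succ]
            field_simp
            ring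
        exact this J
      have e7 : (dg G v : ℝ) ≤ d := by exact_mod_cast hd v
      have e8 : (0 : ℝ) ≤ 1 - 1 / 2 ^ J := by
        rw [sub_nonneg, div_le_one (by positivity)]
        exact one_le_pow₀ (by norm_num)
      have e9 : (dg G v : ℝ) * (1 - 1 / 2 ^ J) ≤ d * (1 - 1 / 2 ^ J) :=
        mul_le_mul_of_nonneg_right e7 e8
      have e10 : (dg G v : ℝ) * (1 - 1 / 2 ^ J) = dg G v - dg G v / 2 ^ J := by ring
      have e11 : (J : ℝ) * (4 * θ + 1) ≤ J * e1 := mul_le_mul_of_nonneg_left n6 (by linarith)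
      have e12 : θ ≤ J * θ := by nlinarith
      rw [e1', hM]
      push_cast
      linarith
    have hmax : ∑ j, (max 0 (lb j) + 1) ≤ (M : ℝ) := by
      by_cases hall : ∀ j, 0 ≤ lb j
      · have e1' : ∑ j, (max 0 (lb j) + 1) = ∑ j, lb j + J := by
          rw [sum_add_distrib, sum_const, card_univ, Fintype.card_fin, nsmul_eq_mul, mul_one]
          congr 1
          exact sum_congr rfl (fun j _ => max_eq_right (hall j))
        rw [e1']
        exact hsum
      · push Not at hall
        obtain ⟨j₀, hj₀⟩ := hall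
        have ht0 : (0 : ℝ) ≤ t := Nat.cast_nonneg t
        have e1' : ∀ j ∈ univ.erase j₀, max 0 (lb j) + 1 ≤ t + 2 * Y + 1 := by
          intro j _
          have := hlb1 j
          have : max 0 (lb j) ≤ t + 2 * Y := max_le (by positivity) this
          linarith
        rw [← add_sum_erase univ _ (mem_univ j₀), max_eq_left hj₀.le]
        have e2 := sum_le_sum e1'
        rw [sum_const, nsmul_eq_mul] at e2
        have e3 : ((univ.erase j₀ : Finset (Fin J)).card : ℝ) = J - 1 := by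
          rw [card_erase_of_mem (mem_univ _), card_univ, Fintype.card_fin, Nat.cast_sub hJ]
          simp
        rw [e3] at e2
        rw [hM]
        push_cast
        nlinarith
    obtain ⟨m, hm1, hm2⟩ := m_exists J M hJ lb hmax
    obtain ⟨lev, hlev⟩ := lev_exists J M m hm2
    refine ⟨lev, fun j => ?_⟩
    rw [hlev j]
    exact hm1 j
  have hJne : Nonempty (Fin J) := ⟨⟨0, by omega⟩⟩
  choose! lev hlev using hlev
  -- the candidates
  set X : Fin n → Fin M → Finset (Fin n) := fun v a => (nb G v).filter (fun w => w ∉ T ∧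
    At (σ v) (σ w) (lev v a) ∧ thr v (pal J t a) ≤ cl (L0 v w) τ (pal J t a)) with hX
  obtain ⟨s, hs1, hs2, hs3⟩ := demands T M r z b hz hr X (fun v hv a => by
      have := hcand v hv (lev v a) (lev v a).2 (pal J t a) (pal J t a).2
      exact this) (fun u => by
      refine le_trans (card_le_card ?_) (hTb u)
      intro v hv
      obtain ⟨hvT, a, ha⟩ := mem_filter.1 hv
      rw [hX, mem_filter, mem_nb] at ha
      rw [mem_filter, mem_nb]
      exact ⟨ha.1.symm, hvT⟩) hbz
  have hs : ∀ v ∈ T, ∀ a, G.Adj v (s v a) ∧ s v a ∉ T ∧ At (σ v) (σ (s v a)) (lev v a) ∧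
      thr v (pal J t a) ≤ cl (L0 v (s v a)) τ (pal J t a) := by
    intro v hv a
    have := hs1 v hv a
    rw [hX, mem_filter, mem_nb] at this
    exact this
  -- the colours
  have hAcard : ∀ v ∈ T, ∀ a, q (pal J t a) * D' - Y - B2 ≤
      (((L v (s v a)).filter (fun c => τ c = pal J t a)).card : ℝ) := by
    intro v hv a
    have e1' := hsup v (s v a) (hs v hv a).1 (pal J t a) (pal J t a).2
    have e2 := hLL' v (s v a) (hs v hv a).1
    have e3 : cl (L0 v (s v a)) τ (pal J t a) ≤
        ((L v (s v a)).filter (fun c => τ c = pal J t a)).card +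
          (L0 v (s v a) \ L v (s v a)).card := by
      unfold cl
      refine le_trans (card_le_card ?_) (card_union_le _ _)
      intro c hc
      rw [mem_filter] at hc
      rw [mem_union, mem_filter, mem_sdiff]
      by_cases h : c ∈ L v (s v a)
      · exact Or.inl ⟨h, hc.2⟩
      · exact Or.inr ⟨hc.1, h⟩
    have e4 : (cl (L0 v (s v a)) τ (pal J t a) : ℝ) ≤
        ((L v (s v a)).filter (fun c => τ c = pal J t a)).card + B2 := by
      have : cl (L0 v (s v a)) τ (pal J t a) ≤
        ((L v (s v a)).filter (fun c => τ c = pal J t a)).card + B2 := by omega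
      exact_mod_cast this
    linarith
  obtain ⟨col, hcol1, hcol2, hcol3, hcol4⟩ := pickAll T M r s
    (fun v a => (L v (s v a)).filter (fun c => τ c = pal J t a))
    (fun v => (nb G v).filter (fun w => ∃ j < J, At (σ v) (σ w) j ∧
      (cl (L0 v w) τ j : ℝ) < thr v j - θ))
    (fun v w a => At (σ v) (σ w) (pal J t a)) (fun v w => L0 v w) c hc0 hc1 t n
    (by exact_mod_cast (by omega : 1 ≤ n)) hs2 hs3
    (fun v _ => by
      have : ((nb G v).filter (fun w => ∃ j < J, At (σ v) (σ w) j ∧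
          (cl (L0 v w) τ j : ℝ) < thr v j - θ)).card ≤ n := by
        refine (card_le_univ _).trans ?_
        rw [Fintype.card_fin]
      exact_mod_cast this) n4
    (fun v _ w hw => by
      obtain ⟨_, j, hj, hAt, _⟩ := mem_filter.1 hw
      have e1' : (univ.filter (fun a : Fin M => At (σ v) (σ w) (pal J t a))) =
          univ.filter (fun a : Fin M => pal J t a = ⟨j, hj⟩) := by
        ext a
        simp only [mem_filter, mem_univ, true_and]
        constructor
        · intro h
          exact Fin.ext (At_unique h hAt (pal J t a).2.le hj.le)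
        · intro h
          rw [h]
          exact hAt
      rw [e1']
      exact pal_card J t ⟨j, hj⟩)
    (fun v hv a => lt_of_lt_of_le (n2 (pal J t a) (pal J t a).2)
      (mul_le_mul_of_nonneg_left (hAcard v hv a) hc0.le))
    (fun v hv w hw a ha => by
      obtain ⟨hwG, j, hj, hAt, hlt⟩ := mem_filter.1 hw
      rw [mem_nb] at hwG
      have hjp : (pal J t a : ℕ) = j := At_unique ha hAt (pal J t a).2.le hj.le
      have e1' := hpair v hv w (s v a) hwG (hs v hv a).1 j hj hlt (by
        have := (hs v hv a).2.2.2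
        rw [hjp] at this
        exact this)
      have e2 : ((L v (s v a)).filter (fun c => τ c = pal J t a)).card ≤ D' := by
        refine le_trans (card_le_card ?_) (hcard v (s v a) (hs v hv a).1)
        exact (filter_subset _ _).trans (hLL v (s v a) (hs v hv a).1)
      have e3 : ((L0 v (s v a) \ L0 v w).filter (fun c => τ c = j)).card ≤
          ((L v (s v a)).filter (fun c => τ c = pal J t a) \ L0 v w).card +
            (L0 v (s v a) \ L v (s v a)).card := by
        refine le_trans (card_le_card ?_) (card_union_le _ _)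
        intro x hx
        rw [mem_filter, mem_sdiff] at hx
        rw [mem_union, mem_sdiff, mem_filter, mem_sdiff, hjp]
        by_cases h : x ∈ L v (s v a)
        · exact Or.inl ⟨⟨h, hx.2⟩, hx.1.2⟩
        · exact Or.inr ⟨hx.1.1, h⟩
      have e4 := hLL' v (s v a) (hs v hv a).1
      have e5 : (((L0 v (s v a) \ L0 v w).filter (fun c => τ c = j)).card : ℝ) ≤
          ((L v (s v a)).filter (fun c => τ c = pal J t a) \ L0 v w).card + B2 := by
        have : ((L0 v (s v a) \ L0 v w).filter (fun c => τ c = j)).card ≤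
          ((L v (s v a)).filter (fun c => τ c = pal J t a) \ L0 v w).card + B2 := by omega
        exact_mod_cast this
      have e6 : (((L v (s v a)).filter (fun c => τ c = pal J t a)).card : ℝ) ≤ D' := by
        exact_mod_cast e2
      have e7 : 2 * c * (((L v (s v a)).filter (fun c => τ c = pal J t a)).card : ℝ) ≤
          2 * c * D' := mul_le_mul_of_nonneg_left e6 (by positivity)
      linarith)
  have hcol2' : ∀ v ∈ T, ∀ a, col v a ∈ L v (s v a) ∧ τ (col v a) = pal J t a := by
    intro v hv a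
    exact mem_filter.1 (hcol2 v hv a)
  -- the graph of the demanded edges
  set g : Fin n → Fin n → ℕ := fun v w => if h : ∃ a, s v a = w then col v h.choose else 0 with hg
  have hgs : ∀ v ∈ T, ∀ a, g v (s v a) = col v a := by
    intro v hv a
    have h : ∃ a', s v a' = s v a := ⟨a, rfl⟩
    simp only [hg, dif_pos h]
    rw [hs2 v hv h.choose_spec]
  set P : SimpleGraph (Fin n) :=
    { Adj := fun x y => (x ∈ T ∧ ∃ a, s x a = y) ∨ (y ∈ T ∧ ∃ a, s y a = x)
      symm := ⟨fun x y h => h.symm⟩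
      loopless := ⟨fun x h => by
        rcases h with ⟨h1, a, ha⟩ | ⟨h1, a, ha⟩
        · exact (hs x h1 a).2.1 (by rw [ha]; exact h1)
        · exact (hs x h1 a).2.1 (by rw [ha]; exact h1)⟩ } with hP
  have hPT : ∀ v ∈ T, ∀ w, P.Adj v w ↔ ∃ a, s v a = w := by
    intro v hv w
    constructor
    · rintro (⟨_, h⟩ | ⟨hw, a, ha⟩)
      · exact h
      · exact absurd hv (ha ▸ (hs w hw a).2.1)
    · intro h
      exact Or.inl ⟨hv, h⟩
  have hPN : ∀ v, v ∉ T → ∀ w, P.Adj v w ↔ w ∈ T ∧ ∃ a, s w a = v := by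
    intro v hv w
    constructor
    · rintro (⟨h, _⟩ | h)
      · exact absurd h hv
      · exact h
    · intro h
      exact Or.inr h
  set f₁ : Fin n → Fin n → ℕ := fun x y => if x ∈ T then g x y else g y x with hf₁
  have hnbT : ∀ v ∈ T, nb P v = univ.image (s v) := by
    intro v hv
    ext w
    rw [mem_nb, hPT v hv w, mem_image]
    simp
  have himT : ∀ v ∈ T, (nb P v).image (f₁ v) = univ.image (col v) := by
    intro v hv
    rw [hnbT v hv, image_image]
    apply image_congr
    intro a _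
    simp only [Function.comp, hf₁, if_pos hv]
    exact hgs v hv a
  have hboth : ∀ x y, P.Adj x y → (x ∈ T ∧ y ∉ T) ∨ (x ∉ T ∧ y ∈ T) := by
    intro x y h
    by_cases hx : x ∈ T
    · obtain ⟨a, ha⟩ := (hPT x hx y).1 h
      exact Or.inl ⟨hx, ha ▸ (hs x hx a).2.1⟩
    · exact Or.inr ⟨hx, ((hPN x hx y).1 h).1⟩
  have hdegall : ∀ v ∈ T, ∀ j < J, (dg (LvG (G \ P) σ j) v : ℝ) ≤ thr v j - t - 2 * θ := by
    intro v hv j hj
    have hdeg : dg (LvG (G \ P) σ j) v + (univ.filter (fun a => lev v a = ⟨j, hj⟩)).card ≤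
        dgL G σ j v := by
      rw [dg_LvG]
      have e1' : ((univ.filter (fun a => lev v a = ⟨j, hj⟩)).image (s v)).card =
          (univ.filter (fun a => lev v a = ⟨j, hj⟩)).card :=
        card_image_of_injective _ (hs2 v hv)
      rw [← e1', ← card_union_of_disjoint]
      · unfold dgL
        apply card_le_card
        intro x hx
        rw [mem_union, mem_filter, mem_image, mem_nb, SimpleGraph.sdiff_adj] at hx
        rw [mem_filter, mem_nb]
        rcases hx with hx | ⟨a, ha, rfl⟩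
        · exact ⟨hx.1.1, hx.2⟩
        · have h2 := hs v hv a
          have h3 := (mem_filter.1 ha).2
          refine ⟨h2.1, ?_⟩
          have h4 := h2.2.2.1
          rw [h3] at h4
          exact h4
      · rw [disjoint_left]
        intro x hx1 hx2
        rw [mem_filter, mem_nb, SimpleGraph.sdiff_adj] at hx1
        obtain ⟨a, _, ha⟩ := mem_image.1 hx2
        exact hx1.1.2 ((hPT v hv x).2 ⟨a, ha⟩)
    have hdeg' : (dg (LvG (G \ P) σ j) v : ℝ) +
        ((univ.filter (fun a => lev v a = ⟨j, hj⟩)).card : ℝ) ≤ dgL G σ j v := by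
      exact_mod_cast hdeg
    have hlv := hlev v hv ⟨j, hj⟩
    simp only at hlv
    linarith
  refine ⟨P, f₁, ?_, ?_, ?_, ?_, ?_, ?_, ?_, hdegall, ?_⟩
  · intro x y h
    rcases h with ⟨h1, a, ha⟩ | ⟨h1, a, ha⟩
    · exact ha ▸ (hs x h1 a).1
    · exact (ha ▸ (hs y h1 a).1 : G.Adj y x).symm
  · intro x y h
    simp only [hf₁]
    rcases hboth x y h with ⟨h1, h2⟩ | ⟨h1, h2⟩
    · rw [if_pos h1, if_neg h2]
    · rw [if_neg h1, if_pos h2]
  · intro x y h
    simp only [hf₁]
    rcases hboth x y h with ⟨h1, h2⟩ | ⟨h1, h2⟩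
    · rw [if_pos h1]
      obtain ⟨a, ha⟩ := (hPT x h1 y).1 h
      rw [← ha, hgs x h1 a]
      exact (hcol2' x h1 a).1
    · rw [if_neg h1]
      obtain ⟨_, a, ha⟩ := (hPN x h1 y).1 h
      rw [hsym x y, ← ha, hgs y h2 a]
      exact (hcol2' y h2 a).1
  · intro x y w hxy hxw hyw
    simp only [hf₁]
    by_cases h1 : x ∈ T
    · rw [if_pos h1, if_pos h1]
      obtain ⟨a, ha⟩ := (hPT x h1 y).1 hxy
      obtain ⟨a', ha'⟩ := (hPT x h1 w).1 hxw
      rw [← ha, ← ha', hgs x h1 a, hgs x h1 a']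
      intro heq
      apply hyw
      rw [← ha, ← ha', hcol1 x h1 heq]
    · rw [if_neg h1, if_neg h1]
      obtain ⟨hy, a, ha⟩ := (hPN x h1 y).1 hxy
      obtain ⟨hw, a', ha'⟩ := (hPN x h1 w).1 hxw
      have e1' : g y x = col y a := by rw [← ha]; exact hgs y hy a
      have e2 : g w x = col w a' := by rw [← ha']; exact hgs w hw a'
      rw [e1', e2]
      exact hcol3 y hy w hw hyw a a' (ha.trans ha'.symm)
  · intro x y h
    simp only [hf₁]
    rcases hboth x y h with ⟨h1, h2⟩ | ⟨h1, h2⟩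
    · rw [if_pos h1]
      obtain ⟨a, ha⟩ := (hPT x h1 y).1 h
      rw [← ha, hgs x h1 a, (hcol2' x h1 a).2]
      exact (pal J t a).2
    · rw [if_neg h1]
      obtain ⟨_, a, ha⟩ := (hPN x h1 y).1 h
      rw [← ha, hgs y h2 a, (hcol2' y h2 a).2]
      exact (pal J t a).2
  · intro v hv
    refine le_trans (card_le_card ?_) (hs3 v)
    intro w hw
    rw [mem_nb, hPN v hv w] at hw
    exact mem_filter.2 hw
  · intro v hv
    rw [hnbT v hv]
    refine card_image_le.trans ?_
    rw [card_univ, Fintype.card_fin]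
  · intro v hv w hw hvw j hj hAt hnP
    have hdeg2 := hdegall v hv j hj
    have hcount : (((nb P v).image (f₁ v)).filter (fun c => c ∈ L0 v w ∧ τ c = j)).card ≤
        (univ.filter (fun a : Fin M => At (σ v) (σ w) (pal J t a) ∧ col v a ∈ L0 v w)).card := by
      rw [himT v hv]
      refine le_trans (card_le_card ?_) (card_image_le (f := col v))
      intro x hx
      rw [mem_filter, mem_image] at hx
      obtain ⟨⟨a, _, rfl⟩, hx1, hx2⟩ := hx
      rw [mem_image]
      refine ⟨a, mem_filter.2 ⟨mem_univ _, ?_, hx1⟩, rfl⟩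
      rw [(hcol2' v hv a).2] at hx2
      rw [hx2]
      exact hAt
    have hcount' : ((((nb P v).image (f₁ v)).filter (fun c => c ∈ L0 v w ∧ τ c = j)).card : ℝ) ≤
        (univ.filter (fun a : Fin M => At (σ v) (σ w) (pal J t a) ∧ col v a ∈ L0 v w)).card := by
      exact_mod_cast hcount
    have hthr := hthr1 v hv j hj
    have hB0 : (0 : ℝ) ≤ B2 := Nat.cast_nonneg _
    have hr0 : (0 : ℝ) ≤ r := Nat.cast_nonneg _
    rcases le_or_gt (thr v j - θ) (cl (L0 v w) τ j) with hcase | hcase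
    · have e1' : (univ.filter (fun a : Fin M => At (σ v) (σ w) (pal J t a) ∧
          col v a ∈ L0 v w)).card ≤ t := by
        have e2 := pal_card J t ⟨j, hj⟩
        refine le_trans (card_le_card ?_) e2.le
        intro a ha
        rw [mem_filter] at ha ⊢
        exact ⟨mem_univ _, Fin.ext (At_unique ha.2.1 hAt (pal J t a).2.le hj.le)⟩
      have e2 : ((univ.filter (fun a : Fin M => At (σ v) (σ w) (pal J t a) ∧
          col v a ∈ L0 v w)).card : ℝ) ≤ t := by exact_mod_cast e1'
      linarith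
    · have e1' := hcol4 v hv w (mem_filter.2 ⟨(mem_nb G v w).2 hvw, j, hj, hAt, hcase⟩)
      have e2 := hsup v w hvw j hj
      linarith

end Pool.Agent.K4H76.LD
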