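import Pool.Agent.K4H76.LD.Asm

/-!
# The colouring from a good splitting
-/

set_option autoImplicit false
set_option linter.unusedSectionVars false

namespace Pool.Agent.K4H76.LD

open Finset Pool.Agent.H162R2.Sparse Pool.Agent.H162R2.AG Pool.Agent.K4H76.LR

open Classical in
theorem assemble : ∃ C : ℝ, 1 ≤ C ∧ ∀ (n : ℕ), 2 ≤ n → ∀ (G : SimpleGraph (Fin n))
    (J t r z b d D' B2 : ℕ)
    (σ : Fin n → Fin J → Bool) (τ : ℕ → ℕ) (L0 L : Fin n → Fin n → Finset ℕ)
    (T : Finset (Fin n)) (q : ℕ → ℝ) (thr : Fin n → ℕ → ℝ) (θ Y e1 c g3 φ f1 y : ℝ),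
    1 ≤ J → 0 < r → 0 < z → b ≤ z * r → 0 ≤ θ → 0 ≤ Y →
    0 ≤ φ → 0 < c → c ≤ 1 → 0 ≤ f1 → 0 ≤ y →
    (∀ v w, L v w = L w v) → (∀ v w, L0 v w = L0 w v) →
    (∀ v w, G.Adj v w → L v w ⊆ L0 v w) →
    (∀ v w, G.Adj v w → (L0 v w \ L v w).card ≤ B2) →
    (∀ v w, G.Adj v w → (L0 v w).card ≤ D') →
    (∀ v, dg G v ≤ d) →
    (∀ j < J, (d : ℝ) / 2 ^ (j + 1) + e1 ≤ q j * D') →
    (∀ j < J, q j * D' + Y ≤ (d : ℝ) / 2 ^ (j + 1) + t) →
    (∀ v w, G.Adj v w → ∀ j < J, q j * D' - Y ≤ cl (L0 v w) τ j) →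
    (∀ v w, G.Adj v w → q J * D' - θ ≤ cl (L0 v w) τ J) →
    (∀ v ∈ T, ∀ j < J, (dgL G σ j v : ℝ) ≤ d / 2 ^ (j + 1) + Y) →
    (∀ v, v ∉ T → ∀ j < J, (dgL G σ j v : ℝ) ≤ d / 2 ^ (j + 1) + θ) →
    (∀ v, (dgL G σ J v : ℝ) ≤ d / 2 ^ J + θ) →
    (∀ v ∈ T, (dg G v : ℝ) / 2 ^ J - θ ≤ dgL G σ J v) →
    (∀ v, v ∉ T → (((nb G v).filter (fun w => ∃ j < J,
      (cl (L0 v w) τ j : ℝ) < q j * D' - θ)).card : ℝ) ≤ f1) →
    (∀ v, ((nb G v).filter (fun w => w ∈ T)).card ≤ b) →
    (∀ v ∈ T, ∀ j < J, q j * D' - Y ≤ thr v j ∧ thr v j ≤ q j * D' + Y) →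
    (∀ v ∈ T, ∑ j ∈ range J, q j * D' - θ ≤ ∑ j ∈ range J, thr v j) →
    (∀ v ∈ T, ∀ i < J, ∀ j < J, J * t * z ≤ ((nb G v).filter (fun w => w ∉ T ∧
      At (σ v) (σ w) i ∧ thr v j ≤ cl (L0 v w) τ j)).card) →
    (∀ v ∈ T, ∀ w w', G.Adj v w → G.Adj v w' → ∀ j < J,
      (cl (L0 v w) τ j : ℝ) < thr v j - θ → thr v j ≤ cl (L0 v w') τ j →
      g3 ≤ (((L0 v w' \ L0 v w).filter (fun c => τ c = j)).card : ℝ)) →
    (∀ j < J, ((J * t : ℕ) : ℝ) + r < c * (q j * D' - Y - B2)) →
    2 * c * D' ≤ g3 - B2 →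
    12 * Real.log n ≤ c ^ 2 * t →
    2 * Y ≤ c / 4 * t →
    B2 + r + φ ≤ θ →
    4 * θ + 1 ≤ e1 →
    J * (2 * Y + 1) ≤ (t : ℝ) →
    Y + B2 + 2 * (J * t + r) + φ + θ + 1 ≤ y → y ≤ d / 2 ^ J → (d : ℝ) / 2 + θ + 1 ≤ n →
    1 ≤ d →
    C * ((f1 + b) * (y + Real.log n) * 2 ^ J / d + Real.log n) ≤ φ →
    (d : ℝ) / 2 ^ J + θ + 1 + C * Real.sqrt ((d / 2 ^ J + θ + 1) * Real.log n) +
      C * Real.log n ≤ q J * D' - θ - B2 → LC G L := by
  obtain ⟨CG, hCG, hGV⟩ := GV
  obtain ⟨K, hK, hS⟩ := tS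
  refine ⟨max CG K, le_trans hCG (le_max_left _ _), ?_⟩
  intro n hn G J t r z b d D' B2 σ τ L0 L T q thr θ Y e1 c g3 φ f1 y hJ hr hz hbz hθ hY hφ hc0 hc1
    hf1 hy hsym hsym0 hLL hLL' hcard hd hq1 hq2 hsup hrest hdegT hdegN hdegJ hdegJ' hbad hTb hthr1
    hthr2 hcand hpair n2 n3 n4 n5 nE n6 n7 ny ny2 n8 hd1 n9 n10
  obtain ⟨P, f₁, p1, p2, p3, p4, p5, p6, p7, p8, p9⟩ := repair n hn G J t r z b d D' B2 σ τ L0 L T
    q thr θ Y e1 c g3 φ hJ hr hz hbz hθ hY hφ hc0 hc1 hsym hLL hLL' hcard hd hq1 hsup hdegT hdegJ'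
    hTb hthr1 hthr2 hcand hpair n2 n3 n4 n5 nE n6 n7
  have hlog : 0 ≤ Real.log n := Real.log_natCast_nonneg n
  have hd0 : (0 : ℝ) < d := by exact_mod_cast hd1
  have hB0 : (0 : ℝ) ≤ B2 := Nat.cast_nonneg _
  have hr0 : (0 : ℝ) ≤ r := Nat.cast_nonneg _
  have ht0 : (0 : ℝ) ≤ t := Nat.cast_nonneg _
  have hJ0 : (0 : ℝ) ≤ J := Nat.cast_nonneg _
  apply comb_sub G P L f₁ p2 p3 p4
  set L'' : Fin n → Fin n → Finset ℕ := fun a b =>
    L a b \ ((nb P a).image (f₁ a) ∪ (nb P b).image (f₁ b)) with hL''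
  -- sizes of the remaining lists
  have hsize : ∀ a b, G.Adj a b → ∀ j, cl (L0 a b) τ j ≤
      ((L'' a b).filter (fun c => τ c = j)).card + B2 +
      (((nb P a).image (f₁ a)).filter (fun c => c ∈ L0 a b ∧ τ c = j)).card +
      (((nb P b).image (f₁ b)).filter (fun c => c ∈ L0 a b ∧ τ c = j)).card := by
    intro a b hab j
    have e1' : (L0 a b).filter (fun c => τ c = j) ⊆ (((L'' a b).filter (fun c => τ c = j)) ∪
        (L0 a b \ L a b)) ∪ ((((nb P a).image (f₁ a)).filter (fun c => c ∈ L0 a b ∧ τ c = j)) ∪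
        (((nb P b).image (f₁ b)).filter (fun c => c ∈ L0 a b ∧ τ c = j))) := by
      intro x hx
      obtain ⟨hx1, hx2⟩ := mem_filter.1 hx
      rw [mem_union, mem_union, mem_union, mem_filter, mem_filter, mem_filter]
      by_cases h1 : x ∈ L a b
      · by_cases h2 : x ∈ (nb P a).image (f₁ a)
        · exact Or.inr (Or.inl ⟨h2, hx1, hx2⟩)
        · by_cases h3 : x ∈ (nb P b).image (f₁ b)
          · exact Or.inr (Or.inr ⟨h3, hx1, hx2⟩)
          · refine Or.inl (Or.inl ⟨?_, hx2⟩)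
            refine mem_sdiff.2 ⟨h1, ?_⟩
            rw [mem_union, not_or]
            exact ⟨h2, h3⟩
      · exact Or.inl (Or.inr (mem_sdiff.2 ⟨hx1, h1⟩))
    have e2 := (card_le_card e1').trans (card_union_le _ _)
    have e3 := card_union_le ((L'' a b).filter (fun c => τ c = j)) (L0 a b \ L a b)
    have e4 := card_union_le (((nb P a).image (f₁ a)).filter (fun c => c ∈ L0 a b ∧ τ c = j))
      (((nb P b).image (f₁ b)).filter (fun c => c ∈ L0 a b ∧ τ c = j))
    have e5 := hLL' a b hab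
    unfold cl
    omega
  have himg : ∀ a b j, (((nb P a).image (f₁ a)).filter (fun c => c ∈ L0 a b ∧ τ c = j)).card ≤
      (nb P a).card := by
    intro a b j
    exact (card_le_card (filter_subset _ _)).trans card_image_le
  have hall : ∀ v, (nb P v).card ≤ J * t + r := by
    intro v
    by_cases hv : v ∈ T
    · exact (p7 v hv).trans (Nat.le_add_right _ _)
    · exact (p6 v hv).trans (Nat.le_add_left _ _)
  have h2J : (0 : ℝ) < 2 ^ J := by positivity
  apply comb_levels (G \ P) σ τ L''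
  intro j hj
  have hadj : ∀ a b, (LvG (G \ P) σ j).Adj a b → G.Adj a b ∧ ¬ P.Adj a b ∧ At (σ a) (σ b) j := by
    intro a b h
    have h1 := (SimpleGraph.sdiff_adj _ _ _ _).1 h.1
    exact ⟨h1.1, h1.2, h.2⟩
  have hdgL : ∀ v, dg (LvG (G \ P) σ j) v ≤ dgL G σ j v := by
    intro v
    unfold dgL dg
    apply card_le_card
    intro w hw
    rw [mem_nb] at hw
    have h1 := hadj v w hw
    rw [mem_filter, mem_nb]
    exact ⟨h1.1, h1.2.2⟩
  rcases lt_or_eq_of_le hj with h | h
  · -- bipartite level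
    have h2j : (2 : ℝ) ^ (j + 1) ≤ 2 ^ J := pow_le_pow_right₀ (by norm_num) h
    have hdj : (d : ℝ) / 2 ^ J ≤ d / 2 ^ (j + 1) :=
      div_le_div_of_nonneg_left hd0.le (by positivity) h2j
    set Dj : ℕ := ⌈(d : ℝ) / 2 ^ (j + 1) + θ⌉₊ with hDj
    have hDj1 : (d : ℝ) / 2 ^ (j + 1) + θ ≤ Dj := Nat.le_ceil _
    have hDj2 : (Dj : ℝ) < d / 2 ^ (j + 1) + θ + 1 := Nat.ceil_lt_add_one (by positivity)
    have hDjpos : (0 : ℝ) < Dj := lt_of_lt_of_le (by positivity) hDj1
    have hDj0 : 1 ≤ Dj := by exact_mod_cast hDjpos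
    have hDjn : Dj ≤ n := by
      have e1' : (d : ℝ) / 2 ^ (j + 1) ≤ d / 2 := by
        apply div_le_div_of_nonneg_left hd0.le (by norm_num)
        calc (2 : ℝ) = 2 ^ 1 := by norm_num
          _ ≤ 2 ^ (j + 1) := pow_le_pow_right₀ (by norm_num) (by omega)
      have : (Dj : ℝ) ≤ n := by linarith
      exact_mod_cast this
    apply hGV n hn Dj hDj0 hDjn (LvG (G \ P) σ j) (fun v => σ v ⟨j, h⟩)
      (fun a b hab => hab.2.2 h) ?_ _ ?_
      (fun v w => w ∈ T ∨ (v ∉ T ∧ ∃ j < J, (cl (L0 v w) τ j : ℝ) < q j * D' - θ))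
      (f1 + b) y φ hy ?_ ?_ ?_ ?_ ?_ ?_
    · intro v
      have e1' : (dg (LvG (G \ P) σ j) v : ℝ) ≤ Dj := by
        by_cases hv : v ∈ T
        · have e2 := p8 v hv j h
          have e3 := (hthr1 v hv j h).2
          have e4 := hq2 j h
          linarith
        · have e2 := hdegN v hv j h
          have e3 : (dg (LvG (G \ P) σ j) v : ℝ) ≤ dgL G σ j v := by exact_mod_cast hdgL v
          linarith
      exact_mod_cast e1'
    · intro a b
      simp only [hL'', hsym a b, union_comm]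
    · linarith
    · intro v
      have e0 : cnt (fun w => (LvG (G \ P) σ j).Adj v w ∧ (w ∈ T ∨ (v ∉ T ∧
            ∃ j < J, (cl (L0 v w) τ j : ℝ) < q j * D' - θ))) =
          ((univ.filter (fun w => (LvG (G \ P) σ j).Adj v w ∧ (w ∈ T ∨ (v ∉ T ∧
            ∃ j < J, (cl (L0 v w) τ j : ℝ) < q j * D' - θ)))).card : ℝ) := cnt_eq_card _
      show cnt (fun w => (LvG (G \ P) σ j).Adj v w ∧ (w ∈ T ∨ (v ∉ T ∧
            ∃ j < J, (cl (L0 v w) τ j : ℝ) < q j * D' - θ))) ≤ f1 + b
      rw [e0]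
      by_cases hv : v ∈ T
      · have e1' : (univ.filter (fun w => (LvG (G \ P) σ j).Adj v w ∧ (w ∈ T ∨ (v ∉ T ∧
            ∃ j < J, (cl (L0 v w) τ j : ℝ) < q j * D' - θ)))).card ≤ b := by
          refine le_trans (card_le_card ?_) (hTb v)
          intro w hw
          rw [mem_filter] at hw
          rw [mem_filter, mem_nb]
          refine ⟨(hadj v w hw.2.1).1, ?_⟩
          rcases hw.2.2 with h1 | h1
          · exact h1
          · exact absurd hv h1.1
        have e2 : ((univ.filter (fun w => (LvG (G \ P) σ j).Adj v w ∧ (w ∈ T ∨ (v ∉ T ∧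
            ∃ j < J, (cl (L0 v w) τ j : ℝ) < q j * D' - θ)))).card : ℝ) ≤ b := by
          exact_mod_cast e1'
        linarith
      · have e1' : (univ.filter (fun w => (LvG (G \ P) σ j).Adj v w ∧ (w ∈ T ∨ (v ∉ T ∧
            ∃ j < J, (cl (L0 v w) τ j : ℝ) < q j * D' - θ)))).card ≤
            ((nb G v).filter (fun w => ∃ j < J, (cl (L0 v w) τ j : ℝ) < q j * D' - θ)).card +
            ((nb G v).filter (fun w => w ∈ T)).card := by
          refine le_trans (card_le_card ?_) (card_union_le _ _)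
          intro w hw
          rw [mem_filter] at hw
          rw [mem_union, mem_filter, mem_filter, mem_nb]
          have h1 := (hadj v w hw.2.1).1
          rcases hw.2.2 with h2 | h2
          · exact Or.inr ⟨h1, h2⟩
          · exact Or.inl ⟨h1, h2.2⟩
        have e2 := hbad v hv
        have e3 := hTb v
        have e4 : ((univ.filter (fun w => (LvG (G \ P) σ j).Adj v w ∧ (w ∈ T ∨ (v ∉ T ∧
            ∃ j < J, (cl (L0 v w) τ j : ℝ) < q j * D' - θ)))).card : ℝ) ≤
            ((nb G v).filter (fun w => ∃ j < J, (cl (L0 v w) τ j : ℝ) < q j * D' - θ)).card +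
            b := by
          have := e1'.trans (Nat.add_le_add_left e3 _)
          exact_mod_cast this
        linarith
    · refine le_trans ?_ n9
      have hbr0 : 0 ≤ (f1 + b) * (y + Real.log n) := by positivity
      have e1' : (f1 + b) * (y + Real.log n) / Dj ≤
          (f1 + b) * (y + Real.log n) * 2 ^ J / d := by
        rw [div_le_div_iff₀ hDjpos hd0]
        have e2 : (d : ℝ) ≤ Dj * 2 ^ J := by
          have : (d : ℝ) / 2 ^ J ≤ Dj := by linarith
          rwa [div_le_iff₀ h2J] at this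
        calc (f1 + b) * (y + Real.log n) * d ≤ (f1 + b) * (y + Real.log n) * (Dj * 2 ^ J) :=
              mul_le_mul_of_nonneg_left e2 hbr0
          _ = _ := by ring
      have e3 : 0 ≤ (f1 + b) * (y + Real.log n) / Dj := by positivity
      apply mul_le_mul (le_max_left _ _) (by linarith) (by linarith)
      exact le_trans (by linarith) (le_max_left CG K)
    · intro a b' hab hF1 hF2
      have hGab := (hadj a b' hab).1
      simp only [not_or, not_and, not_exists, not_lt] at hF1 hF2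
      have haT := hF2.1
      have hbT := hF1.1
      have e1' := hF1.2 haT j h
      have e2 := hsize a b' hGab j
      have e3 := (himg a b' j).trans (p6 a haT)
      have e4 : (((nb P b').image (f₁ b')).filter (fun c => c ∈ L0 a b' ∧ τ c = j)).card ≤ r :=
        ((card_le_card (filter_subset _ _)).trans card_image_le).trans (p6 b' hbT)
      have e5 : (cl (L0 a b') τ j : ℝ) ≤ ((L'' a b').filter (fun c => τ c = j)).card + B2 + r + r := by
        have : cl (L0 a b') τ j ≤ ((L'' a b').filter (fun c => τ c = j)).card + B2 + r + r := by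
          omega
        exact_mod_cast this
      have e6 := hq1 j h
      linarith
    · intro a b' hab
      have hGab := (hadj a b' hab).1
      have e1' := hsup a b' hGab j h
      have e2 := hsize a b' hGab j
      have e3 := (himg a b' j).trans (hall a)
      have e4 : (((nb P b').image (f₁ b')).filter (fun c => c ∈ L0 a b' ∧ τ c = j)).card ≤
          J * t + r :=
        ((card_le_card (filter_subset _ _)).trans card_image_le).trans (hall b')
      have e5 : (cl (L0 a b') τ j : ℝ) ≤ ((L'' a b').filter (fun c => τ c = j)).card + B2 +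
          (J * t + r) + (J * t + r) := by
        have : cl (L0 a b') τ j ≤ ((L'' a b').filter (fun c => τ c = j)).card + B2 +
          (J * t + r) + (J * t + r) := by
          omega
        exact_mod_cast this
      have e6 := hq1 j h
      linarith
    · intro a b' hab hF1 hF2
      have hGab := (hadj a b' hab).1
      simp only [not_or, not_and, not_exists, not_lt] at hF2
      have haT := hF2.1
      have hbT : b' ∈ T := by
        by_contra hbT
        rcases hF1 with h1 | ⟨_, i, hi, h1⟩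
        · exact hbT h1
        · have h2 := hF2.2 hbT i hi
          rw [hsym0 b' a] at h2
          linarith
      have e1' := p9 b' hbT a haT hGab.symm j h (hadj a b' hab).2.2.symm
        (fun h' => (hadj a b' hab).2.1 h'.symm)
      have e2 := hsize a b' hGab j
      have e3 := (himg a b' j).trans (p6 a haT)
      rw [hsym0 b' a] at e1'
      have e5 : (cl (L0 a b') τ j : ℝ) ≤ ((L'' a b').filter (fun c => τ c = j)).card + B2 + r +
          (((nb P b').image (f₁ b')).filter (fun c => c ∈ L0 a b' ∧ τ c = j)).card := by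
        have : cl (L0 a b') τ j ≤ ((L'' a b').filter (fun c => τ c = j)).card + B2 + r +
          (((nb P b').image (f₁ b')).filter (fun c => c ∈ L0 a b' ∧ τ c = j)).card := by
          omega
        exact_mod_cast this
      linarith
  · -- the rest
    subst h
    set Dj : ℕ := ⌈(d : ℝ) / 2 ^ j + θ⌉₊ with hDj
    have hDj1 : (d : ℝ) / 2 ^ j + θ ≤ Dj := Nat.le_ceil _
    have hDj2 : (Dj : ℝ) < d / 2 ^ j + θ + 1 := Nat.ceil_lt_add_one (by positivity)
    apply hS n hn Dj (LvG (G \ P) σ j) ?_ _ ?_ (fun _ _ => False) (fun _ _ h => h) ?_ ?_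
      (fun _ _ _ h => h.elim)
    · intro v
      have e1' : (dg (LvG (G \ P) σ j) v : ℝ) ≤ Dj := by
        have e2 := hdegJ v
        have e3 : (dg (LvG (G \ P) σ j) v : ℝ) ≤ dgL G σ j v := by exact_mod_cast hdgL v
        linarith
      exact_mod_cast e1'
    · intro a b
      simp only [hL'', hsym a b, union_comm]
    · intro v
      unfold cnt
      simp
    · intro a b' hab _
      have hGab := (hadj a b' hab).1
      have e1' := hrest a b' hGab
      have e2 := hsize a b' hGab j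
      have hem : ∀ x, ((nb P x).image (f₁ x)).filter (fun c => c ∈ L0 a b' ∧ τ c = j) = ∅ := by
        intro x
        rw [filter_eq_empty_iff]
        intro c hc h2
        obtain ⟨w, hw, rfl⟩ := mem_image.1 hc
        have h3 := p5 x w ((mem_nb P x w).1 hw)
        omega
      rw [hem a, hem b', card_empty] at e2
      have e5 : (cl (L0 a b') τ j : ℝ) ≤ ((L'' a b').filter (fun c => τ c = j)).card + B2 := by
        exact_mod_cast e2
      have e6 : K * Real.sqrt (Dj * Real.log n) ≤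
          max CG K * Real.sqrt ((d / 2 ^ j + θ + 1) * Real.log n) := by
        apply mul_le_mul (le_max_right _ _) _ (Real.sqrt_nonneg _)
          (le_trans (by linarith) (le_max_left CG K))
        apply Real.sqrt_le_sqrt
        exact mul_le_mul_of_nonneg_right hDj2.le hlog
      have e7 : K * Real.log n ≤ max CG K * Real.log n :=
        mul_le_mul_of_nonneg_right (le_max_right _ _) hlog
      linarith

end Pool.Agent.K4H76.LD
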