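import Pool.Agent.K4H76.LR.Gnp2

/-!
# Binomial tails
-/

set_option autoImplicit false
set_option linter.unusedSectionVars false

namespace Pool.Agent.K4H76.LD

open Finset Pool.Agent.H162R2.Sparse Pool.Agent.K4H76.LR

section
variable {ι : Type} [Fintype ι] [DecidableEq ι]

/-- the binomial probabilities -/
noncomputable def bn (p : ℝ) (m k : ℕ) : ℝ := (m.choose k : ℝ) * (p ^ k * (1 - p) ^ (m - k))

theorem bn_nonneg (p : ℝ) (h0 : 0 ≤ p) (h1 : p ≤ 1) (m k : ℕ) : 0 ≤ bn p m k := by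
  unfold bn
  have : 0 ≤ 1 - p := by linarith
  positivity

theorem Pr_cn_eq (p : ℝ) (h0 : 0 ≤ p) (h1 : p ≤ 1) (F : Finset ι) (k : ℕ) :
    Pr (wB ι p) (fun ω => cn F ω = k) = bn p F.card k := by
  classical
  have hw := wB_wt (ι := ι) p h0 h1
  have h2 : ∀ K ∈ F.powersetCard k,
      Pr (wB ι p) (fun ω => F.filter (fun i => ω i = true) = K) =
        p ^ k * (1 - p) ^ (F.card - k) := by
    intro K hK
    obtain ⟨hK1, hK2⟩ := mem_powersetCard.1 hK
    have h3 : (fun ω : ι → Bool => F.filter (fun i => ω i = true) = K) =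
        fun ω => ∀ i ∈ F, (fun (i : ι) (b : Bool) => (b = true ↔ i ∈ K)) i (ω i) := by
      funext ω
      apply propext
      constructor
      · intro h i hi
        rw [← h, mem_filter]
        tauto
      · intro h
        ext i
        rw [mem_filter]
        constructor
        · rintro ⟨hi, hω⟩
          exact (h i hi).1 hω
        · intro hi
          exact ⟨hK1 hi, (h i (hK1 hi)).2 hi⟩
    rw [h3, Pr_all hw F (fun (i : ι) (b : Bool) => (b = true ↔ i ∈ K))]
    have h4 : ∀ i ∈ F, P1 (wB ι p) i (fun b => (b = true ↔ i ∈ K)) =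
        if i ∈ K then p else 1 - p := by
      intro i _
      by_cases hi : i ∈ K
      · simp only [hi, if_true, iff_true]
        exact P1_wB p i
      · simp only [hi, if_false, iff_false, Bool.not_eq_true]
        exact P1_wB' p i
    rw [Finset.prod_congr rfl h4, Finset.prod_ite, Finset.prod_const, Finset.prod_const]
    have h5 : (F.filter (fun i => i ∈ K)).card = k := by
      rw [← hK2]
      congr 1
      ext i
      rw [mem_filter]
      exact ⟨fun h => h.2, fun h => ⟨hK1 h, h⟩⟩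
    have h6 : (F.filter (fun i => i ∉ K)).card = F.card - k := by
      have := card_filter_add_card_filter_not (s := F) (fun i => i ∈ K)
      omega
    rw [h5, h6]
  have h7 : Pr (wB ι p) (fun ω => cn F ω = k) =
      ∑ K ∈ F.powersetCard k, Pr (wB ι p) (fun ω => F.filter (fun i => ω i = true) = K) := by
    unfold Pr
    rw [← Ex_sum]
    congr 1
    funext ω
    have h8 : (∑ K ∈ F.powersetCard k, if F.filter (fun i => ω i = true) = K then (1 : ℝ) else 0) =
        if F.filter (fun i => ω i = true) ∈ F.powersetCard k then 1 else 0 :=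
      Finset.sum_ite_eq _ _ _
    have h9 : (if F.filter (fun i => ω i = true) ∈ F.powersetCard k then (1 : ℝ) else 0) =
        if cn F ω = k then 1 else 0 := by
      congr 1
      apply propext
      rw [mem_powersetCard]
      unfold cn
      exact ⟨fun h => h.2, fun h => ⟨filter_subset _ _, h⟩⟩
    refine Eq.trans ?_ (h9.symm.trans (h8.symm.trans ?_))
    · congr!
    · congr!
  rw [h7, Finset.sum_congr rfl h2, Finset.sum_const, card_powersetCard, nsmul_eq_mul]
  rfl

theorem Pr_Ico (p : ℝ) (F : Finset ι) (a b : ℕ) :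
    Pr (wB ι p) (fun ω => a ≤ cn F ω ∧ cn F ω < b) =
      ∑ j ∈ Ico a b, Pr (wB ι p) (fun ω => cn F ω = j) := by
  classical
  unfold Pr
  rw [← Ex_sum]
  congr 1
  funext ω
  have h8 : (∑ j ∈ Ico a b, if cn F ω = j then (1 : ℝ) else 0) =
      if cn F ω ∈ Ico a b then 1 else 0 :=
    Finset.sum_ite_eq _ _ _
  have h9 : (if cn F ω ∈ Ico a b then (1 : ℝ) else 0) =
      if a ≤ cn F ω ∧ cn F ω < b then 1 else 0 := by
    congr 1
    apply propext
    rw [mem_Ico]
  refine Eq.trans ?_ (h9.symm.trans (h8.symm.trans ?_))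
  · congr!
  · congr!

/-- the tail -/
noncomputable def Qt (p : ℝ) (m k : ℕ) : ℝ := ∑ j ∈ Ico k (m + 1), bn p m j

theorem Pr_Qt (p : ℝ) (h0 : 0 ≤ p) (h1 : p ≤ 1) (F : Finset ι) (k : ℕ) :
    Pr (wB ι p) (fun ω => k ≤ cn F ω) = Qt p F.card k := by
  classical
  have h2 : (fun ω : ι → Bool => k ≤ cn F ω) = fun ω => k ≤ cn F ω ∧ cn F ω < F.card + 1 := by
    funext ω
    apply propext
    constructor
    · intro h
      refine ⟨h, ?_⟩
      unfold cn
      have := card_filter_le F (fun i => ω i = true)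
      omega
    · exact fun h => h.1
  rw [h2, Pr_Ico]
  unfold Qt
  exact Finset.sum_congr rfl (fun j _ => Pr_cn_eq p h0 h1 F j)

theorem Qt_big (p : ℝ) (m k : ℕ) (h : m < k) : Qt p m k = 0 := by
  unfold Qt
  rw [Ico_eq_empty (by omega), Finset.sum_empty]

theorem Qt_anti (p : ℝ) (h0 : 0 ≤ p) (h1 : p ≤ 1) (m k l : ℕ) (h : k ≤ l) :
    Qt p m l ≤ Qt p m k := by
  unfold Qt
  apply Finset.sum_le_sum_of_subset_of_nonneg
  · exact Ico_subset_Ico_left h
  · intro j _ _
    exact bn_nonneg p h0 h1 m j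

theorem bn_step (p ρ : ℝ) (h0 : 0 ≤ p) (h1 : p < 1) (hρ : 0 ≤ ρ) (m N : ℕ) (hN : N ≤ m)
    (h : ρ * ((N : ℝ) * (1 - p)) ≤ ((m : ℝ) - N) * p) (j : ℕ) (hj : j < N) :
    ρ * bn p m j ≤ bn p m (j + 1) := by
  have h1' : 0 < 1 - p := by linarith
  have hjm : j < m := by omega
  have hc : ((m.choose (j + 1) : ℕ) : ℝ) * ((j : ℝ) + 1) = (m.choose j : ℝ) * ((m : ℝ) - j) := by
    have := Nat.choose_succ_right_eq m j
    have h2 : ((m.choose (j + 1) * (j + 1) : ℕ) : ℝ) = ((m.choose j * (m - j) : ℕ) : ℝ) := by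
      exact_mod_cast this
    rw [Nat.cast_mul, Nat.cast_mul, Nat.cast_sub hjm.le] at h2
    push_cast at h2
    exact h2
  have hb0 := bn_nonneg p h0 h1.le m j
  have h2 : bn p m (j + 1) * (((j : ℝ) + 1) * (1 - p)) = bn p m j * (((m : ℝ) - j) * p) := by
    unfold bn
    have e : m - j = (m - (j + 1)) + 1 := by omega
    rw [e, pow_succ (1 - p), pow_succ p]
    calc ((m.choose (j + 1) : ℕ) : ℝ) * (p ^ j * p * (1 - p) ^ (m - (j + 1))) *
          (((j : ℝ) + 1) * (1 - p)) =
          (((m.choose (j + 1) : ℕ) : ℝ) * ((j : ℝ) + 1)) *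
            (p ^ j * p * (1 - p) ^ (m - (j + 1)) * (1 - p)) := by ring
      _ = ((m.choose j : ℝ) * ((m : ℝ) - j)) *
            (p ^ j * p * (1 - p) ^ (m - (j + 1)) * (1 - p)) := by rw [hc]
      _ = _ := by ring
  have hjN : (j : ℝ) + 1 ≤ N := by exact_mod_cast hj
  have h3 : ρ * (((j : ℝ) + 1) * (1 - p)) ≤ ((m : ℝ) - j) * p := by
    calc ρ * (((j : ℝ) + 1) * (1 - p)) ≤ ρ * ((N : ℝ) * (1 - p)) :=
          mul_le_mul_of_nonneg_left (mul_le_mul_of_nonneg_right hjN h1'.le) hρ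
      _ ≤ ((m : ℝ) - N) * p := h
      _ ≤ ((m : ℝ) - j) * p := mul_le_mul_of_nonneg_right (by linarith) h0
  have h4 : ρ * bn p m j * (((j : ℝ) + 1) * (1 - p)) ≤
      bn p m (j + 1) * (((j : ℝ) + 1) * (1 - p)) := by
    rw [h2]
    calc ρ * bn p m j * (((j : ℝ) + 1) * (1 - p)) = bn p m j * (ρ * (((j : ℝ) + 1) * (1 - p))) := by
          ring
      _ ≤ bn p m j * (((m : ℝ) - j) * p) := mul_le_mul_of_nonneg_left h3 hb0
  exact le_of_mul_le_mul_right h4 (by positivity)

theorem Qt_ratio (p ρ : ℝ) (h0 : 0 ≤ p) (h1 : p < 1) (hρ : 0 ≤ ρ) (m k K s : ℕ)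
    (hN : K + s ≤ m)
    (h : ρ * (((K + s : ℕ) : ℝ) * (1 - p)) ≤ ((m : ℝ) - (K + s : ℕ)) * p) :
    ρ ^ s * (Qt p m k - Qt p m (K + 1)) ≤ Qt p m (k + s) := by
  have hb0 := bn_nonneg p h0 h1.le m
  have hstep : ∀ i ≤ s, ∀ j ≤ K, ρ ^ i * bn p m j ≤ bn p m (j + i) := by
    intro i
    induction i with
    | zero => intro _ j _; simp
    | succ i ih =>
      intro hi j hj
      have h2 := ih (by omega) j hj
      have h3 := bn_step p ρ h0 h1 hρ m (K + s) hN h (j + i) (by omega)
      calc ρ ^ (i + 1) * bn p m j = ρ * (ρ ^ i * bn p m j) := by ring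
        _ ≤ ρ * bn p m (j + i) := mul_le_mul_of_nonneg_left h2 hρ
        _ ≤ bn p m (j + i + 1) := h3
  rcases Nat.lt_or_ge K k with hk | hk
  · have h2 := Qt_anti p h0 h1.le m (K + 1) k hk
    have h3 : 0 ≤ Qt p m (k + s) := Finset.sum_nonneg (fun j _ => hb0 j)
    have h4 : ρ ^ s * (Qt p m k - Qt p m (K + 1)) ≤ 0 :=
      mul_nonpos_of_nonneg_of_nonpos (pow_nonneg hρ s) (by linarith)
    linarith
  · have h2 : Qt p m k - Qt p m (K + 1) = ∑ j ∈ Ico k (K + 1), bn p m j := by
      unfold Qt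
      rw [← Finset.sum_Ico_consecutive (bn p m) (show k ≤ K + 1 by omega)
        (show K + 1 ≤ m + 1 by omega)]
      ring
    rw [h2, Finset.mul_sum]
    calc ∑ j ∈ Ico k (K + 1), ρ ^ s * bn p m j ≤ ∑ j ∈ Ico k (K + 1), bn p m (j + s) := by
          apply Finset.sum_le_sum
          intro j hj
          rw [mem_Ico] at hj
          exact hstep s le_rfl j (by omega)
      _ = ∑ j ∈ Ico (k + s) (K + 1 + s), bn p m j :=
          Finset.sum_Ico_add' (bn p m) k (K + 1) s
      _ ≤ Qt p m (k + s) := by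
          unfold Qt
          apply Finset.sum_le_sum_of_subset_of_nonneg
          · exact Ico_subset_Ico_right (by omega)
          · intro j _ _
            exact hb0 j

end

end Pool.Agent.K4H76.LD
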