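import Pool.Agent.K4H76.LR.Exist

/-!
# Combination of partial colourings
-/

set_option autoImplicit false
set_option linter.unusedSectionVars false

namespace Pool.Agent.K4H76.LD

open Finset Pool.Agent.H162R2.Sparse Pool.Agent.H162R2.AG Pool.Agent.K4H76.LR

section
variable {V : Type} [Fintype V] [DecidableEq V]

theorem comb_sub (G P : SimpleGraph V) (L : V → V → Finset ℕ) (f₁ : V → V → ℕ)
    (h1 : ∀ a b, P.Adj a b → f₁ a b = f₁ b a)
    (h2 : ∀ a b, P.Adj a b → f₁ a b ∈ L a b)
    (h3 : ∀ a b c, P.Adj a b → P.Adj a c → b ≠ c → f₁ a b ≠ f₁ a c)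
    (IH : LC (G \ P) (fun a b => L a b \ ((nb P a).image (f₁ a) ∪ (nb P b).image (f₁ b)))) :
    LC G L := by
  classical
  obtain ⟨f₂, k1, k2, k3⟩ := IH
  have hmix : ∀ a b c, P.Adj a b → G.Adj a c → ¬ P.Adj a c → f₁ a b ≠ f₂ a c := by
    intro a b c hab hac hP
    have hk := k2 a c ((SimpleGraph.sdiff_adj _ _ _ _).2 ⟨hac, hP⟩)
    rw [mem_sdiff, mem_union, not_or] at hk
    intro h
    apply hk.2.1
    rw [← h]
    exact mem_image_of_mem _ ((mem_nb P a b).2 hab)
  refine ⟨fun a b => if P.Adj a b then f₁ a b else f₂ a b, ?_, ?_, ?_⟩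
  · intro a b hab
    simp only
    by_cases h : P.Adj a b
    · rw [if_pos h, if_pos h.symm]
      exact h1 a b h
    · rw [if_neg h, if_neg (fun h' => h h'.symm)]
      exact k1 a b ((SimpleGraph.sdiff_adj _ _ _ _).2 ⟨hab, h⟩)
  · intro a b hab
    simp only
    by_cases h : P.Adj a b
    · rw [if_pos h]
      exact h2 a b h
    · rw [if_neg h]
      exact (mem_sdiff.1 (k2 a b ((SimpleGraph.sdiff_adj _ _ _ _).2 ⟨hab, h⟩))).1
  · intro a b c hab hac hbc
    simp only
    by_cases h : P.Adj a b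
    · rw [if_pos h]
      by_cases h' : P.Adj a c
      · rw [if_pos h']
        exact h3 a b c h h' hbc
      · rw [if_neg h']
        exact hmix a b c h hac h'
    · rw [if_neg h]
      by_cases h' : P.Adj a c
      · rw [if_pos h']
        exact (hmix a c b h' hab h).symm
      · rw [if_neg h']
        exact k3 a b c ((SimpleGraph.sdiff_adj _ _ _ _).2 ⟨hab, h⟩)
          ((SimpleGraph.sdiff_adj _ _ _ _).2 ⟨hac, h'⟩) hbc

theorem comb_levels (G : SimpleGraph V) {ℓ : ℕ} (σ : V → Fin ℓ → Bool) (τ : ℕ → ℕ)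
    (L : V → V → Finset ℕ)
    (key : ∀ j ≤ ℓ, LC (LvG G σ j) (fun v w => (L v w).filter (fun c => τ c = j))) :
    LC G L := by
  classical
  choose! f hf1 hf2 hf3 using key
  have hex : ∀ a b : V, ∃ j ≤ ℓ, At (σ a) (σ b) j := fun a b => At_exists _ _
  choose lv hlv1 hlv2 using hex
  have hlvs : ∀ a b, lv a b = lv b a := fun a b =>
    At_unique (hlv2 a b) (hlv2 b a).symm (hlv1 a b) (hlv1 b a)
  refine ⟨fun a b => f (lv a b) a b, ?_, ?_, ?_⟩
  · intro a b hab
    simp only
    rw [hlvs b a]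
    exact hf1 _ (hlv1 a b) a b ⟨hab, hlv2 a b⟩
  · intro a b hab
    have := hf2 _ (hlv1 a b) a b ⟨hab, hlv2 a b⟩
    exact (mem_filter.1 this).1
  · intro a b c hab hac hbc
    simp only
    by_cases h : lv a b = lv a c
    · have h2 := hlv2 a c
      rw [← h] at h2
      rw [← h]
      exact hf3 _ (hlv1 a b) a b c ⟨hab, hlv2 a b⟩ ⟨hac, h2⟩ hbc
    · intro heq
      apply h
      have h1 := (mem_filter.1 (hf2 _ (hlv1 a b) a b ⟨hab, hlv2 a b⟩)).2
      have h2 := (mem_filter.1 (hf2 _ (hlv1 a c) a c ⟨hac, hlv2 a c⟩)).2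
      rw [← h1, ← h2, heq]

end

/-- a function with given sizes of the fibres -/
theorem lev_exists (J M : ℕ) (m : Fin J → ℕ) (h : ∑ j, m j = M) :
    ∃ lev : Fin M → Fin J, ∀ j, (univ.filter (fun a => lev a = j)).card = m j := by
  subst h
  refine ⟨fun a => (finSigmaFinEquiv.symm a).1, ?_⟩
  intro j
  have h1 : (univ.filter (fun a : Fin (∑ j, m j) => (finSigmaFinEquiv.symm a).1 = j)).card =
      ((univ : Finset (Fin (m j))).map ⟨fun i => (⟨j, i⟩ : (Σ i : Fin J, Fin (m i))), by
        intro a b hab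
        simpa using hab⟩).card := by
    apply card_bij (fun a _ => finSigmaFinEquiv.symm a)
    · intro a ha
      rw [mem_filter] at ha
      rw [mem_map]
      generalize finSigmaFinEquiv.symm a = x at ha
      obtain ⟨x1, x2⟩ := x
      obtain ⟨_, ha⟩ := ha
      simp only at ha
      subst ha
      exact ⟨x2, mem_univ _, rfl⟩
    · intro a _ b _ hab
      exact finSigmaFinEquiv.symm.injective hab
    · intro x hx
      rw [mem_map] at hx
      obtain ⟨i, _, rfl⟩ := hx
      refine ⟨finSigmaFinEquiv ⟨j, i⟩, ?_, ?_⟩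
      · rw [mem_filter]
        simp
      · rw [Equiv.symm_apply_apply]
        rfl
  rw [h1, card_map, card_univ, Fintype.card_fin]

/-- the palettes of the demands -/
def pal (J t : ℕ) (a : Fin (J * t)) : Fin J := (finProdFinEquiv.symm a).1

theorem pal_card (J t : ℕ) (j : Fin J) :
    (univ.filter (fun a : Fin (J * t) => pal J t a = j)).card = t := by
  have h1 : (univ.filter (fun a : Fin (J * t) => pal J t a = j)).card =
      ((univ : Finset (Fin t)).map ⟨fun i => ((j, i) : Fin J × Fin t), by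
        intro a b hab
        simpa using hab⟩).card := by
    apply card_bij (fun a _ => finProdFinEquiv.symm a)
    · intro a ha
      rw [mem_filter] at ha
      rw [mem_map]
      unfold pal at ha
      generalize finProdFinEquiv.symm a = x at ha
      obtain ⟨x1, x2⟩ := x
      obtain ⟨_, ha⟩ := ha
      simp only at ha
      subst ha
      exact ⟨x2, mem_univ _, rfl⟩
    · intro a _ b _ hab
      exact finProdFinEquiv.symm.injective hab
    · intro x hx
      rw [mem_map] at hx
      obtain ⟨i, _, rfl⟩ := hx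
      refine ⟨finProdFinEquiv (j, i), ?_, ?_⟩
      · rw [mem_filter]
        unfold pal
        simp
      · rw [Equiv.symm_apply_apply]
        rfl
  rw [h1, card_map, card_univ, Fintype.card_fin]

/-- natural numbers above given bounds with a given sum -/
theorem m_exists (J M : ℕ) (hJ : 1 ≤ J) (lb : Fin J → ℝ)
    (h : ∑ j, (max 0 (lb j) + 1) ≤ M) :
    ∃ m : Fin J → ℕ, (∀ j, lb j ≤ m j) ∧ ∑ j, m j = M := by
  classical
  set m₀ : Fin J → ℕ := fun j => ⌈lb j⌉₊ with hm₀
  have h1 : ∑ j, m₀ j ≤ M := by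
    have h2 : ((∑ j, m₀ j : ℕ) : ℝ) ≤ M := by
      refine le_trans ?_ h
      push_cast
      apply sum_le_sum
      intro j _
      rw [hm₀]
      simp only
      rcases le_or_gt (lb j) 0 with h3 | h3
      · rw [Nat.ceil_eq_zero.2 h3, max_eq_left h3]
        norm_num
      · rw [max_eq_right h3.le]
        exact (Nat.ceil_lt_add_one h3.le).le
    exact_mod_cast h2
  set j₀ : Fin J := ⟨0, by omega⟩ with hj₀
  refine ⟨fun j => m₀ j + if j = j₀ then M - ∑ j, m₀ j else 0, ?_, ?_⟩
  · intro j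
    push_cast
    have h2 : lb j ≤ m₀ j := Nat.le_ceil _
    have h3 : (0 : ℝ) ≤ ((if j = j₀ then M - ∑ j, m₀ j else 0 : ℕ) : ℝ) := Nat.cast_nonneg _
    push_cast at h3
    linarith
  · rw [sum_add_distrib, sum_ite_eq' univ j₀ (fun _ => M - ∑ j, m₀ j), if_pos (mem_univ _)]
    omega

end Pool.Agent.K4H76.LD
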