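import Pool.Agent.K4H76.LD.Evt
import Pool.Agent.K4H76.LR.Num
import Pool.Agent.K4H76.LR.Transfer

/-!
# The vertices of nearly maximum degree
-/

set_option autoImplicit false
set_option linter.unusedSectionVars false

namespace Pool.Agent.K4H76.LD

open Finset Pool.Agent.H162R2.Sparse Pool.Agent.K4H76.LR

section
variable {ι : Type} [Fintype ι] [DecidableEq ι]

theorem cn_up (p : ℝ) (h0 : 0 ≤ p) (h1 : p ≤ 1) (F : Finset ι) (M a : ℝ) (hM : 0 < M)
    (ha : 0 ≤ a) (haM : a ≤ 2 * M) (h : F.card * p ≤ M) :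
    Pr (wB ι p) (fun ω => M + a ≤ cn F ω) ≤ Real.exp (-(a ^ 2) / (4 * M)) := by
  have hw := wB_wt (ι := ι) p h0 h1
  have h2 := upper hw F (fun _ b => b = true) M a hM ha haM (by
    rw [Finset.sum_congr rfl (fun i _ => P1_wB p i), Finset.sum_const, nsmul_eq_mul]
    exact h)
  refine le_trans (Pr_mono hw ?_) h2
  intro ω h
  rw [← cn_eq]
  exact h

theorem cn_lo (p : ℝ) (h0 : 0 ≤ p) (h1 : p ≤ 1) (F : Finset ι) (M a m : ℝ) (hM : 0 < M)
    (ha : 0 ≤ a) (haM : a ≤ 2 * M) (h : F.card * p ≤ M) (hm : m + a ≤ F.card * p) :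
    Pr (wB ι p) (fun ω => (cn F ω : ℝ) ≤ m) ≤ Real.exp (-(a ^ 2) / (4 * M)) := by
  have hw := wB_wt (ι := ι) p h0 h1
  have h2 := lower hw F (fun _ b => b = true) M a m hM ha haM (by
    rw [Finset.sum_congr rfl (fun i _ => P1_wB p i), Finset.sum_const, nsmul_eq_mul]
    exact h) (by
    rw [Finset.sum_congr rfl (fun i _ => P1_wB p i), Finset.sum_const, nsmul_eq_mul]
    exact hm)
  refine le_trans (Pr_mono hw ?_) h2
  intro ω h
  rw [← cn_eq]
  exact h

end

theorem exp_neg_one_le : Real.exp (-1) ≤ 1 / 2 := by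
  rw [Real.exp_neg]
  have := Real.add_one_le_exp (1 : ℝ)
  rw [inv_le_comm₀ (Real.exp_pos _) (by norm_num)]
  linarith

theorem exp_neg_two_le : Real.exp (-2) ≤ 1 / 4 := by
  have h : Real.exp (-2) = Real.exp (-1) * Real.exp (-1) := by
    rw [← Real.exp_add]
    norm_num
  rw [h]
  have h1 := exp_neg_one_le
  have h2 := Real.exp_pos (-1)
  nlinarith

/-- the numbers for the ratio -/
theorem rho_cond (n R S p δ ρ K s : ℝ) (hR : R = n * p) (hp0 : 0 ≤ p) (hpδ : p ≤ 1 - δ)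
    (hδ : 0 < δ) (hS : 0 ≤ S) (hR0 : 0 < R)
    (hρ : ρ = 1 - 9 * S / (δ * R)) (hρ0 : 0 ≤ ρ) (hK : K + s ≤ R + 4 * S) (h1S : 1 ≤ S) :
    ρ * ((K + s) * (1 - p)) ≤ ((n - 1) - (K + s)) * p := by
  have hp1 : 0 < 1 - p := by linarith
  have hp1' : p ≤ 1 := by linarith
  have e1 : ρ * ((K + s) * (1 - p)) ≤ ρ * ((R + 4 * S) * (1 - p)) :=
    mul_le_mul_of_nonneg_left (mul_le_mul_of_nonneg_right hK hp1.le) hρ0
  have e2 : (n - R - 5 * S) * p ≤ ((n - 1) - (K + s)) * p :=
    mul_le_mul_of_nonneg_right (by linarith) hp0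
  have e3 : (n - R - 5 * S) * p = R * (1 - p) - 5 * S * p := by rw [hR]; ring
  have e4 : 5 * S * p ≤ 5 * S := mul_le_of_le_one_right (by positivity) hp1'
  have e5 : ρ * ((R + 4 * S) * (1 - p)) ≤ R * (1 - p) + 4 * S - 9 * S := by
    have t0 : 0 ≤ 9 * S / (δ * R) := by positivity
    have f1 : ρ * ((R + 4 * S) * (1 - p)) = R * (1 - p) + 4 * S * (1 - p) -
        9 * S / (δ * R) * (R * (1 - p)) - 9 * S / (δ * R) * (4 * S * (1 - p)) := by
      rw [hρ]
      ring
    have f2 : 9 * S / (δ * R) * (R * δ) = 9 * S := by field_simp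
    have f3 : 9 * S / (δ * R) * (R * δ) ≤ 9 * S / (δ * R) * (R * (1 - p)) :=
      mul_le_mul_of_nonneg_left (mul_le_mul_of_nonneg_left (by linarith) hR0.le) t0
    have f4 : 0 ≤ 9 * S / (δ * R) * (4 * S * (1 - p)) := by positivity
    have f5 : 4 * S * (1 - p) ≤ 4 * S := mul_le_of_le_one_right (by positivity) (by linarith)
    rw [f1]
    linarith
  linarith

theorem rho_pow (R S x δ γ ε ρ : ℝ) (s : ℕ) (hR : 0 < R) (hS2 : S ^ 2 = R * x) (hS : 0 ≤ S)
    (hδ : 0 < δ) (hρ : ρ = 1 - 9 * S / (δ * R)) (h18 : 18 * S ≤ δ * R) (hs : (s : ℝ) ≤ ε * S)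
    (hε : 72 * ε = γ * δ) : Real.exp (-(γ * x / 4)) ≤ ρ ^ s := by
  have h1 := one_sub_pow (9 * S / (δ * R)) (by positivity) (by
    rw [div_le_iff₀ (by positivity)]
    linarith) s
  rw [hρ]
  refine le_trans (Real.exp_le_exp.2 ?_) h1
  rw [neg_le_neg_iff]
  calc 2 * ((s : ℝ) * (9 * S / (δ * R))) ≤ 2 * (ε * S * (9 * S / (δ * R))) := by
        have : (s : ℝ) * (9 * S / (δ * R)) ≤ ε * S * (9 * S / (δ * R)) :=
          mul_le_mul_of_nonneg_right hs (by positivity)
        linarith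
    _ = 18 * ε * (S ^ 2 / R) / δ := by
        field_simp
        ring
    _ = 18 * ε * x / δ := by
        rw [hS2]
        field_simp
    _ = γ * x / 4 := by
        have : ε = γ * δ / 72 := by linarith
        rw [this]
        field_simp
        ring

theorem st_card {n : ℕ} (v : Fin n) : (st v (univ.erase v)).card = n - 1 := by
  rw [card_st v _ (notMem_erase _ _), card_erase_of_mem (mem_univ _), card_univ, Fintype.card_fin]

open Classical in
theorem topdeg (β δ : ℝ) (hβ : 0 < β) (hβ1 : β ≤ 1) (hδ : 0 < δ) (hδ1 : δ ≤ 1) :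
    ∃ ε : ℝ, 0 < ε ∧ ε ≤ 1 ∧ ∀ η : ℝ, 0 < η → ∃ x₀ : ℝ, ∀ (n : ℕ), x₀ ≤ Real.log n →
      ∀ p : ℝ, 0 ≤ p → p ≤ 1 - δ → Real.exp (β * Real.log n) ≤ n * p → ∃ k : ℕ,
        n * p / 2 ≤ k ∧
        Pr (wB (Ed n) p) (fun ω => ∀ v : Fin n, (dg (Gr ω) v : ℝ) <
          k + ε * Real.sqrt (n * p * Real.log n)) ≤ η ∧
        Pr (wB (Ed n) p) (fun ω => Real.exp (β * Real.log n / 8) ≤
          ((univ.filter (fun v : Fin n => ((k : ℝ) + 1) ≤ dg (Gr ω) v)).card : ℝ)) ≤ η := by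
  obtain ⟨γ, hγ⟩ : ∃ γ : ℝ, γ = β / 16 := ⟨_, rfl⟩
  have hγ0 : 0 < γ := by rw [hγ]; positivity
  have hγ1 : γ ≤ 1 / 16 := by rw [hγ]; linarith
  obtain ⟨ε, hε⟩ : ∃ ε : ℝ, ε = γ * δ / 72 := ⟨_, rfl⟩
  have hε0 : 0 < ε := by rw [hε]; positivity
  have hεγ : 72 * ε = γ * δ := by rw [hε]; ring
  have hγδ : γ * δ ≤ γ := mul_le_of_le_one_right hγ0.le hδ1
  have hε1 : ε ≤ 1 / 1000 := by linarith
  refine ⟨ε / 2, by positivity, by linarith, ?_⟩
  intro η hη
  obtain ⟨κ, hκ⟩ : ∃ κ : ℝ, κ = ε ^ 2 / 2048 := ⟨_, rfl⟩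
  have hκ0 : 0 < κ := by rw [hκ]; positivity
  have hκ1 : κ ≤ 1 := by rw [hκ]; nlinarith
  obtain ⟨C, hC⟩ : ∃ C : ℝ, C = 64 + 18 / δ + 64 / ε + 2 / κ := ⟨_, rfl⟩
  have c1 : 0 < 18 / δ := by positivity
  have c2 : 0 < 64 / ε := by positivity
  have c3 : 0 < 2 / κ := by positivity
  have hC64 : 64 ≤ C := by linarith
  obtain ⟨x1, h1⟩ := ev_exp β hβ (C ^ 2) 1
  obtain ⟨x2, h2⟩ := ev_exp (3 * γ / 4) (by positivity) (16 / (κ * η)) 0
  obtain ⟨x3, h3⟩ := ev_exp 1 one_pos (2 / η) 0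
  obtain ⟨x4, h4⟩ := ev_exp γ hγ0 (1 / η) 0
  refine ⟨max (max x1 x2) (max (max x3 x4) 2), ?_⟩
  intro n hn p hp0 hpδ hnp
  obtain ⟨x, hx⟩ : ∃ x : ℝ, x = Real.log n := ⟨_, rfl⟩
  rw [← hx] at hn hnp
  rw [← hx]
  simp only [max_le_iff] at hn
  obtain ⟨⟨hx1, hx2⟩, ⟨hx3, hx4⟩, hx5⟩ := hn
  have k1 := h1 x hx1
  have k2 := h2 x hx2
  have k3 := h3 x hx3
  have k4 := h4 x hx4
  rw [pow_one] at k1
  rw [pow_zero, mul_one] at k2 k3 k4
  have hn0 : (0 : ℝ) < n := by
    rcases Nat.eq_zero_or_pos n with h | h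
    · rw [h, Nat.cast_zero, Real.log_zero] at hx
      linarith
    · exact_mod_cast h
  have hnx : (n : ℝ) = Real.exp x := by rw [hx, Real.exp_log hn0]
  obtain ⟨R, hR⟩ : ∃ R : ℝ, R = n * p := ⟨_, rfl⟩
  rw [← hR] at hnp
  rw [← hR]
  obtain ⟨S, hS⟩ : ∃ S : ℝ, S = Real.sqrt (R * x) := ⟨_, rfl⟩
  rw [← hS]
  have hx0 : 0 < x := by linarith
  have hRC : C ^ 2 * x ≤ R := k1.trans hnp
  have hR0 : 0 < R := lt_of_lt_of_le (by positivity) hRC
  have hS2 : S ^ 2 = R * x := by rw [hS, Real.sq_sqrt (by positivity)]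
  have hS0 : 0 < S := by rw [hS]; exact Real.sqrt_pos.2 (by positivity)
  have hCS : C ≤ S := by
    rw [hS]
    apply Real.le_sqrt_of_sq_le
    have e1 : C ^ 2 * 1 ≤ C ^ 2 * (x * x) :=
      mul_le_mul_of_nonneg_left (by nlinarith only [hx5]) (sq_nonneg C)
    have e2 : C ^ 2 * x * x ≤ R * x := mul_le_mul_of_nonneg_right hRC hx0.le
    linarith only [e1, e2]
  have hC0 : 0 < C := by linarith
  have hSR : C * S ≤ R := by
    have e1 : (C * S) ^ 2 ≤ R ^ 2 := by
      rw [mul_pow, hS2]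
      calc C ^ 2 * (R * x) = R * (C ^ 2 * x) := by ring
        _ ≤ R * R := mul_le_mul_of_nonneg_left hRC hR0.le
        _ = R ^ 2 := by ring
    exact le_of_sq_le_sq e1 hR0.le
  have hp1 : p ≤ 1 := by linarith
  have hp1' : p < 1 := by linarith
  have hRn : R ≤ n := by
    rw [hR]
    exact mul_le_of_le_one_right hn0.le hp1
  have hRδ : R ≤ n - δ * n := by
    rw [hR]
    have := mul_le_mul_of_nonneg_left hpδ hn0.le
    linarith
  have hSδ : 18 * S ≤ δ * R := by
    have e1 : 18 / δ * S ≤ C * S := mul_le_mul_of_nonneg_right (by linarith) hS0.le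
    have e2 : 18 / δ * S ≤ R := e1.trans hSR
    rw [div_mul_eq_mul_div, div_le_iff₀ hδ] at e2
    linarith
  have hSε : 64 * S ≤ ε * R := by
    have e1 : 64 / ε * S ≤ C * S := mul_le_mul_of_nonneg_right (by linarith) hS0.le
    have e2 : 64 / ε * S ≤ R := e1.trans hSR
    rw [div_mul_eq_mul_div, div_le_iff₀ hε0] at e2
    linarith
  have hS64 : 64 * S ≤ R := (mul_le_mul_of_nonneg_right hC64 hS0.le).trans hSR
  have h64S : 64 ≤ ε * S := by
    have e2 : 64 / ε ≤ S := by linarith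
    rw [div_le_iff₀ hε0] at e2
    linarith
  have hκn : 2 ≤ κ * n := by
    have e2 : 2 / κ ≤ n := by linarith
    rw [div_le_iff₀ hκ0] at e2
    linarith
  have hw := wB_wt (ι := Ed n) p hp0 hp1
  have hnpos : 0 < n := by exact_mod_cast hn0
  obtain ⟨v0, -⟩ : ∃ v0 : Fin n, v0.val = 0 := ⟨⟨0, hnpos⟩, rfl⟩
  have hPF : ∀ (v : Fin n) (k : ℕ), Pr (wB (Ed n) p) (fun ω => k ≤ cn (st v (univ.erase v)) ω) =
      Qt p (n - 1) k := by
    intro v k
    rw [Pr_Qt p hp0 hp1, st_card]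
  have hn1r : ((n - 1 : ℕ) : ℝ) = n - 1 := by
    rw [Nat.cast_sub (by omega)]
    norm_num
  obtain ⟨τ, hτ⟩ : ∃ τ : ℝ, τ = Real.exp ((γ - 1) * x) := ⟨_, rfl⟩
  have hτ0 : 0 < τ := by rw [hτ]; exact Real.exp_pos _
  have hγx : γ * x ≤ x / 16 := by
    have := mul_le_mul_of_nonneg_right hγ1 hx0.le
    linarith
  have hτ1 : τ ≤ 1 / 2 := by
    rw [hτ]
    refine le_trans (Real.exp_le_exp.2 ?_) exp_neg_one_le
    linarith
  have hex : ∃ k, Qt p (n - 1) (k + 1) < τ := ⟨n - 1, by rw [Qt_big _ _ _ (by omega)]; exact hτ0⟩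
  obtain ⟨k, hk1, hk2⟩ : ∃ k, Qt p (n - 1) (k + 1) < τ ∧ τ ≤ Qt p (n - 1) k := by
    refine ⟨Nat.find hex, Nat.find_spec hex, ?_⟩
    rcases Nat.eq_zero_or_pos (Nat.find hex) with h | h
    · rw [h, ← hPF v0 0]
      have e1 : Pr (wB (Ed n) p) (fun ω => 0 ≤ cn (st v0 (univ.erase v0)) ω) = 1 := by
        have e2 := Ex_one hw
        refine Eq.trans ?_ e2
        unfold Pr
        congr 1
        funext ω
        rw [if_pos (Nat.zero_le _)]
      rw [e1]
      linarith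
    · have h3 := Nat.find_min hex (m := Nat.find hex - 1) (by omega)
      push Not at h3
      have h4 : Nat.find hex - 1 + 1 = Nat.find hex := by omega
      rwa [h4] at h3
  have hRbig : 64 ≤ R := by linarith
  have hF0 : ((st v0 (univ.erase v0)).card : ℝ) * p = R - p := by
    rw [st_card, hn1r, hR]
    ring
  have hkR : R / 2 ≤ k := by
    by_contra hcon
    push Not at hcon
    have e1 := cn_lo p hp0 hp1 (st v0 (univ.erase v0)) R (R / 4) (R / 2 + 1) hR0 (by positivity)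
      (by linarith) (by rw [hF0]; linarith) (by rw [hF0]; linarith)
    have e2 : Real.exp (-((R / 4) ^ 2) / (4 * R)) ≤ 1 / 2 := by
      refine le_trans (Real.exp_le_exp.2 ?_) exp_neg_one_le
      have : -((R / 4) ^ 2) / (4 * R) = -(R / 64) := by
        field_simp
        norm_num
      rw [this]
      linarith
    have e3 : Pr (wB (Ed n) p) (fun ω => ¬ (k + 1 ≤ cn (st v0 (univ.erase v0)) ω)) ≤ 1 / 2 := by
      refine le_trans (Pr_mono hw ?_) (e1.trans e2)
      intro ω hω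
      push Not at hω
      have : (cn (st v0 (univ.erase v0)) ω : ℝ) ≤ k := by
        exact_mod_cast Nat.lt_succ_iff.1 hω
      linarith
    rw [Pr_not hw, hPF] at e3
    linarith
  -- the threshold
  obtain ⟨K0, hK0⟩ : ∃ K0 : ℕ, K0 = ⌈R + 3 * S⌉₊ := ⟨_, rfl⟩
  have hK01 : R + 3 * S ≤ K0 := by rw [hK0]; exact Nat.le_ceil _
  have hK02 : (K0 : ℝ) ≤ R + 3 * S + 1 := by
    rw [hK0]; exact (Nat.ceil_lt_add_one (by positivity)).le
  obtain ⟨s, hs⟩ : ∃ s : ℕ, s = ⌊ε * S⌋₊ := ⟨_, rfl⟩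
  have hs1 : (s : ℝ) ≤ ε * S := by rw [hs]; exact Nat.floor_le (by positivity)
  have hs2 : ε * S ≤ s + 1 := by rw [hs]; exact (Nat.lt_floor_add_one _).le
  have hεS : ε * S ≤ S / 2 := by
    have := mul_le_mul_of_nonneg_right hε1 hS0.le
    linarith
  have hKs : (K0 : ℝ) + s ≤ R + 4 * S := by linarith
  have hKsn : K0 + s ≤ n - 1 := by
    have e1 : δ * R ≤ δ * n := mul_le_mul_of_nonneg_left hRn hδ.le
    have e2 : ((K0 + s : ℕ) : ℝ) ≤ ((n - 1 : ℕ) : ℝ) := by
      rw [hn1r]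
      push_cast
      linarith
    exact_mod_cast e2
  obtain ⟨ρ, hρ⟩ : ∃ ρ : ℝ, ρ = 1 - 9 * S / (δ * R) := ⟨_, rfl⟩
  have hρ0 : 0 ≤ ρ := by
    rw [hρ, sub_nonneg, div_le_one (by positivity)]
    linarith
  have hrat := Qt_ratio p ρ hp0 hp1' hρ0 (n - 1) k K0 s hKsn (by
    rw [hn1r]
    push_cast
    exact rho_cond n R S p δ ρ K0 s hR hp0 hpδ hδ hS0.le hR0 hρ hρ0 hKs (by linarith))
  have hρs := rho_pow R S x δ γ ε ρ s hR0 hS2 hS0.le hδ hρ hSδ hs1 hεγ
  obtain ⟨r, hr⟩ : ∃ r : ℝ, r = Real.exp (-(2 * x)) := ⟨_, rfl⟩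
  have hr0 : 0 < r := by rw [hr]; exact Real.exp_pos _
  have hQK : Qt p (n - 1) (K0 + 1) ≤ r := by
    rw [← hPF v0]
    have e1 := cn_up p hp0 hp1 (st v0 (univ.erase v0)) R (3 * S) hR0 (by positivity)
      (by linarith) (by rw [hF0]; linarith)
    refine le_trans (Pr_mono hw ?_) (e1.trans ?_)
    · intro ω hω
      have : ((K0 : ℝ) + 1) ≤ (cn (st v0 (univ.erase v0)) ω : ℝ) := by exact_mod_cast hω
      linarith
    · rw [hr]
      apply Real.exp_le_exp.2
      rw [neg_div, neg_le_neg_iff, le_div_iff₀ (by positivity), mul_pow, hS2]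
      have : 0 < R * x := by positivity
      linarith
  have hτr : r ≤ τ / 4 := by
    have e1 : r = τ * Real.exp (-((1 + γ) * x)) := by
      rw [hr, hτ, ← Real.exp_add]
      congr 1
      ring
    have e2 : Real.exp (-((1 + γ) * x)) ≤ 1 / 4 := by
      refine le_trans (Real.exp_le_exp.2 ?_) exp_neg_two_le
      have : 0 < γ * x := by positivity
      linarith
    rw [e1]
    have := mul_le_mul_of_nonneg_left e2 hτ0.le
    linarith
  obtain ⟨τ', hτ'⟩ : ∃ τ' : ℝ, τ' = Real.exp ((3 * γ / 4 - 1) * x) := ⟨_, rfl⟩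
  have hτ'0 : 0 < τ' := by rw [hτ']; exact Real.exp_pos _
  have hττ : Real.exp (-(γ * x / 4)) * τ = τ' := by
    rw [hτ, hτ', ← Real.exp_add]
    congr 1
    ring
  have hQh : τ' / 2 ≤ Qt p (n - 1) (k + s) := by
    refine le_trans ?_ hrat
    have e1 : τ / 2 ≤ Qt p (n - 1) k - Qt p (n - 1) (K0 + 1) := by linarith
    calc τ' / 2 = Real.exp (-(γ * x / 4)) * (τ / 2) := by rw [← hττ]; ring
      _ ≤ ρ ^ s * (Qt p (n - 1) k - Qt p (n - 1) (K0 + 1)) :=
          mul_le_mul hρs e1 (by positivity) (pow_nonneg hρ0 s)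
  have hr' : r ≤ τ' / 4 := by
    have e1 : r = τ' * Real.exp (-((1 + 3 * γ / 4) * x)) := by
      rw [hr, hτ', ← Real.exp_add]
      congr 1
      ring
    have e2 : Real.exp (-((1 + 3 * γ / 4) * x)) ≤ 1 / 4 := by
      refine le_trans (Real.exp_le_exp.2 ?_) exp_neg_two_le
      have : 0 < γ * x := by positivity
      linarith
    rw [e1]
    have := mul_le_mul_of_nonneg_left e2 hτ'0.le
    linarith
  -- the stars
  obtain ⟨a, ha⟩ : ∃ a : ℝ, a = ε * S / 16 := ⟨_, rfl⟩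
  have ha0 : 0 < a := by rw [ha]; positivity
  have ha2 : a ^ 2 = 2 * x * (4 * (κ * R)) := by
    rw [ha, div_pow, mul_pow, hS2, hκ]
    ring
  have haκ : a ≤ 2 * (κ * R) := by
    rw [ha, hκ]
    have := mul_le_mul_of_nonneg_left hSε hε0.le
    linarith
  have hκR : 0 < κ * R := by positivity
  obtain ⟨M, hM⟩ : ∃ M : ℕ, M = ⌊κ * n⌋₊ := ⟨_, rfl⟩
  have hM1 : (M : ℝ) ≤ κ * n := by rw [hM]; exact Nat.floor_le (by positivity)
  have hM2 : κ * n ≤ M + 1 := by rw [hM]; exact (Nat.lt_floor_add_one _).le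
  have hMn : M ≤ n := by
    have : (M : ℝ) ≤ n := hM1.trans (mul_le_of_le_one_left hn0.le hκ1)
    exact_mod_cast this
  obtain ⟨u, hu⟩ : ∃ u : ℕ, u = ⌈κ * R + a⌉₊ := ⟨_, rfl⟩
  have hu1 : κ * R + a ≤ u := by rw [hu]; exact Nat.le_ceil _
  have hu2 : (u : ℝ) ≤ κ * R + a + 1 := by
    rw [hu]; exact (Nat.ceil_lt_add_one (by positivity)).le
  obtain ⟨l, hl⟩ : ∃ l : ℕ, l = ⌊κ * R - 2 - a⌋₊ := ⟨_, rfl⟩
  have hl2 : κ * R - 2 - a ≤ l + 1 := by rw [hl]; exact (Nat.lt_floor_add_one _).le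
  have hexpa : Real.exp (-(a ^ 2) / (4 * (κ * R))) = r := by
    rw [hr, ha2]
    congr 1
    field_simp
  have hAM : (univ.filter (fun w : Fin n => w.val < M)).card = M := by
    rw [Fin.card_filter_val_lt]
    omega
  have hκnp : κ * n * p = κ * R := by rw [hR]; ring
  have hbase := maxdeg n M (k + s) u l p (τ' / 2) r hp0 hp1 hMn
    (by intro v; rw [hPF v]; exact hQh)
    (by
      intro v hv
      have e1 := cn_up p hp0 hp1 (st v ((univ.filter (fun w : Fin n => w.val < M)).erase v))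
        (κ * R) a hκR ha0.le haκ (by
          have e2 : ((st v ((univ.filter (fun w : Fin n => w.val < M)).erase v)).card : ℝ) ≤
              κ * n := by
            refine le_trans ?_ hM1
            have := (card_st_le v ((univ.filter (fun w : Fin n => w.val < M)).erase v)).trans
              (card_le_card (erase_subset _ _))
            rw [hAM] at this
            exact_mod_cast this
          rw [← hκnp]
          exact mul_le_mul_of_nonneg_right e2 hp0)
      rw [hexpa] at e1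
      refine le_trans (Pr_mono hw ?_) e1
      intro ω hω
      have : (u : ℝ) ≤ (cn (st v ((univ.filter (fun w : Fin n => w.val < M)).erase v)) ω : ℝ) := by
        exact_mod_cast hω.le
      linarith)
    (by
      intro v hv
      have hcard : ((st v ((univ.filter (fun w : Fin n => w.val < M)).erase v)).card : ℝ) =
          M - 1 := by
        rw [card_st v _ (notMem_erase _ _), card_erase_of_mem (by
          rw [mem_filter]; exact ⟨mem_univ _, hv⟩), hAM, Nat.cast_sub (by omega)]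
        norm_num
      have e1 := cn_lo p hp0 hp1 (st v ((univ.filter (fun w : Fin n => w.val < M)).erase v))
        (κ * R) a (κ * R - 2 - a) hκR ha0.le haκ (by
          rw [hcard, ← hκnp]
          exact mul_le_mul_of_nonneg_right (by linarith) hp0) (by
          rw [hcard]
          have e2 : (κ * n - 2) * p ≤ (M - 1) * p :=
            mul_le_mul_of_nonneg_right (by linarith) hp0
          have e3 : (κ * n - 2) * p = κ * R - 2 * p := by rw [← hκnp]; ring
          linarith)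
      rw [hexpa] at e1
      refine le_trans (Pr_mono hw ?_) e1
      intro ω hω
      rw [hl] at hω
      exact (Nat.lt_of_lt_floor hω).le)
  refine ⟨k, hkR, ?_, ?_⟩
  · refine le_trans (Pr_mono hw ?_) (hbase.trans ?_)
    · intro ω hω v
      have e1 := hω v
      have e2 : ((dg (Gr ω) v + u : ℕ) : ℝ) < ((k + s + l : ℕ) : ℝ) := by
        push_cast
        rw [ha] at hu2 hl2
        linarith
      exact_mod_cast e2
    · have f1 : κ * n / 2 ≤ M := by linarith
      have f2 : τ' / 4 ≤ τ' / 2 - r := by linarith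
      have f3 : 2 / η ≤ M * (τ' / 2 - r) := by
        calc 2 / η = κ / 8 * (16 / (κ * η)) := by
              field_simp
              norm_num
          _ ≤ κ / 8 * Real.exp (3 * γ / 4 * x) := mul_le_mul_of_nonneg_left k2 (by positivity)
          _ = (κ * n / 2) * (τ' / 4) := by
              rw [hnx, hτ']
              have : Real.exp (3 * γ / 4 * x) = Real.exp x * Real.exp ((3 * γ / 4 - 1) * x) := by
                rw [← Real.exp_add]
                congr 1
                ring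
              rw [this]
              ring
          _ ≤ M * (τ' / 2 - r) := mul_le_mul f1 f2 (by positivity) (Nat.cast_nonneg _)
      have f4 : Real.exp (-(M * (τ' / 2 - r))) ≤ η / 2 := by
        have g1 := Real.add_one_le_exp (M * (τ' / 2 - r))
        have g2 : 2 / η ≤ Real.exp (M * (τ' / 2 - r)) := by linarith
        rw [Real.exp_neg, inv_le_comm₀ (Real.exp_pos _) (by positivity), inv_div]
        exact g2
      have f5 : (M : ℝ) * r ≤ η / 2 := by
        have g1 : (M : ℝ) ≤ n := by exact_mod_cast hMn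
        have g2 : (M : ℝ) * r ≤ Real.exp (-x) := by
          calc (M : ℝ) * r ≤ n * r := mul_le_mul_of_nonneg_right g1 hr0.le
            _ = Real.exp (-x) := by
                rw [hnx, hr, ← Real.exp_add]
                congr 1
                ring
        refine g2.trans ?_
        rw [one_mul] at k3
        rw [Real.exp_neg, inv_le_comm₀ (Real.exp_pos _) (by positivity), inv_div]
        exact k3
      linarith
  · have f1 := few_large n p hp0 hp1 (k + 1) τ (Real.exp (β * x / 8)) (Real.exp_pos _) (by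
      intro v
      refine le_trans (Pr_mono hw ?_) ((hPF v (k + 1)).le.trans hk1.le)
      intro ω hω
      have e1 : ((k + 1 : ℕ) : ℝ) ≤ dg (Gr ω) v := by
        push_cast
        exact hω
      have e2 : k + 1 ≤ dg (Gr ω) v := by exact_mod_cast e1
      exact e2.trans (dg_le_cn v ω))
    refine f1.trans ?_
    have e1 : n * τ / Real.exp (β * x / 8) = Real.exp (-(γ * x)) := by
      rw [hnx, hτ, ← Real.exp_add, ← Real.exp_sub]
      congr 1
      rw [hγ]
      ring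
    rw [e1, Real.exp_neg, inv_le_comm₀ (Real.exp_pos _) hη, ← one_div]
    exact k4

end Pool.Agent.K4H76.LD
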