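import Pool.Agent.K4H76.LR.Exist

/-!
# Random strings for the vertices
-/

set_option autoImplicit false
set_option linter.unusedSectionVars false

namespace Pool.Agent.K4H76.LD

open Finset Pool.Agent.H162R2.Sparse Pool.Agent.H162R2.AG Pool.Agent.K4H76.LR

section
variable {ι β : Type} [Fintype ι] [DecidableEq ι] [Fintype β]

theorem exists_good' {w : ι → β → ℝ} (hw : Wt w) (H : (ι → β) → Prop) (f : (ι → β) → ℝ) (N : ℝ)
    (hN : 0 < N) (hH : Pr w H ≤ 1 / 4) (hf0 : ∀ ω, 0 ≤ f ω) (hf : Ex w f ≤ N / 4) :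
    ∃ ω, ¬ H ω ∧ f ω ≤ N := by
  classical
  obtain ⟨ω, hω⟩ := exists_le hw (fun ω => (if H ω then (1 : ℝ) else 0) + (1 / N) * f ω) (1 / 2) (by
    rw [Ex_add, Ex_mul]
    have h1 : Ex w (fun ω => if H ω then (1 : ℝ) else 0) ≤ 1 / 4 := by
      refine le_trans (le_of_eq ?_) hH
      unfold Pr
      congr!
    have h2 : (1 / N) * Ex w f ≤ (1 / N) * (N / 4) := mul_le_mul_of_nonneg_left hf (by positivity)
    have h3 : (1 / N) * (N / 4) = 1 / 4 := by field_simp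
    linarith)
  refine ⟨ω, ?_, ?_⟩
  · intro h
    rw [if_pos h] at hω
    have : 0 ≤ (1 / N) * f ω := mul_nonneg (by positivity) (hf0 ω)
    linarith
  · have h1 : (0 : ℝ) ≤ (if H ω then (1 : ℝ) else 0) := by split_ifs <;> norm_num
    have h2 : (1 / N) * f ω ≤ 1 := by linarith
    rw [one_div, inv_mul_le_iff₀ hN] at h2
    linarith

theorem upper3 {w : ι → β → ℝ} (hw : Wt w) (S : Finset ι) (A : ι → β → Prop) (M a μ : ℝ)
    (hM : 0 < M) (ha : 0 ≤ a) (haM : a ≤ 2 * M) (hμ : ∑ i ∈ S, P1 w i (A i) ≤ μ) (hμM : μ ≤ M) :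
    Pr w (fun ω => μ + a ≤ Nm S A ω) ≤ Real.exp (-(a ^ 2) / (4 * M)) := by
  set t : ℝ := a / (2 * M) with ht
  have ht0 : 0 ≤ t := by positivity
  have ht1 : t ≤ 1 := by rw [ht, div_le_one (by positivity)]; exact haM
  have h1 := markov hw (fun ω => μ + a ≤ Nm S A ω) (fun ω => Real.exp (t * Nm S A ω))
    (Real.exp (t * (μ + a))) (Real.exp_pos _) (fun ω => (Real.exp_pos _).le) (fun ω hω =>
      Real.exp_le_exp.2 (mul_le_mul_of_nonneg_left hω ht0))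
  refine h1.trans ?_
  rw [div_le_iff₀ (Real.exp_pos _), ← Real.exp_add]
  refine (mgf hw S A t).trans (Real.exp_le_exp.2 ?_)
  have h2 := exp_quad (t := t) (by rw [abs_of_nonneg ht0]; exact ht1)
  have h3 : 0 ≤ Real.exp t - 1 := by
    have := Real.add_one_le_exp t
    linarith
  have hμ0 : 0 ≤ μ := le_trans (Finset.sum_nonneg (fun i _ => P1_nonneg hw i (A i))) hμ
  have h4 : μ * t ^ 2 ≤ M * t ^ 2 := mul_le_mul_of_nonneg_right hμM (sq_nonneg t)
  have h5 : M * t ^ 2 - t * a = -(a ^ 2) / (4 * M) := by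
    rw [ht]
    field_simp
    ring
  calc (∑ i ∈ S, P1 w i (A i)) * (Real.exp t - 1) ≤ μ * (Real.exp t - 1) :=
        mul_le_mul_of_nonneg_right hμ h3
    _ ≤ μ * (t + t ^ 2) := mul_le_mul_of_nonneg_left h2 hμ0
    _ ≤ -(a ^ 2) / (4 * M) + t * (μ + a) := by nlinarith

end

/-- the probabilities of the levels -/
noncomputable def pj (ℓ j : ℕ) : ℝ := 1 / 2 ^ (min ℓ (j + 1))

theorem pj_pos (ℓ j : ℕ) : 0 < pj ℓ j := by unfold pj; positivity

theorem pj_lt (ℓ j : ℕ) (h : j < ℓ) : pj ℓ j = 1 / 2 ^ (j + 1) := by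
  unfold pj
  rw [min_eq_right h]

theorem pj_eq (ℓ : ℕ) : pj ℓ ℓ = 1 / 2 ^ ℓ := by
  unfold pj
  rw [min_eq_left (Nat.le_succ ℓ)]

theorem pj_le_one (ℓ j : ℕ) : pj ℓ j ≤ 1 := by
  unfold pj
  rw [div_le_one (by positivity)]
  exact one_le_pow₀ (by norm_num)

theorem sum_pj (ℓ : ℕ) : ∑ j ∈ range (ℓ + 1), pj ℓ j = 1 := by
  rw [sum_range_succ, pj_eq]
  have h1 : ∑ j ∈ range ℓ, pj ℓ j = ∑ j ∈ range ℓ, (1 : ℝ) / 2 ^ (j + 1) :=
    sum_congr rfl (fun j hj => pj_lt ℓ j (mem_range.1 hj))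
  have h2 : ∀ k : ℕ, ∑ j ∈ range k, (1 : ℝ) / 2 ^ (j + 1) = 1 - 1 / 2 ^ k := by
    intro k
    induction k with
    | zero => simp
    | succ k ih =>
      rw [sum_range_succ, ih, pow_succ]
      field_simp
      ring
  rw [h1, h2]
  ring

theorem P1_At_eq (V : Type) (ℓ : ℕ) (v : V) (x : Fin ℓ → Bool) (j : ℕ) (hj : j ≤ ℓ) :
    P1 (wS V ℓ) v (fun y => At x y j) = pj ℓ j := by
  classical
  have h1 : ∀ j ∈ range (ℓ + 1), P1 (wS V ℓ) v (fun y => At x y j) ≤ pj ℓ j := by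
    intro j hj
    exact P1_At V ℓ v x j (min ℓ (j + 1)) (min_le_left _ _) (min_le_right _ _)
  have h2 : ∑ j ∈ range (ℓ + 1), P1 (wS V ℓ) v (fun y => At x y j) = 1 := by
    unfold P1
    rw [sum_comm]
    refine Eq.trans ?_ ((wS_wt V ℓ).one v)
    apply sum_congr rfl
    intro y _
    obtain ⟨i, hi, hAt⟩ := At_exists x y
    rw [sum_eq_single i]
    · rw [if_pos hAt]
    · intro k hk hki
      rw [if_neg]
      intro h
      exact hki (At_unique h hAt (by rw [mem_range] at hk; omega) hi)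
    · intro h
      exact absurd (mem_range.2 (by omega)) h
  exact (sum_eq_sum_iff_of_le h1).1 (h2.trans (sum_pj ℓ).symm) j (mem_range.2 (by omega))

section
variable {V : Type} [Fintype V] [DecidableEq V]

theorem cond (ℓ : ℕ) (v : V) (Q : (Fin ℓ → Bool) → (V → Fin ℓ → Bool) → Prop) (ρ : ℝ)
    (hQ : ∀ x σ σ', (∀ i, i ≠ v → σ i = σ' i) → (Q x σ ↔ Q x σ'))
    (hρ : ∀ x, Pr (wS V ℓ) (Q x) ≤ ρ) : Pr (wS V ℓ) (fun σ => Q (σ v) σ) ≤ ρ := by
  classical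
  have h3 : Pr (wS V ℓ) (fun σ => Q (σ v) σ) ≤
      Pr (wS V ℓ) (fun σ => ∃ x ∈ (univ : Finset (Fin ℓ → Bool)), σ v = x ∧ Q x σ) := by
    apply Pr_mono (wS_wt V ℓ)
    intro σ h
    exact ⟨σ v, mem_univ _, rfl, h⟩
  refine h3.trans ((Pr_exists _ (wS_wt V ℓ) (fun x σ => σ v = x ∧ Q x σ)).trans ?_)
  have h4 : ∀ x ∈ (univ : Finset (Fin ℓ → Bool)), Pr (wS V ℓ) (fun σ => σ v = x ∧ Q x σ) ≤
      (1 / 2 ^ ℓ) * ρ := by
    intro x _
    rw [Pr_indep (wS_wt V ℓ) (fun i => i = v) (fun σ => σ v = x) (fun σ => Q x σ)]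
    · apply mul_le_mul
      · have h5 := Pr_coord (wS_wt V ℓ) v (fun y => y = x)
        rw [h5]
        unfold P1 wS
        simp
      · exact hρ x
      · exact Pr_nonneg (wS_wt V ℓ) _
      · positivity
    · intro σ σ' h
      rw [h v rfl]
    · intro σ σ' h
      exact hQ x σ σ' h
  refine (Finset.sum_le_sum h4).trans ?_
  rw [Finset.sum_const, card_univ, nsmul_eq_mul]
  simp

open Classical in
theorem At_hi (ℓ : ℕ) (v : V) (N : Finset V) (hv : v ∉ N) (j : ℕ) (hj : j ≤ ℓ) (M a ρ : ℝ)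
    (hM : 0 < M) (ha : 0 ≤ a) (haM : a ≤ 2 * M) (hMN : pj ℓ j * N.card ≤ M)
    (hρ : Real.exp (-(a ^ 2) / (4 * M)) ≤ ρ) :
    Pr (wS V ℓ) (fun σ => pj ℓ j * N.card + a ≤
      ((N.filter (fun w => At (σ v) (σ w) j)).card : ℝ)) ≤ ρ := by
  apply cond ℓ v (fun x σ => pj ℓ j * N.card + a ≤ ((N.filter (fun w => At x (σ w) j)).card : ℝ))
  · intro x σ σ' h
    have h6 : N.filter (fun w => At x (σ w) j) = N.filter (fun w => At x (σ' w) j) := by
      apply Finset.filter_congr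
      intro w hw
      rw [h w (fun h' => hv (h' ▸ hw))]
    rw [h6]
  · intro x
    have hs : ∑ i ∈ N, P1 (wS V ℓ) i (fun y => At x y j) = pj ℓ j * N.card := by
      rw [sum_congr rfl (fun i _ => P1_At_eq V ℓ i x j hj), sum_const, nsmul_eq_mul, mul_comm]
    have h1 := upper3 (wS_wt V ℓ) N (fun _ y => At x y j) M a (pj ℓ j * N.card) hM ha haM hs.le hMN
    refine le_trans ?_ (h1.trans hρ)
    apply Pr_mono (wS_wt V ℓ)
    intro σ h
    unfold Nm
    refine le_trans h (le_of_eq ?_)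
    congr!

open Classical in
theorem At_lo (ℓ : ℕ) (v : V) (N : Finset V) (hv : v ∉ N) (j : ℕ) (hj : j ≤ ℓ) (M a ρ : ℝ)
    (hM : 0 < M) (ha : 0 ≤ a) (haM : a ≤ 2 * M) (hMN : pj ℓ j * N.card ≤ M)
    (hρ : Real.exp (-(a ^ 2) / (4 * M)) ≤ ρ) :
    Pr (wS V ℓ) (fun σ => ((N.filter (fun w => At (σ v) (σ w) j)).card : ℝ) ≤
      pj ℓ j * N.card - a) ≤ ρ := by
  apply cond ℓ v (fun x σ => ((N.filter (fun w => At x (σ w) j)).card : ℝ) ≤ pj ℓ j * N.card - a)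
  · intro x σ σ' h
    have h6 : N.filter (fun w => At x (σ w) j) = N.filter (fun w => At x (σ' w) j) := by
      apply Finset.filter_congr
      intro w hw
      rw [h w (fun h' => hv (h' ▸ hw))]
    rw [h6]
  · intro x
    have hs : ∑ i ∈ N, P1 (wS V ℓ) i (fun y => At x y j) = pj ℓ j * N.card := by
      rw [sum_congr rfl (fun i _ => P1_At_eq V ℓ i x j hj), sum_const, nsmul_eq_mul, mul_comm]
    have h1 := lower (wS_wt V ℓ) N (fun _ y => At x y j) M a (pj ℓ j * N.card - a) hM ha haM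
      (by rw [hs]; exact hMN) (by rw [hs]; linarith)
    refine le_trans ?_ (h1.trans hρ)
    apply Pr_mono (wS_wt V ℓ)
    intro σ h
    unfold Nm
    refine le_trans (le_of_eq ?_) h
    congr!

theorem dgL_eq (G : SimpleGraph V) {ℓ : ℕ} (σ : V → Fin ℓ → Bool) (j : ℕ) (v : V)
    [DecidablePred (fun w => At (σ v) (σ w) j)] :
    dgL G σ j v = ((nb G v).filter (fun w => At (σ v) (σ w) j)).card := by
  unfold dgL
  congr!

open Classical in
theorem choose_sigma (G : SimpleGraph V) (J d : ℕ) (hd : ∀ v, dg G v ≤ d) (hd0 : 0 < d)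
    (Hg : V → ℕ → Finset V) (hHg : ∀ v j, v ∉ Hg v j)
    (θ Y ρ ρ0 N MJ h1 : ℝ) (hθ : 0 < θ) (hY : 0 ≤ Y) (hYD : Y ≤ 2 * d) (hθD : θ ≤ 2 * d)
    (hMJ : 0 < MJ) (hMJd : (d : ℝ) / 2 ^ J ≤ MJ) (hθJ : θ ≤ 2 * MJ) (hN : 0 < N) (hh1 : 0 < h1)
    (e1 : Real.exp (-(Y ^ 2) / (4 * d)) ≤ ρ)
    (e2 : Real.exp (-(θ ^ 2) / (4 * MJ)) ≤ ρ)
    (e3 : Real.exp (-h1 / (16 * 2 ^ J)) ≤ ρ)
    (e4 : Real.exp (-(θ ^ 2) / (4 * d)) ≤ ρ0)
    (e5 : (Fintype.card V : ℝ) * (J + 2 + J * J) * ρ ≤ 1 / 4)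
    (e6 : (Fintype.card V : ℝ) * J * ρ0 ≤ N / 4) :
    ∃ σ : V → Fin J → Bool,
      (∀ v, ∀ j < J, (dgL G σ j v : ℝ) ≤ d / 2 ^ (j + 1) + Y) ∧
      (∀ v, (dg G v : ℝ) / 2 ^ J - θ ≤ dgL G σ J v ∧ (dgL G σ J v : ℝ) ≤ d / 2 ^ J + θ) ∧
      (∀ v, ∀ i < J, ∀ j < J, h1 ≤ ((Hg v j).card : ℝ) → ((Hg v j).card : ℝ) / 2 ^ (J + 1) ≤
        (((Hg v j).filter (fun w => At (σ v) (σ w) i)).card : ℝ)) ∧
      (((univ.filter (fun v => ∃ j < J,
        (d : ℝ) / 2 ^ (j + 1) + θ < (dgL G σ j v : ℝ))).card : ℝ) ≤ N) := by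
  have hw := wS_wt V J
  have hD0 : (0 : ℝ) < d := by exact_mod_cast hd0
  have hρ0 : 0 ≤ ρ := (Real.exp_pos _).le.trans e1
  have hρ00 : 0 ≤ ρ0 := (Real.exp_pos _).le.trans e4
  have hvn : ∀ v, v ∉ nb G v := fun v => by
    rw [mem_nb]
    exact G.loopless.irrefl v
  have hdv : ∀ v, (dg G v : ℝ) ≤ d := fun v => by exact_mod_cast hd v
  have hdv0 : ∀ v, (0 : ℝ) ≤ dg G v := fun v => Nat.cast_nonneg _
  have hpjM : ∀ v j, pj J j * ((nb G v).card : ℝ) ≤ d := by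
    intro v j
    have h1 := hdv v
    have h2 := pj_le_one J j
    have h3 := hdv0 v
    have h4 : ((nb G v).card : ℝ) = dg G v := rfl
    rw [h4]
    have h5 := (pj_pos J j).le
    nlinarith
  have hE1 : ∀ p ∈ (univ : Finset V) ×ˢ range J, Pr (wS V J) (fun σ =>
      (d : ℝ) / 2 ^ (p.2 + 1) + Y ≤ (dgL G σ p.2 p.1 : ℝ)) ≤ ρ := by
    rintro ⟨v, j⟩ hp
    rw [mem_product, mem_range] at hp
    have hj : j < J := hp.2
    refine le_trans (Pr_mono hw ?_) (At_hi J v (nb G v) (hvn v) j hj.le d Y ρ hD0 hY hYD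
      (hpjM v j) e1)
    intro σ h
    rw [dgL_eq] at h
    refine le_trans ?_ h
    have h2 : pj J j * ((nb G v).card : ℝ) ≤ d / 2 ^ (j + 1) := by
      rw [pj_lt J j hj, one_div, ← div_eq_inv_mul]
      exact div_le_div_of_nonneg_right (hdv v) (by positivity)
    simp only
    linarith
  have hE2 : ∀ v ∈ (univ : Finset V), Pr (wS V J) (fun σ =>
      (dgL G σ J v : ℝ) ≤ (dg G v : ℝ) / 2 ^ J - θ ∨ (d : ℝ) / 2 ^ J + θ ≤ (dgL G σ J v : ℝ)) ≤
      2 * ρ := by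
    intro v _
    have h2 : pj J J * ((nb G v).card : ℝ) = (dg G v : ℝ) / 2 ^ J := by
      rw [pj_eq, one_div, ← div_eq_inv_mul]
      rfl
    have h3 : (dg G v : ℝ) / 2 ^ J ≤ d / 2 ^ J :=
      div_le_div_of_nonneg_right (hdv v) (by positivity)
    have g1 := At_hi J v (nb G v) (hvn v) J le_rfl MJ θ ρ hMJ hθ.le hθJ
      (by rw [h2]; linarith) e2
    have g2 := At_lo J v (nb G v) (hvn v) J le_rfl MJ θ ρ hMJ hθ.le hθJ
      (by rw [h2]; linarith) e2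
    refine (Pr_or hw _ _).trans ?_
    have g3 : Pr (wS V J) (fun σ => (dgL G σ J v : ℝ) ≤ (dg G v : ℝ) / 2 ^ J - θ) ≤ ρ := by
      refine le_trans (Pr_mono hw ?_) g2
      intro σ h
      rw [dgL_eq] at h
      rw [h2]
      exact h
    have g4 : Pr (wS V J) (fun σ => (d : ℝ) / 2 ^ J + θ ≤ (dgL G σ J v : ℝ)) ≤ ρ := by
      refine le_trans (Pr_mono hw ?_) g1
      intro σ h
      rw [dgL_eq] at h
      rw [h2]
      linarith
    linarith
  have hE3 : ∀ p ∈ (univ : Finset V) ×ˢ (range J ×ˢ range J), Pr (wS V J) (fun σ =>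
      h1 ≤ ((Hg p.1 p.2.2).card : ℝ) ∧
      (((Hg p.1 p.2.2).filter (fun w => At (σ p.1) (σ w) p.2.1)).card : ℝ) <
        ((Hg p.1 p.2.2).card : ℝ) / 2 ^ (J + 1)) ≤ ρ := by
    rintro ⟨v, i, j⟩ hp
    rw [mem_product, mem_product, mem_range, mem_range] at hp
    have hi : i < J := hp.2.1
    simp only
    by_cases hh : h1 ≤ ((Hg v j).card : ℝ)
    · have hpos : 0 < pj J i * ((Hg v j).card : ℝ) :=
        mul_pos (pj_pos J i) (lt_of_lt_of_le hh1 hh)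
      have hpi : 1 / 2 ^ J ≤ pj J i := by
        rw [pj_lt J i hi]
        apply one_div_le_one_div_of_le (by positivity)
        exact pow_le_pow_right₀ (by norm_num) hi
      have g1 := At_lo J v (Hg v j) (hHg v j) i hi.le (pj J i * (Hg v j).card)
        (pj J i * (Hg v j).card / 2) ρ hpos (by positivity) (by linarith) le_rfl (by
          refine le_trans (Real.exp_le_exp.2 ?_) e3
          have g2 : -((pj J i * ((Hg v j).card : ℝ) / 2) ^ 2) /
              (4 * (pj J i * ((Hg v j).card : ℝ))) =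
              -(pj J i * ((Hg v j).card : ℝ)) / 16 := by
            field_simp
            ring
          rw [g2, neg_div, neg_div, neg_le_neg_iff]
          have g3 : 1 / 2 ^ J * h1 ≤ pj J i * ((Hg v j).card : ℝ) :=
            mul_le_mul hpi hh hh1.le (pj_pos J i).le
          calc h1 / (16 * 2 ^ J) = (1 / 2 ^ J * h1) / 16 := by field_simp
            _ ≤ _ := by linarith)
      refine le_trans (Pr_mono hw ?_) g1
      intro σ h
      have g4 : ((Hg v j).card : ℝ) / 2 ^ (J + 1) ≤ pj J i * ((Hg v j).card : ℝ) / 2 := by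
        have g5 : (1 / 2 ^ J) * ((Hg v j).card : ℝ) ≤ pj J i * ((Hg v j).card : ℝ) :=
          mul_le_mul_of_nonneg_right hpi (Nat.cast_nonneg _)
        calc ((Hg v j).card : ℝ) / 2 ^ (J + 1) = (1 / 2 ^ J) * ((Hg v j).card : ℝ) / 2 := by
              rw [pow_succ]
              field_simp
          _ ≤ _ := by linarith
      linarith [h.2]
    · refine le_trans ?_ hρ0
      have : Pr (wS V J) (fun σ => h1 ≤ ((Hg v j).card : ℝ) ∧
          (((Hg v j).filter (fun w => At (σ v) (σ w) i)).card : ℝ) <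
            ((Hg v j).card : ℝ) / 2 ^ (J + 1)) ≤ Ex (wS V J) (fun _ => 0) := by
        apply Ex_mono hw
        intro σ
        rw [if_neg (fun h => hh h.1)]
      rwa [Ex_const hw] at this
  set n : ℝ := (Fintype.card V : ℝ) with hn
  have hn0 : 0 ≤ n := Nat.cast_nonneg _
  have hJ0 : (0 : ℝ) ≤ J := Nat.cast_nonneg J
  have hH : Pr (wS V J) (fun σ => (∃ p ∈ (univ : Finset V) ×ˢ range J,
      (d : ℝ) / 2 ^ (p.2 + 1) + Y ≤ (dgL G σ p.2 p.1 : ℝ)) ∨
      ((∃ v ∈ (univ : Finset V), ((dgL G σ J v : ℝ) ≤ (dg G v : ℝ) / 2 ^ J - θ ∨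
        (d : ℝ) / 2 ^ J + θ ≤ (dgL G σ J v : ℝ))) ∨
      ∃ p ∈ (univ : Finset V) ×ˢ (range J ×ˢ range J), (h1 ≤ ((Hg p.1 p.2.2).card : ℝ) ∧
      (((Hg p.1 p.2.2).filter (fun w => At (σ p.1) (σ w) p.2.1)).card : ℝ) <
        ((Hg p.1 p.2.2).card : ℝ) / 2 ^ (J + 1)))) ≤ 1 / 4 := by
    refine (Pr_or hw _ _).trans ?_
    have g1 := (Pr_exists _ hw (fun (p : V × ℕ) (σ : V → Fin J → Bool) =>
      (d : ℝ) / 2 ^ (p.2 + 1) + Y ≤ (dgL G σ p.2 p.1 : ℝ))).trans (sum_le_sum hE1)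
    have g2 := (Pr_exists _ hw (fun (v : V) (σ : V → Fin J → Bool) =>
      ((dgL G σ J v : ℝ) ≤ (dg G v : ℝ) / 2 ^ J - θ ∨
        (d : ℝ) / 2 ^ J + θ ≤ (dgL G σ J v : ℝ)))).trans (sum_le_sum hE2)
    have g3 := (Pr_exists _ hw (fun (p : V × ℕ × ℕ) (σ : V → Fin J → Bool) =>
      (h1 ≤ ((Hg p.1 p.2.2).card : ℝ) ∧
      (((Hg p.1 p.2.2).filter (fun w => At (σ p.1) (σ w) p.2.1)).card : ℝ) <
        ((Hg p.1 p.2.2).card : ℝ) / 2 ^ (J + 1)))).trans (sum_le_sum hE3)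
    have g4 := Pr_or hw (fun σ => (∃ v ∈ (univ : Finset V),
      ((dgL G σ J v : ℝ) ≤ (dg G v : ℝ) / 2 ^ J - θ ∨
        (d : ℝ) / 2 ^ J + θ ≤ (dgL G σ J v : ℝ))))
      (fun σ => ∃ p ∈ (univ : Finset V) ×ˢ (range J ×ˢ range J),
        (h1 ≤ ((Hg p.1 p.2.2).card : ℝ) ∧
      (((Hg p.1 p.2.2).filter (fun w => At (σ p.1) (σ w) p.2.1)).card : ℝ) <
        ((Hg p.1 p.2.2).card : ℝ) / 2 ^ (J + 1)))
    rw [sum_const, card_product, card_univ, card_range, nsmul_eq_mul] at g1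
    rw [sum_const, card_univ, nsmul_eq_mul] at g2
    rw [sum_const, card_product, card_product, card_univ, card_range, nsmul_eq_mul] at g3
    push_cast at g1 g2 g3
    rw [← hn] at g1 g2 g3
    nlinarith
  obtain ⟨σ, hσ1, hσ2⟩ := exists_good' hw _ (fun σ => ((univ.filter (fun v => ∃ j < J,
        (d : ℝ) / 2 ^ (j + 1) + θ < (dgL G σ j v : ℝ))).card : ℝ)) N hN hH
      (fun ω => Nat.cast_nonneg _) (by
    have g1 : ∀ σ : V → Fin J → Bool, ((univ.filter (fun v => ∃ j < J,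
        (d : ℝ) / 2 ^ (j + 1) + θ < (dgL G σ j v : ℝ))).card : ℝ) ≤
        ∑ v : V, ∑ j ∈ range J,
          (if (d : ℝ) / 2 ^ (j + 1) + θ ≤ (dgL G σ j v : ℝ) then (1 : ℝ) else 0) := by
      intro σ
      rw [← sum_boole (R := ℝ)]
      apply sum_le_sum
      intro v _
      by_cases hx : ∃ j < J, (d : ℝ) / 2 ^ (j + 1) + θ < (dgL G σ j v : ℝ)
      · rw [if_pos hx]
        obtain ⟨j, hj, hx⟩ := hx
        have g3 := single_le_sum (f := fun j =>
          (if (d : ℝ) / 2 ^ (j + 1) + θ ≤ (dgL G σ j v : ℝ) then (1 : ℝ) else 0))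
          (fun j _ => by positivity) (mem_range.2 hj)
        rw [if_pos hx.le] at g3
        exact g3
      · rw [if_neg hx]
        exact sum_nonneg (fun j _ => by positivity)
    refine (Ex_mono hw g1).trans ?_
    rw [Ex_sum univ]
    have g4 : ∀ v ∈ (univ : Finset V), Ex (wS V J) (fun σ => ∑ j ∈ range J,
          (if (d : ℝ) / 2 ^ (j + 1) + θ ≤ (dgL G σ j v : ℝ) then (1 : ℝ) else 0)) ≤
          J * ρ0 := by
      intro v _
      rw [Ex_sum (range J)]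
      have g6 : ∀ j ∈ range J, Ex (wS V J) (fun σ =>
          (if (d : ℝ) / 2 ^ (j + 1) + θ ≤ (dgL G σ j v : ℝ) then (1 : ℝ) else 0)) ≤ ρ0 := by
        intro j hj
        have hj' := mem_range.1 hj
        refine le_trans ?_ (At_hi J v (nb G v) (hvn v) j hj'.le d θ ρ0 hD0 hθ.le hθD
          (hpjM v j) e4)
        have g7 : Ex (wS V J) (fun σ =>
          (if (d : ℝ) / 2 ^ (j + 1) + θ ≤ (dgL G σ j v : ℝ) then (1 : ℝ) else 0)) =
          Pr (wS V J) (fun σ => (d : ℝ) / 2 ^ (j + 1) + θ ≤ (dgL G σ j v : ℝ)) := by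
          unfold Pr
          congr!
        rw [g7]
        apply Pr_mono hw
        intro σ h
        rw [dgL_eq] at h
        refine le_trans ?_ h
        have h2 : pj J j * ((nb G v).card : ℝ) ≤ d / 2 ^ (j + 1) := by
          rw [pj_lt J j hj', one_div, ← div_eq_inv_mul]
          exact div_le_div_of_nonneg_right (hdv v) (by positivity)
        linarith
      refine (sum_le_sum g6).trans ?_
      rw [sum_const, card_range, nsmul_eq_mul]
    refine le_trans (sum_le_sum g4) ?_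
    rw [sum_const, card_univ, nsmul_eq_mul]
    refine le_trans (le_of_eq ?_) e6
    ring)
  push Not at hσ1
  obtain ⟨k1, k2, k3⟩ := hσ1
  refine ⟨σ, ?_, ?_, ?_, hσ2⟩
  · intro v j hj
    exact (k1 (v, j) (mem_product.2 ⟨mem_univ _, mem_range.2 hj⟩)).le
  · intro v
    have := k2 v (mem_univ _)
    exact ⟨this.1.le, this.2.le⟩
  · intro v i hi j hj hh
    exact k3 (v, i, j) (mem_product.2 ⟨mem_univ _, mem_product.2
      ⟨mem_range.2 hi, mem_range.2 hj⟩⟩) hh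

end

end Pool.Agent.K4H76.LD
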