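import Pool.Agent.K4H76.LR.Exist

/-!
# Random levels for the colours
-/

set_option autoImplicit false
set_option linter.unusedSectionVars false

namespace Pool.Agent.K4H76.LD

open Finset Pool.Agent.H162R2.Sparse Pool.Agent.H162R2.AG Pool.Agent.K4H76.LR

section
variable {ι β : Type} [Fintype ι] [DecidableEq ι] [Fintype β]

theorem exists_good {w : ι → β → ℝ} (hw : Wt w) (H : (ι → β) → Prop) (f : (ι → β) → ℝ) (N : ℝ)
    (hN : 0 < N) (hH : Pr w H ≤ 1 / 4) (hf0 : ∀ ω, 0 ≤ f ω) (hf : Ex w f ≤ N / 4) :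
    ∃ ω, ¬ H ω ∧ f ω ≤ N := by
  classical
  obtain ⟨ω, hω⟩ := exists_le hw (fun ω => (if H ω then (1 : ℝ) else 0) + (1 / N) * f ω) (1 / 2) (by
    rw [Ex_add, Ex_mul]
    have h1 : Ex w (fun ω => if H ω then (1 : ℝ) else 0) ≤ 1 / 4 := by
      refine le_trans (le_of_eq ?_) hH
      unfold Pr
      congr!
    have h2 : (1 / N) * Ex w f ≤ (1 / N) * (N / 4) := mul_le_mul_of_nonneg_left hf (by positivity)
    have h3 : (1 / N) * (N / 4) = 1 / 4 := by field_simp
    linarith)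
  refine ⟨ω, ?_, ?_⟩
  · intro h
    rw [if_pos h] at hω
    have : 0 ≤ (1 / N) * f ω := mul_nonneg (by positivity) (hf0 ω)
    linarith
  · have h1 : (0 : ℝ) ≤ (if H ω then (1 : ℝ) else 0) := by split_ifs <;> norm_num
    have h2 : (1 / N) * f ω ≤ 1 := by linarith
    rw [one_div, inv_mul_le_iff₀ hN] at h2
    linarith

theorem Pr_false {w : ι → β → ℝ} (hw : Wt w) (H : (ι → β) → Prop) (h : ∀ ω, ¬ H ω) :
    Pr w H ≤ 0 := by
  classical
  unfold Pr
  apply le_of_eq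
  have h6 : (fun ω => if H ω then (1 : ℝ) else 0) = fun _ => 0 := by
    funext ω
    rw [if_neg (h ω)]
  refine Eq.trans ?_ (Ex_const hw 0)
  rw [← h6]

theorem upper2 {w : ι → β → ℝ} (hw : Wt w) (S : Finset ι) (A : ι → β → Prop) (M a μ : ℝ)
    (hM : 0 < M) (ha : 0 ≤ a) (haM : a ≤ 2 * M) (hμ : ∑ i ∈ S, P1 w i (A i) ≤ μ) (hμM : μ ≤ M) :
    Pr w (fun ω => μ + a ≤ Nm S A ω) ≤ Real.exp (-(a ^ 2) / (4 * M)) := by
  set t : ℝ := a / (2 * M) with ht
  have ht0 : 0 ≤ t := by positivity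
  have ht1 : t ≤ 1 := by rw [ht, div_le_one (by positivity)]; exact haM
  have h1 := markov hw (fun ω => μ + a ≤ Nm S A ω) (fun ω => Real.exp (t * Nm S A ω))
    (Real.exp (t * (μ + a))) (Real.exp_pos _) (fun ω => (Real.exp_pos _).le) (fun ω hω =>
      Real.exp_le_exp.2 (mul_le_mul_of_nonneg_left hω ht0))
  refine h1.trans ?_
  rw [div_le_iff₀ (Real.exp_pos _), ← Real.exp_add]
  refine (mgf hw S A t).trans (Real.exp_le_exp.2 ?_)
  have h2 := exp_quad (t := t) (by rw [abs_of_nonneg ht0]; exact ht1)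
  have h3 : 0 ≤ Real.exp t - 1 := by
    have := Real.add_one_le_exp t
    linarith
  have hμ0 : 0 ≤ μ := le_trans (Finset.sum_nonneg (fun i _ => P1_nonneg hw i (A i))) hμ
  have h4 : μ * t ^ 2 ≤ M * t ^ 2 := mul_le_mul_of_nonneg_right hμM (sq_nonneg t)
  have h5 : M * t ^ 2 - t * a = -(a ^ 2) / (4 * M) := by
    rw [ht]
    field_simp
    ring
  calc (∑ i ∈ S, P1 w i (A i)) * (Real.exp t - 1) ≤ μ * (Real.exp t - 1) :=
        mul_le_mul_of_nonneg_right hμ h3
    _ ≤ μ * (t + t ^ 2) := mul_le_mul_of_nonneg_left h2 hμ0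
    _ ≤ -(a ^ 2) / (4 * M) + t * (μ + a) := by nlinarith

end

theorem sum_P1_wQ (C : Finset ℕ) (ℓ : ℕ) (q : ℕ → ℝ) (S : Finset ℕ) (hS : S ⊆ C) (j : ℕ)
    (hj : j ≤ ℓ) : ∑ i ∈ univ.filter (fun c : {c // c ∈ C} => c.1 ∈ S),
      P1 (wQ C ℓ q) i (fun b => b.val = j) = q j * S.card := by
  classical
  rw [Finset.sum_congr rfl (fun i _ => P1_wQ C ℓ q j hj i), Finset.sum_const, nsmul_eq_mul,
    mul_comm]
  congr 2
  refine card_bij (fun c _ => c.1) ?_ ?_ ?_
  · intro c hc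
    exact (mem_filter.1 hc).2
  · intro c _ c' _ h
    exact Subtype.ext h
  · intro c hc
    exact ⟨⟨c, hS hc⟩, mem_filter.2 ⟨mem_univ _, hc⟩, rfl⟩

theorem cl_lo (C : Finset ℕ) (ℓ : ℕ) (q : ℕ → ℝ) (hw : Wt (wQ C ℓ q)) (S : Finset ℕ)
    (hS : S ⊆ C) (j : ℕ) (hj : j ≤ ℓ)
    (M a ρ : ℝ) (hM : 0 < M) (ha : 0 ≤ a) (haM : a ≤ 2 * M) (hMq : q j * S.card ≤ M)
    (hρ : Real.exp (-(a ^ 2) / (4 * M)) ≤ ρ) :
    Pr (wQ C ℓ q) (fun ω => (cl S (tauOf C ℓ ω) j : ℝ) ≤ q j * S.card - a) ≤ ρ := by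
  classical
  have h1 := lower hw (univ.filter (fun c : {c // c ∈ C} => c.1 ∈ S))
    (fun _ b => b.val = j) M a (q j * S.card - a) hM ha haM
    (by rw [sum_P1_wQ C ℓ q S hS j hj]; exact hMq) (by rw [sum_P1_wQ C ℓ q S hS j hj]; linarith)
  refine le_trans ?_ (h1.trans hρ)
  apply Pr_mono hw
  intro ω h
  rw [cl_tauOf C ℓ ω S hS j] at h
  exact h

theorem cl_hi (C : Finset ℕ) (ℓ : ℕ) (q : ℕ → ℝ) (hw : Wt (wQ C ℓ q)) (S : Finset ℕ)
    (hS : S ⊆ C) (j : ℕ) (hj : j ≤ ℓ)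
    (M a ρ : ℝ) (hM : 0 < M) (ha : 0 ≤ a) (haM : a ≤ 2 * M) (hMq : q j * S.card ≤ M)
    (hρ : Real.exp (-(a ^ 2) / (4 * M)) ≤ ρ) :
    Pr (wQ C ℓ q) (fun ω => q j * S.card + a ≤ (cl S (tauOf C ℓ ω) j : ℝ)) ≤ ρ := by
  classical
  have h1 := upper2 hw (univ.filter (fun c : {c // c ∈ C} => c.1 ∈ S))
    (fun _ b => b.val = j) M a (q j * S.card) hM ha haM
    (by rw [sum_P1_wQ C ℓ q S hS j hj]) hMq
  refine le_trans ?_ (h1.trans hρ)
  apply Pr_mono hw
  intro ω h
  rw [cl_tauOf C ℓ ω S hS j] at h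
  exact h

section
variable {V : Type} [Fintype V] [DecidableEq V]

open Classical in
theorem choose_tau (G : SimpleGraph V) (J D' d : ℕ) (hd : ∀ v, dg G v ≤ d)
    (L0 : V → V → Finset ℕ) (hL : ∀ v w, G.Adj v w → (L0 v w).card = D')
    (q : ℕ → ℝ) (hq0 : ∀ j ≤ J, 0 < q j) (hq : ∑ j ∈ range (J + 1), q j = 1)
    (θ Y c0 g3 ρ ρ0 f1 N MJ : ℝ) (hD : 0 < D') (hθ : 0 < θ) (hY : 0 ≤ Y) (hYD : Y ≤ 2 * D')
    (hc0 : 0 < c0) (hc1 : c0 ≤ 1) (hθD : θ ≤ 2 * D') (hθc : θ / 2 ≤ 2 * (c0 * D'))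
    (hMJ : 0 < MJ) (hMJq : q J * D' ≤ MJ) (hθJ : θ ≤ 2 * MJ)
    (hN : 0 < N) (hf1 : 0 < f1)
    (h1 : Real.exp (-(Y ^ 2) / (4 * D')) ≤ ρ)
    (h2 : Real.exp (-(θ ^ 2) / (4 * MJ)) ≤ ρ)
    (h3 : Real.exp (-((θ / 2) ^ 2) / (4 * (c0 * D'))) ≤ ρ)
    (h4 : ∀ j < J, Real.exp (-(q j * (c0 * D')) / 16) ≤ ρ)
    (h5 : ∀ j < J, g3 ≤ q j * (c0 * D') / 2)
    (h6 : Real.exp (-(θ ^ 2) / (4 * D')) ≤ ρ0)
    (h7 : (Fintype.card V : ℝ) ^ 3 * (5 * (J + 1)) * ρ ≤ 1 / 4)
    (h8 : (Fintype.card V : ℝ) * d * J * ρ0 / f1 ≤ N / 4) :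
    ∃ τ : ℕ → ℕ,
      (∀ v w, G.Adj v w → ∀ j < J, q j * D' - Y ≤ cl (L0 v w) τ j ∧
        (cl (L0 v w) τ j : ℝ) ≤ q j * D' + Y) ∧
      (∀ v w, G.Adj v w → q J * D' - θ ≤ cl (L0 v w) τ J ∧
        (cl (L0 v w) τ J : ℝ) ≤ q J * D' + θ) ∧
      (∀ v w w', G.Adj v w → G.Adj v w' → ∀ j < J,
        (cl (L0 v w) τ j : ℝ) + θ ≤ cl (L0 v w') τ j →
        g3 ≤ (((L0 v w' \ L0 v w).filter (fun c => τ c = j)).card : ℝ)) ∧
      (∀ v w, ∑ j ∈ range (J + 1), cl (L0 v w) τ j = (L0 v w).card) ∧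
      (((univ.filter (fun v => f1 < (((nb G v).filter (fun w => ∃ j < J,
        (cl (L0 v w) τ j : ℝ) < q j * D' - θ)).card : ℝ))).card : ℝ) ≤ N) := by
  obtain ⟨C, hLC⟩ : ∃ C : Finset ℕ, ∀ v w, L0 v w ⊆ C := by
    refine ⟨univ.biUnion (fun v : V => univ.biUnion (fun w : V => L0 v w)), ?_⟩
    intro v w c hc
    rw [mem_biUnion]
    exact ⟨v, mem_univ _, mem_biUnion.2 ⟨w, mem_univ _, hc⟩⟩
  have hw := wQ_wt C J q (fun j hj => (hq0 j hj).le) hq
  have hD0 : (0 : ℝ) < D' := by exact_mod_cast hD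
  have hρ0 : 0 ≤ ρ := (Real.exp_pos _).le.trans h1
  have hρ00 : 0 ≤ ρ0 := (Real.exp_pos _).le.trans h6
  have hq1 : ∀ j ≤ J, q j ≤ 1 := by
    intro j hj
    rw [← hq]
    exact single_le_sum (f := q) (fun i hi => (hq0 i (by rw [mem_range] at hi; omega)).le)
      (mem_range.2 (by omega))
  set n : ℝ := (Fintype.card V : ℝ) with hn
  have hn0 : 0 ≤ n := Nat.cast_nonneg _
  -- the hard events
  set E1 : (V × V) × ℕ → ({c // c ∈ C} → Fin (J + 1)) → Prop := fun p ω =>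
    (G.Adj p.1.1 p.1.2 ∧ ((cl (L0 p.1.1 p.1.2) (tauOf C J ω) p.2 : ℝ) ≤ q p.2 * D' - Y ∨
      q p.2 * D' + Y ≤ (cl (L0 p.1.1 p.1.2) (tauOf C J ω) p.2 : ℝ))) with hE1
  set E2 : (V × V) → ({c // c ∈ C} → Fin (J + 1)) → Prop := fun p ω =>
    (G.Adj p.1 p.2 ∧ ((cl (L0 p.1 p.2) (tauOf C J ω) J : ℝ) ≤ q J * D' - θ ∨
      q J * D' + θ ≤ (cl (L0 p.1 p.2) (tauOf C J ω) J : ℝ))) with hE2
  set E3 : (V × V × V) × ℕ → ({c // c ∈ C} → Fin (J + 1)) → Prop := fun p ω =>
    (G.Adj p.1.1 p.1.2.1 ∧ G.Adj p.1.1 p.1.2.2 ∧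
      (((L0 p.1.1 p.1.2.2 \ L0 p.1.1 p.1.2.1).card : ℝ) < c0 * D' ∧
        (q p.2 * ((L0 p.1.1 p.1.2.2 \ L0 p.1.1 p.1.2.1).card : ℝ) + θ / 2 ≤
          cl (L0 p.1.1 p.1.2.2 \ L0 p.1.1 p.1.2.1) (tauOf C J ω) p.2 ∨
        (cl (L0 p.1.1 p.1.2.1 \ L0 p.1.1 p.1.2.2) (tauOf C J ω) p.2 : ℝ) ≤
          q p.2 * ((L0 p.1.1 p.1.2.1 \ L0 p.1.1 p.1.2.2).card : ℝ) - θ / 2) ∨
      (c0 * D' ≤ ((L0 p.1.1 p.1.2.2 \ L0 p.1.1 p.1.2.1).card : ℝ) ∧
        (cl (L0 p.1.1 p.1.2.2 \ L0 p.1.1 p.1.2.1) (tauOf C J ω) p.2 : ℝ) ≤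
          q p.2 * ((L0 p.1.1 p.1.2.2 \ L0 p.1.1 p.1.2.1).card : ℝ) / 2))) with hE3
  have hE1p : ∀ p ∈ (univ : Finset (V × V)) ×ˢ range J, Pr (wQ C J q) (E1 p) ≤ 2 * ρ := by
    rintro ⟨⟨v, w⟩, j⟩ hp
    rw [mem_product, mem_range] at hp
    have hj : j < J := hp.2
    by_cases hvw : G.Adj v w
    · have hc := hL v w hvw
      have e1 := cl_lo C J q hw (L0 v w) (hLC v w) j hj.le D' Y ρ hD0 hY hYD (by
        rw [hc]
        have := hq1 j hj.le
        nlinarith) h1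
      have e2 := cl_hi C J q hw (L0 v w) (hLC v w) j hj.le D' Y ρ hD0 hY hYD (by
        rw [hc]
        have := hq1 j hj.le
        nlinarith) h1
      rw [hc] at e1 e2
      have e3 := Pr_or hw (fun ω => (cl (L0 v w) (tauOf C J ω) j : ℝ) ≤ q j * D' - Y)
        (fun ω => q j * D' + Y ≤ (cl (L0 v w) (tauOf C J ω) j : ℝ))
      refine le_trans (Pr_mono hw (fun ω h => h.2)) (e3.trans ?_)
      linarith
    · have : Pr (wQ C J q) (E1 ((v, w), j)) ≤ 0 := Pr_false hw _ (fun ω h => hvw h.1)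
      linarith
  have hE2p : ∀ p ∈ (univ : Finset (V × V)), Pr (wQ C J q) (E2 p) ≤ 2 * ρ := by
    rintro ⟨v, w⟩ _
    by_cases hvw : G.Adj v w
    · have hc := hL v w hvw
      have e1 := cl_lo C J q hw (L0 v w) (hLC v w) J le_rfl MJ θ ρ hMJ hθ.le hθJ (by
        rw [hc]
        exact hMJq) h2
      have e2 := cl_hi C J q hw (L0 v w) (hLC v w) J le_rfl MJ θ ρ hMJ hθ.le hθJ (by
        rw [hc]
        exact hMJq) h2
      rw [hc] at e1 e2
      have e3 := Pr_or hw (fun ω => (cl (L0 v w) (tauOf C J ω) J : ℝ) ≤ q J * D' - θ)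
        (fun ω => q J * D' + θ ≤ (cl (L0 v w) (tauOf C J ω) J : ℝ))
      refine le_trans (Pr_mono hw (fun ω h => h.2)) (e3.trans ?_)
      linarith
    · have : Pr (wQ C J q) (E2 (v, w)) ≤ 0 := Pr_false hw _ (fun ω h => hvw h.1)
      linarith
  have hE3p : ∀ p ∈ (univ : Finset (V × V × V)) ×ˢ range J, Pr (wQ C J q) (E3 p) ≤ 3 * ρ := by
    rintro ⟨⟨v, w, w'⟩, j⟩ hp
    rw [mem_product, mem_range] at hp
    have hj : j < J := hp.2
    by_cases hvw : G.Adj v w ∧ G.Adj v w'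
    · have hc := hL v w hvw.1
      have hc' := hL v w' hvw.2
      have hcc : (L0 v w' \ L0 v w).card = (L0 v w \ L0 v w').card := by
        have e1 := card_sdiff_add_card_inter (L0 v w') (L0 v w)
        have e2 := card_sdiff_add_card_inter (L0 v w) (L0 v w')
        rw [inter_comm] at e2
        omega
      have hqj := hq1 j hj.le
      have hqj0 := hq0 j hj.le
      rcases lt_or_ge ((L0 v w' \ L0 v w).card : ℝ) (c0 * D') with hs | hs
      · have e1 := cl_hi C J q hw (L0 v w' \ L0 v w) (sdiff_subset.trans (hLC v w')) j hj.le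
          (c0 * D') (θ / 2) ρ (by positivity) (by positivity) hθc (by
            have : (0 : ℝ) ≤ ((L0 v w' \ L0 v w).card : ℝ) := Nat.cast_nonneg _
            nlinarith) h3
        have e2 := cl_lo C J q hw (L0 v w \ L0 v w') (sdiff_subset.trans (hLC v w)) j hj.le
          (c0 * D') (θ / 2) ρ (by positivity) (by positivity) hθc (by
            rw [← hcc]
            have : (0 : ℝ) ≤ ((L0 v w' \ L0 v w).card : ℝ) := Nat.cast_nonneg _
            nlinarith) h3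
        have e3 := Pr_or hw (fun ω => q j * ((L0 v w' \ L0 v w).card : ℝ) + θ / 2 ≤
          cl (L0 v w' \ L0 v w) (tauOf C J ω) j)
          (fun ω => (cl (L0 v w \ L0 v w') (tauOf C J ω) j : ℝ) ≤
            q j * ((L0 v w \ L0 v w').card : ℝ) - θ / 2)
        refine le_trans (Pr_mono hw (fun ω h => ?_)) (e3.trans (by linarith))
        rcases h.2.2 with h' | h'
        · exact h'.2
        · exact absurd hs (not_lt.2 h'.1)
      · have hpos : 0 < q j * ((L0 v w' \ L0 v w).card : ℝ) :=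
          mul_pos hqj0 (lt_of_lt_of_le (by positivity) hs)
        have e1 := cl_lo C J q hw (L0 v w' \ L0 v w) (sdiff_subset.trans (hLC v w')) j hj.le
          (q j * ((L0 v w' \ L0 v w).card : ℝ)) (q j * ((L0 v w' \ L0 v w).card : ℝ) / 2) ρ hpos
          (by positivity) (by linarith) le_rfl (by
            refine le_trans (Real.exp_le_exp.2 ?_) (h4 j hj)
            have e2 : -((q j * ((L0 v w' \ L0 v w).card : ℝ) / 2) ^ 2) /
                (4 * (q j * ((L0 v w' \ L0 v w).card : ℝ))) =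
                -(q j * ((L0 v w' \ L0 v w).card : ℝ)) / 16 := by
              field_simp
              ring
            rw [e2]
            have := mul_le_mul_of_nonneg_left hs hqj0.le
            linarith)
        refine le_trans (Pr_mono hw (fun ω h => ?_)) (e1.trans (by linarith))
        rcases h.2.2 with h' | h'
        · exact absurd h'.1 (not_lt.2 hs)
        · have := h'.2
          simp only at this ⊢
          linarith
    · have : Pr (wQ C J q) (E3 ((v, w, w'), j)) ≤ 0 := Pr_false hw _ (fun ω h => hvw ⟨h.1, h.2.1⟩)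
      linarith
  by_cases hV : Fintype.card V = 0
  · have hemp : IsEmpty V := Fintype.card_eq_zero_iff.1 hV
    refine ⟨fun _ => 0, fun v => (hemp.false v).elim, fun v => (hemp.false v).elim,
      fun v => (hemp.false v).elim, fun v => (hemp.false v).elim, ?_⟩
    have : (univ : Finset V) = ∅ := univ_eq_empty
    rw [this, filter_empty, card_empty, Nat.cast_zero]
    exact hN.le
  have hn1 : 1 ≤ n := by
    rw [hn]
    exact_mod_cast Nat.one_le_iff_ne_zero.2 hV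
  have hn2 : n ^ 2 ≤ n ^ 3 := pow_le_pow_right₀ hn1 (by norm_num)
  -- all hard events
  have hH : Pr (wQ C J q) (fun ω => (∃ p ∈ (univ : Finset (V × V)) ×ˢ range J, E1 p ω) ∨
      ((∃ p ∈ (univ : Finset (V × V)), E2 p ω) ∨
      ∃ p ∈ (univ : Finset (V × V × V)) ×ˢ range J, E3 p ω)) ≤ 1 / 4 := by
    refine (Pr_or hw _ _).trans ?_
    have e1 := (Pr_exists ((univ : Finset (V × V)) ×ˢ range J) hw E1).trans (sum_le_sum hE1p)
    have e2 := (Pr_exists (univ : Finset (V × V)) hw E2).trans (sum_le_sum hE2p)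
    have e3 := (Pr_exists ((univ : Finset (V × V × V)) ×ˢ range J) hw E3).trans (sum_le_sum hE3p)
    have e4 := Pr_or hw (fun ω => ∃ p ∈ (univ : Finset (V × V)), E2 p ω)
      (fun ω => ∃ p ∈ (univ : Finset (V × V × V)) ×ˢ range J, E3 p ω)
    rw [sum_const, card_product, card_univ, Fintype.card_prod, card_range, nsmul_eq_mul] at e1
    rw [sum_const, card_univ, Fintype.card_prod, nsmul_eq_mul] at e2
    rw [sum_const, card_product, card_univ, Fintype.card_prod, Fintype.card_prod, card_range,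
      nsmul_eq_mul] at e3
    push_cast at e1 e2 e3
    rw [← hn] at e1 e2 e3
    have hJ0 : (0 : ℝ) ≤ J := Nat.cast_nonneg J
    have e5 : n * n * J * (2 * ρ) ≤ n ^ 3 * J * (2 * ρ) := by
      have : n * n ≤ n ^ 3 := by nlinarith
      have h0 : (0 : ℝ) ≤ J * (2 * ρ) := by positivity
      nlinarith
    have e6 : n * n * (2 * ρ) ≤ n ^ 3 * (2 * ρ) := by
      have : n * n ≤ n ^ 3 := by nlinarith
      have h0 : (0 : ℝ) ≤ (2 * ρ) := by positivity
      nlinarith
    have e7 : n * (n * n) * J * (3 * ρ) = n ^ 3 * J * (3 * ρ) := by ring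
    have e8 : 0 ≤ n ^ 3 * ρ := by positivity
    nlinarith
  obtain ⟨ω, hω1, hω2⟩ := exists_good hw _ (fun ω => ((univ.filter (fun v => f1 <
      (((nb G v).filter (fun w => ∃ j < J,
        (cl (L0 v w) (tauOf C J ω) j : ℝ) < q j * D' - θ)).card : ℝ))).card : ℝ)) N hN hH
      (fun ω => Nat.cast_nonneg _) (by
    have e1 : ∀ ω, ((univ.filter (fun v => f1 < (((nb G v).filter (fun w => ∃ j < J,
        (cl (L0 v w) (tauOf C J ω) j : ℝ) < q j * D' - θ)).card : ℝ))).card : ℝ) ≤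
        (1 / f1) * ∑ v : V, ∑ w ∈ nb G v, ∑ j ∈ range J,
          (if (cl (L0 v w) (tauOf C J ω) j : ℝ) ≤ q j * D' - θ then (1 : ℝ) else 0) := by
      intro ω
      rw [one_div, ← div_eq_inv_mul, le_div_iff₀ hf1, ← sum_boole (R := ℝ), sum_mul]
      apply sum_le_sum
      intro v _
      have e2 : (((nb G v).filter (fun w => ∃ j < J,
        (cl (L0 v w) (tauOf C J ω) j : ℝ) < q j * D' - θ)).card : ℝ) ≤
          ∑ w ∈ nb G v, ∑ j ∈ range J,
          (if (cl (L0 v w) (tauOf C J ω) j : ℝ) ≤ q j * D' - θ then (1 : ℝ) else 0) := by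
        rw [← sum_boole (R := ℝ)]
        apply sum_le_sum
        intro w _
        by_cases hx : ∃ j < J, (cl (L0 v w) (tauOf C J ω) j : ℝ) < q j * D' - θ
        · rw [if_pos hx]
          obtain ⟨j, hj, hx⟩ := hx
          have e3 := single_le_sum (f := fun j =>
            (if (cl (L0 v w) (tauOf C J ω) j : ℝ) ≤ q j * D' - θ then (1 : ℝ) else 0))
            (fun j _ => by positivity) (mem_range.2 hj)
          rw [if_pos hx.le] at e3
          exact e3
        · rw [if_neg hx]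
          exact sum_nonneg (fun j _ => by positivity)
      by_cases hx : f1 < (((nb G v).filter (fun w => ∃ j < J,
        (cl (L0 v w) (tauOf C J ω) j : ℝ) < q j * D' - θ)).card : ℝ)
      · rw [if_pos hx, one_mul]
        linarith
      · rw [if_neg hx, zero_mul]
        exact sum_nonneg (fun w _ => sum_nonneg (fun j _ => by positivity))
    refine (Ex_mono hw e1).trans ?_
    rw [Ex_mul, Ex_sum univ]
    have e4 : ∀ v ∈ (univ : Finset V), Ex (wQ C J q) (fun ω => ∑ w ∈ nb G v, ∑ j ∈ range J,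
          (if (cl (L0 v w) (tauOf C J ω) j : ℝ) ≤ q j * D' - θ then (1 : ℝ) else 0)) ≤
          d * (J * ρ0) := by
      intro v _
      rw [Ex_sum (nb G v)]
      have e5 : ∀ w ∈ nb G v, Ex (wQ C J q) (fun ω => ∑ j ∈ range J,
          (if (cl (L0 v w) (tauOf C J ω) j : ℝ) ≤ q j * D' - θ then (1 : ℝ) else 0)) ≤
          J * ρ0 := by
        intro w hvw
        rw [mem_nb] at hvw
        have hc := hL v w hvw
        rw [Ex_sum (range J)]
        have e6 : ∀ j ∈ range J, Ex (wQ C J q) (fun ω =>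
          (if (cl (L0 v w) (tauOf C J ω) j : ℝ) ≤ q j * D' - θ then (1 : ℝ) else 0)) ≤ ρ0 := by
          intro j hj
          have hj' := mem_range.1 hj
          have e7 := cl_lo C J q hw (L0 v w) (hLC v w) j hj'.le D' θ ρ0 hD0 hθ.le hθD (by
            rw [hc]
            have := hq1 j hj'.le
            nlinarith) h6
          rw [hc] at e7
          refine le_trans (le_of_eq ?_) e7
          unfold Pr
          congr!
        refine (sum_le_sum e6).trans ?_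
        rw [sum_const, card_range, nsmul_eq_mul]
      refine (sum_le_sum e5).trans ?_
      rw [sum_const, nsmul_eq_mul]
      apply mul_le_mul_of_nonneg_right _ (by positivity)
      exact_mod_cast hd v
    refine le_trans (mul_le_mul_of_nonneg_left (sum_le_sum e4) (by positivity)) ?_
    rw [sum_const, card_univ, nsmul_eq_mul]
    refine le_trans (le_of_eq ?_) h8
    ring)
  push Not at hω1
  obtain ⟨k1, k2, k3⟩ := hω1
  refine ⟨tauOf C J ω, ?_, ?_, ?_, ?_, ?_⟩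
  · intro v w hvw j hj
    have := k1 ((v, w), j) (mem_product.2 ⟨mem_univ _, mem_range.2 hj⟩)
    simp only [hE1, hvw, true_and, not_or, not_le] at this
    exact ⟨this.1.le, this.2.le⟩
  · intro v w hvw
    have := k2 (v, w) (mem_univ _)
    simp only [hE2, hvw, true_and, not_or, not_le] at this
    exact ⟨this.1.le, this.2.le⟩
  · intro v w w' hvw hvw' j hj hle
    have := k3 ((v, w, w'), j) (mem_product.2 ⟨mem_univ _, mem_range.2 hj⟩)
    simp only [hE3, hvw, hvw', true_and, not_or, not_and, not_le] at this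
    obtain ⟨m1, m2⟩ := this
    have hcc : (L0 v w' \ L0 v w).card = (L0 v w \ L0 v w').card := by
      have e1 := card_sdiff_add_card_inter (L0 v w') (L0 v w)
      have e2 := card_sdiff_add_card_inter (L0 v w) (L0 v w')
      have e3 := hL v w hvw
      have e4 := hL v w' hvw'
      rw [inter_comm] at e2
      omega
    have hdiff : ∀ A B : Finset ℕ, cl A (tauOf C J ω) j =
        cl (A \ B) (tauOf C J ω) j + cl (A ∩ B) (tauOf C J ω) j := by
      intro A B
      unfold cl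
      rw [← card_union_of_disjoint]
      · congr 1
        ext x
        simp only [mem_filter, mem_union, mem_sdiff, mem_inter]
        tauto
      · rw [disjoint_left]
        intro x hx1 hx2
        simp only [mem_filter, mem_sdiff, mem_inter] at hx1 hx2
        exact hx1.1.2 hx2.1.2
    have d1 := hdiff (L0 v w') (L0 v w)
    have d2 := hdiff (L0 v w) (L0 v w')
    rw [inter_comm] at d2
    have d3 : (cl (L0 v w) (tauOf C J ω) j : ℝ) = cl (L0 v w \ L0 v w') (tauOf C J ω) j +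
      cl (L0 v w' ∩ L0 v w) (tauOf C J ω) j := by exact_mod_cast d2
    have d4 : (cl (L0 v w') (tauOf C J ω) j : ℝ) = cl (L0 v w' \ L0 v w) (tauOf C J ω) j +
      cl (L0 v w' ∩ L0 v w) (tauOf C J ω) j := by exact_mod_cast d1
    rcases lt_or_ge ((L0 v w' \ L0 v w).card : ℝ) (c0 * D') with hs | hs
    · have m3 := m1 hs
      rw [hcc] at m3
      exfalso
      linarith [m3.1, m3.2]
    · have m3 := m2 hs
      have m4 := h5 j hj
      have m5 : q j * (c0 * D') ≤ q j * ((L0 v w' \ L0 v w).card : ℝ) :=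
        mul_le_mul_of_nonneg_left hs (hq0 j hj.le).le
      have m6 : (cl (L0 v w' \ L0 v w) (tauOf C J ω) j : ℝ) =
        (((L0 v w' \ L0 v w).filter (fun c => tauOf C J ω c = j)).card : ℝ) := rfl
      linarith
  · intro v w
    unfold cl
    rw [← card_biUnion]
    · congr 1
      ext x
      rw [mem_biUnion]
      constructor
      · rintro ⟨j, _, hj⟩
        exact (mem_filter.1 hj).1
      · intro hx
        refine ⟨tauOf C J ω x, mem_range.2 ?_, mem_filter.2 ⟨hx, rfl⟩⟩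
        unfold tauOf
        split_ifs
        · exact Fin.is_lt _
        · omega
    · intro i _ j _ hij
      rw [Function.onFun, disjoint_left]
      intro x hx1 hx2
      exact hij ((mem_filter.1 hx1).2.symm.trans (mem_filter.1 hx2).2)
  · exact hω2

end

end Pool.Agent.K4H76.LD
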