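import Pool.Agent.K4H76.LD.Asm2
import Pool.Agent.K4H76.LD.Tau
import Pool.Agent.K4H76.LD.Sig
import Pool.Agent.K4H76.LR.Core

/-!
# Graphs without dense small sets: lists a bit longer than the maximum degree
-/

set_option autoImplicit false
set_option linter.unusedSectionVars false

namespace Pool.Agent.K4H76.LD

open Finset Pool.Agent.H162R2.Sparse Pool.Agent.H162R2.AG Pool.Agent.K4H76.LR
  Pool.Agent.H892.LEC

theorem quantile {V : Type} (S : Finset V) (f : V → ℕ) (k : ℝ) (hS : S.Nonempty) (hk0 : 0 ≤ k)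
    (hk : k ≤ S.card) : ∃ x ∈ S, ((S.filter (fun w => f x < f w)).card : ℝ) ≤ k ∧
      k ≤ ((S.filter (fun w => f x ≤ f w)).card : ℝ) := by
  classical
  set Q : Finset V := S.filter (fun x => ((S.filter (fun w => f x < f w)).card : ℝ) ≤ k) with hQ
  obtain ⟨m, hm, hmax⟩ := exists_max_image S f hS
  have hmQ : m ∈ Q := by
    rw [hQ, mem_filter]
    refine ⟨hm, ?_⟩
    have : S.filter (fun w => f m < f w) = ∅ := by
      rw [filter_eq_empty_iff]
      intro w hw
      have := hmax w hw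
      omega
    rw [this, card_empty, Nat.cast_zero]
    exact hk0
  obtain ⟨x, hx, hmin⟩ := exists_min_image Q f ⟨m, hmQ⟩
  obtain ⟨hxS, hxk⟩ := mem_filter.1 hx
  refine ⟨x, hxS, hxk, ?_⟩
  by_contra hcon
  push Not at hcon
  have hne : (S.filter (fun w => f w < f x)).Nonempty := by
    by_contra hemp
    rw [not_nonempty_iff_eq_empty, filter_eq_empty_iff] at hemp
    have : S.filter (fun w => f x ≤ f w) = S := by
      rw [filter_eq_self]
      intro w hw
      have := hemp hw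
      omega
    rw [this] at hcon
    linarith
  obtain ⟨x', hx', hmax'⟩ := exists_max_image _ f hne
  obtain ⟨hx'S, hx'x⟩ := mem_filter.1 hx'
  have h1 : x' ∈ Q := by
    rw [hQ, mem_filter]
    refine ⟨hx'S, ?_⟩
    have h2 : S.filter (fun w => f x' < f w) ⊆ S.filter (fun w => f x ≤ f w) := by
      intro w hw
      obtain ⟨hwS, hw2⟩ := mem_filter.1 hw
      refine mem_filter.2 ⟨hwS, ?_⟩
      by_contra h3
      push Not at h3
      have := hmax' w (mem_filter.2 ⟨hwS, h3⟩)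
      omega
    have h3 : ((S.filter (fun w => f x' < f w)).card : ℝ) ≤
        ((S.filter (fun w => f x ≤ f w)).card : ℝ) := by
      exact_mod_cast card_le_card h2
    linarith
  have := hmin x' h1
  omega

open Classical in
theorem dense1 : ∃ C : ℝ, 1 ≤ C ∧ ∀ (n : ℕ), 2 ≤ n → ∀ (G : SimpleGraph (Fin n))
    (J t r z b d D' B N2 : ℕ) (L0 : Fin n → Fin n → Finset ℕ) (q : ℕ → ℝ)
    (θ Y e1 c c0 g3 φ f1 y N ρ ρ0 MJ h1 : ℝ),
    1 ≤ J → 0 < r → 0 < z → b ≤ z * r → 0 < θ → 0 ≤ Y →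
    0 ≤ φ → 0 < c → c ≤ 1 → 0 < f1 → 0 ≤ y → 0 < c0 → c0 ≤ 1 → 0 < MJ → 0 < N → 0 < h1 →
    (∀ v w, L0 v w = L0 w v) →
    (∀ v w, G.Adj v w → (L0 v w).card = D') →
    (∀ v, dg G v ≤ d) → d ≤ D' →
    (∀ j ≤ J, 0 < q j) → ∑ j ∈ range (J + 1), q j = 1 →
    (∀ j < J, (d : ℝ) / 2 ^ (j + 1) + e1 ≤ q j * D') →
    (∀ j < J, q j * D' + Y ≤ (d : ℝ) / 2 ^ (j + 1) + t) →
    Y ≤ 2 * d → θ ≤ 2 * d → θ / 2 ≤ 2 * (c0 * D') → q J * D' ≤ MJ → (d : ℝ) / 2 ^ J ≤ MJ →
    θ ≤ 2 * MJ →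
    Real.exp (-(Y ^ 2) / (4 * D')) ≤ ρ →
    Real.exp (-(θ ^ 2) / (4 * MJ)) ≤ ρ →
    Real.exp (-((θ / 2) ^ 2) / (4 * (c0 * D'))) ≤ ρ →
    (∀ j < J, Real.exp (-(q j * (c0 * D')) / 16) ≤ ρ) →
    (∀ j < J, g3 ≤ q j * (c0 * D') / 2) →
    Real.exp (-(θ ^ 2) / (4 * D')) ≤ ρ0 →
    (n : ℝ) ^ 3 * (5 * (J + 1)) * ρ ≤ 1 / 4 →
    (n : ℝ) * d * J * ρ0 / f1 ≤ N / 4 →
    Real.exp (-h1 / (16 * 2 ^ J)) ≤ ρ →
    (n : ℝ) * (J + 2 + J * J) * ρ ≤ 1 / 4 →
    (n : ℝ) * J * ρ0 ≤ N / 4 →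
    (2 * J * h1 ≤ f1) → (2 * J * h1 ≤ (d : ℝ) / 2 ^ J) →
    (∀ X : Finset (Fin n), X.card ≤ N2 → ep G X ≤ B * X.card) →
    (∀ X : Finset (Fin n), (X.card : ℝ) ≤ 2 * N →
      2 * (univ.filter (fun v => b < ((nb G v).filter (fun w => w ∈ X)).card)).card ≤ N2) →
    34 * (2 * B) * (1 + Real.log d) ≤ d →
    ((J * t * z : ℕ) : ℝ) ≤ h1 / 2 ^ (J + 1) - b - B →
    (B : ℝ) ≤ θ →
    (∀ j < J, ((J * t : ℕ) : ℝ) + r < c * (q j * D' - Y - (2 * B : ℕ))) →
    2 * c * D' ≤ g3 - (2 * B : ℕ) →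
    12 * Real.log n ≤ c ^ 2 * t →
    2 * Y ≤ c / 4 * t →
    (2 * B : ℕ) + r + φ ≤ 2 * θ →
    4 * (2 * θ) + 1 ≤ e1 →
    J * (2 * Y + 1) ≤ (t : ℝ) →
    Y + (2 * B : ℕ) + 2 * (J * t + r) + φ + 2 * θ + 1 ≤ y → y ≤ d / 2 ^ J →
    (d : ℝ) / 2 + 2 * θ + 1 ≤ n → 1 ≤ d →
    C * ((f1 + b) * (y + Real.log n) * 2 ^ J / d + Real.log n) ≤ φ →
    (d : ℝ) / 2 ^ J + 2 * θ + 1 + C * Real.sqrt ((d / 2 ^ J + 2 * θ + 1) * Real.log n) +
      C * Real.log n ≤ q J * D' - 2 * θ - (2 * B : ℕ) → LC G L0 := by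
  obtain ⟨C, hC, hA⟩ := assemble
  refine ⟨C, hC, ?_⟩
  intro n hn G J t r z b d D' B N2 L0 q θ Y e1 c c0 g3 φ f1 y N ρ ρ0 MJ h1 hJ hr hz hbz hθ hY hφ
    hc0' hc1' hf1 hy hc0 hc1 hMJ hN hh1 hsym hcard hd hdD hq0 hq hq1 hq2 a1 a2 a3 a4 a5 a6 r1 r2 r3
    r4 r5 r6 r7 r8 s1 s2 s3 s4 s5 H2 H3 m1 m2 m3 n2 n3 n4 n5 nE n6 n7 ny ny2 n8 hd1 n9 n10
  have hd0 : (0 : ℝ) < d := by exact_mod_cast hd1
  have hdD' : (d : ℝ) ≤ D' := by exact_mod_cast hdD
  have hD0 : 0 < D' := lt_of_lt_of_le hd1 hdD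
  have hD0' : (0 : ℝ) < D' := by exact_mod_cast hD0
  have hJ0 : (1 : ℝ) ≤ J := by exact_mod_cast hJ
  -- the colours
  obtain ⟨τ, t1, t2, t3, t4, t5⟩ := choose_tau G J D' d hd L0 hcard q hq0 hq θ Y c0 g3 ρ ρ0 f1 N MJ
    hD0 hθ hY (by linarith) hc0 hc1 (by linarith) a3 hMJ a4 a6 hN hf1 r1 r2 r3 r4 r5 r6
    (by rw [Fintype.card_fin]; exact r7) (by rw [Fintype.card_fin]; exact r8)
  -- the thresholds
  have hthr : ∀ v, ∀ j, 0 < dg G v → ∃ x ∈ nb G v,
      (((nb G v).filter (fun w => cl (L0 v x) τ j < cl (L0 v w) τ j)).card : ℝ) ≤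
        dg G v / (2 * J) ∧
      (dg G v : ℝ) / (2 * J) ≤
        (((nb G v).filter (fun w => cl (L0 v x) τ j ≤ cl (L0 v w) τ j)).card : ℝ) := by
    intro v j hv
    apply quantile (nb G v) (fun w => cl (L0 v w) τ j) _ (card_pos.1 hv) (by positivity)
    rw [div_le_iff₀ (by positivity)]
    have : (0 : ℝ) ≤ ((nb G v).card : ℝ) := Nat.cast_nonneg _
    have h2 : (dg G v : ℝ) = ((nb G v).card : ℝ) := rfl
    rw [h2]
    nlinarith
  have hthr' : ∀ v, ∀ j, ∃ x, 0 < dg G v → (x ∈ nb G v ∧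
      (((nb G v).filter (fun w => cl (L0 v x) τ j < cl (L0 v w) τ j)).card : ℝ) ≤
        dg G v / (2 * J) ∧
      (dg G v : ℝ) / (2 * J) ≤
        (((nb G v).filter (fun w => cl (L0 v x) τ j ≤ cl (L0 v w) τ j)).card : ℝ)) := by
    intro v j
    by_cases hv : 0 < dg G v
    · obtain ⟨x, hx⟩ := hthr v j hv
      exact ⟨x, fun _ => hx⟩
    · exact ⟨v, fun h => absurd h hv⟩
  choose x hx using hthr'
  set thr : Fin n → ℕ → ℝ := fun v j => (cl (L0 v (x v j)) τ j : ℝ) with hthrdef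
  set Hg : Fin n → ℕ → Finset (Fin n) := fun v j =>
    (nb G v).filter (fun w => thr v j ≤ cl (L0 v w) τ j) with hHg
  -- the strings
  obtain ⟨σ, u1, u2, u3, u4⟩ := choose_sigma G J d hd hd1 Hg (fun v j h => by
      have := (mem_filter.1 h).1
      rw [mem_nb] at this
      exact G.loopless.irrefl v this) θ Y ρ ρ0 N MJ h1 hθ hY a1 a2 hMJ a5 a6 hN hh1
    (le_trans (Real.exp_le_exp.2 (by
      rw [neg_div, neg_div, neg_le_neg_iff]
      exact div_le_div_of_nonneg_left (sq_nonneg Y) (by positivity) (by linarith))) r1) r2 s1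
    (le_trans (Real.exp_le_exp.2 (by
      rw [neg_div, neg_div, neg_le_neg_iff]
      exact div_le_div_of_nonneg_left (sq_nonneg θ) (by positivity) (by linarith))) r6)
    (by rw [Fintype.card_fin]; exact s2) (by rw [Fintype.card_fin]; exact s3)
  -- the bad vertices
  set T1 : Finset (Fin n) := (univ.filter (fun v => ∃ j < J,
        (d : ℝ) / 2 ^ (j + 1) + θ < (dgL G σ j v : ℝ))) ∪
      (univ.filter (fun v => f1 < (((nb G v).filter (fun w => ∃ j < J,
        (cl (L0 v w) τ j : ℝ) < q j * D' - θ)).card : ℝ))) with hT1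
  have hT1c : (T1.card : ℝ) ≤ 2 * N := by
    have e : T1.card ≤ (univ.filter (fun v => ∃ j < J,
        (d : ℝ) / 2 ^ (j + 1) + θ < (dgL G σ j v : ℝ))).card +
        (univ.filter (fun v => f1 < (((nb G v).filter (fun w => ∃ j < J,
        (cl (L0 v w) τ j : ℝ) < q j * D' - θ)).card : ℝ))).card := card_union_le _ _
    have e' : (T1.card : ℝ) ≤ ((univ.filter (fun v => ∃ j < J,
        (d : ℝ) / 2 ^ (j + 1) + θ < (dgL G σ j v : ℝ))).card : ℝ) +
        ((univ.filter (fun v => f1 < (((nb G v).filter (fun w => ∃ j < J,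
        (cl (L0 v w) τ j : ℝ) < q j * D' - θ)).card : ℝ))).card : ℝ) := by exact_mod_cast e
    linarith
  set T2 : Finset (Fin n) := univ.filter (fun v =>
    b < ((nb G v).filter (fun w => w ∈ T1)).card) with hT2
  obtain ⟨S, hTS, hSN, hSB⟩ := closure G T2 B N2 H2 (H3 T1 hT1c)
  -- the edges meeting `S`
  have hdens : Dens (A_meetX G S) (2 * B) := by
    apply dens_meet G S (2 * B)
    · intro X hX
      have h5 := H2 X ((card_le_card hX).trans hSN)
      unfold ep at h5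
      have h6 : ((((pr G).filter (fun e => e.1 ∈ X ∧ e.2 ∈ X)).card : ℕ) : ℝ) ≤ B * X.card := by
        exact_mod_cast h5
      have h7 : (0 : ℝ) ≤ B * X.card := by positivity
      linarith
    · intro v hv
      have := hSB v hv
      have h3 : (((nb G v).filter (fun w => w ∈ S)).card : ℝ) ≤ B := by exact_mod_cast this
      linarith
  obtain ⟨f₁, k1, k2, k3⟩ := main_edge d (2 * B) m1 L0 hsym (pr (A_meetX G S)).card
    (A_meetX G S) rfl
    (fun v => (dg_mono (G := G) (H := A_meetX G S)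
      (fun x y hxy => ((A_meetX_adj G S x y).1 hxy).1) v).trans (hd v)) hdens
    (fun u v huv => by rw [hcard u v huv.1]; exact hdD)
  apply A_comb G S L0 f₁ k1 k2 k3
  have hcut : ∀ v, nb (cutX G S) v ⊆ nb G v := by
    intro v w hw
    rw [mem_nb, cutX_adj] at hw
    rw [mem_nb]
    exact hw.1
  have hcutS : ∀ v ∈ S, nb (cutX G S) v = ∅ := by
    intro v hv
    rw [eq_empty_iff_forall_notMem]
    intro w hw
    rw [mem_nb, cutX_adj] at hw
    exact hw.2.1 hv
  have hdgL : ∀ j v, (dgL (cutX G S) σ j v : ℝ) ≤ dgL G σ j v := by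
    intro j v
    have : dgL (cutX G S) σ j v ≤ dgL G σ j v := by
      rw [dgL_eq, dgL_eq]
      exact card_le_card (filter_subset_filter _ (hcut v))
    exact_mod_cast this
  -- bad vertices have large degrees
  have hlarge : ∀ v ∈ T1, 2 * J * h1 ≤ (dg G v : ℝ) := by
    intro v hv
    rw [hT1, mem_union, mem_filter, mem_filter] at hv
    rcases hv with ⟨_, j, hj, hv⟩ | ⟨_, hv⟩
    · have h5 : (dgL G σ j v : ℝ) ≤ dg G v := by
        have : dgL G σ j v ≤ dg G v := by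
          rw [dgL_eq]
          exact card_le_card (filter_subset _ _)
        exact_mod_cast this
      have h6 : (d : ℝ) / 2 ^ J ≤ d / 2 ^ (j + 1) := by
        apply div_le_div_of_nonneg_left hd0.le (by positivity)
        exact pow_le_pow_right₀ (by norm_num) hj
      linarith
    · have h5 : (((nb G v).filter (fun w => ∃ j < J,
          (cl (L0 v w) τ j : ℝ) < q j * D' - θ)).card : ℝ) ≤ dg G v := by
        exact_mod_cast card_le_card (filter_subset _ _)
      linarith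
  have hpos : ∀ v ∈ T1, 0 < dg G v := by
    intro v hv
    have h5 := hlarge v hv
    have h6 : (0 : ℝ) < dg G v := lt_of_lt_of_le (by positivity) h5
    exact_mod_cast h6
  have hB0 : (0 : ℝ) ≤ B := Nat.cast_nonneg _
  have hnT1 : ∀ v, v ∉ T1 → (∀ j < J, (dgL G σ j v : ℝ) ≤ (d : ℝ) / 2 ^ (j + 1) + θ) ∧
      (((nb G v).filter (fun w => ∃ j < J,
        (cl (L0 v w) τ j : ℝ) < q j * D' - θ)).card : ℝ) ≤ f1 := by
    intro v hv
    rw [hT1, mem_union, not_or, mem_filter, mem_filter, not_and, not_and] at hv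
    have h5 := hv.1 (mem_univ _)
    have h6 := hv.2 (mem_univ _)
    push Not at h5 h6
    exact ⟨h5, h6⟩
  have hsplit : ∀ v, (∃ w, (cutX G S).Adj v w) → v ∉ S := by
    rintro v ⟨w, hw⟩
    exact ((cutX_adj G S v w).1 hw).2.1
  apply hA n hn (cutX G S) J t r z b d D' (2 * B) σ τ L0 _ (T1 \ S) q thr (2 * θ) Y e1 c g3 φ f1 y
    hJ hr hz hbz (by positivity) hY hφ hc0' hc1' hf1.le hy ?_ hsym (fun v w _ => sdiff_subset) ?_
    (fun v w hvw => (hcard v w ((cutX_adj G S v w).1 hvw).1).le)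
    (fun v => (card_le_card (hcut v)).trans (hd v)) hq1 hq2
    (fun v w hvw j hj => (t1 v w ((cutX_adj G S v w).1 hvw).1 j hj).1)
    (fun v w hvw => by
      have := (t2 v w ((cutX_adj G S v w).1 hvw).1).1
      linarith)
    (fun v _ j hj => (hdgL j v).trans (u1 v j hj)) ?_
    (fun v => by
      have h5 := (u2 v).2
      have h6 := hdgL J v
      linarith) ?_ ?_ ?_ ?_ ?_ ?_ ?_ n2 n3 n4 n5 nE n6 n7 ny ny2 n8 hd1 n9 n10
  · intro v w
    rw [hsym v w, union_comm]
  · intro v w hvw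
    obtain ⟨hvw, hvS, hwS⟩ := (cutX_adj G S v w).1 hvw
    have g1 : L0 v w \ (L0 v w \ (((nb G v).filter (fun w => w ∈ S)).image (f₁ v) ∪
        ((nb G w).filter (fun w => w ∈ S)).image (f₁ w))) ⊆
        ((nb G v).filter (fun w => w ∈ S)).image (f₁ v) ∪
        ((nb G w).filter (fun w => w ∈ S)).image (f₁ w) := by
      intro c hc
      rw [mem_sdiff, mem_sdiff, not_and, not_not] at hc
      exact hc.2 hc.1
    have g2 := (card_le_card g1).trans (card_union_le _ _)
    have g3 := card_image_le (s := (nb G v).filter (fun w => w ∈ S)) (f := f₁ v)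
    have g4 := card_image_le (s := (nb G w).filter (fun w => w ∈ S)) (f := f₁ w)
    have g5 := hSB v hvS
    have g6 := hSB w hwS
    omega
  · -- hdegN
    intro v hv j hj
    by_cases hvS : v ∈ S
    · have h5 : (dgL (cutX G S) σ j v : ℝ) = 0 := by
        rw [dgL_eq, hcutS v hvS, filter_empty, card_empty, Nat.cast_zero]
      rw [h5]
      positivity
    · have h5 : v ∉ T1 := fun h => hv (mem_sdiff.2 ⟨h, hvS⟩)
      have h6 := (hnT1 v h5).1 j hj
      have h7 := hdgL j v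
      linarith
  · -- hdegJ'
    intro v hv
    obtain ⟨hvT, hvS⟩ := mem_sdiff.1 hv
    have h5 := (u2 v).1
    have h6 : dgL G σ J v ≤ dgL (cutX G S) σ J v + ((nb G v).filter (fun w => w ∈ S)).card := by
      rw [dgL_eq, dgL_eq]
      refine le_trans (card_le_card ?_) (card_union_le _ _)
      intro w hw
      obtain ⟨hw1, hw2⟩ := mem_filter.1 hw
      rw [mem_union, mem_filter, mem_filter, mem_nb, cutX_adj]
      by_cases hwS : w ∈ S
      · exact Or.inr ⟨hw1, hwS⟩
      · exact Or.inl ⟨⟨(mem_nb G v w).1 hw1, hvS, hwS⟩, hw2⟩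
    have h7 := hSB v hvS
    have h8 : (dgL G σ J v : ℝ) ≤ dgL (cutX G S) σ J v + B := by
      have := h6.trans (Nat.add_le_add_left h7 _)
      exact_mod_cast this
    have h9 : (dg (cutX G S) v : ℝ) / 2 ^ J ≤ (dg G v : ℝ) / 2 ^ J := by
      apply div_le_div_of_nonneg_right _ (by positivity)
      exact_mod_cast card_le_card (hcut v)
    linarith
  · -- hbad
    intro v hv
    by_cases hvS : v ∈ S
    · rw [hcutS v hvS, filter_empty, card_empty, Nat.cast_zero]
      exact hf1.le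
    · have h5 : v ∉ T1 := fun h => hv (mem_sdiff.2 ⟨h, hvS⟩)
      have h6 := (hnT1 v h5).2
      refine le_trans ?_ h6
      have h7 : (nb (cutX G S) v).filter (fun w => ∃ j < J,
          (cl (L0 v w) τ j : ℝ) < q j * D' - 2 * θ) ⊆
          (nb G v).filter (fun w => ∃ j < J, (cl (L0 v w) τ j : ℝ) < q j * D' - θ) := by
        intro w hw
        obtain ⟨hw1, j, hj, hw2⟩ := mem_filter.1 hw
        exact mem_filter.2 ⟨hcut v hw1, j, hj, by linarith⟩
      exact_mod_cast card_le_card h7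
  · -- hTb
    intro v
    by_cases hvS : v ∈ S
    · rw [hcutS v hvS, filter_empty, card_empty]
      exact Nat.zero_le _
    · have h5 : v ∉ T2 := fun h => hvS (hTS h)
      rw [hT2, mem_filter, not_and] at h5
      have h6 := h5 (mem_univ _)
      push Not at h6
      refine le_trans (card_le_card ?_) h6
      intro w hw
      obtain ⟨hw1, hw2⟩ := mem_filter.1 hw
      exact mem_filter.2 ⟨hcut v hw1, (mem_sdiff.1 hw2).1⟩
  · -- hthr1
    intro v hv j hj
    have h5 := hx v j (hpos v (mem_sdiff.1 hv).1)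
    have h6 := (mem_nb G v _).1 h5.1
    exact t1 v (x v j) h6 j hj
  · -- hthr2
    intro v hv
    have hvT := (mem_sdiff.1 hv).1
    have hvp := hpos v hvT
    obtain ⟨w, hw, hw2⟩ : ∃ w ∈ nb G v, ∀ j < J, cl (L0 v w) τ j ≤ cl (L0 v (x v j)) τ j := by
      by_contra hcon
      push Not at hcon
      have g1 : nb G v ⊆ (range J).biUnion (fun j =>
          (nb G v).filter (fun w => cl (L0 v (x v j)) τ j < cl (L0 v w) τ j)) := by
        intro w hw
        obtain ⟨j, hj, hlt⟩ := hcon w hw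
        exact mem_biUnion.2 ⟨j, mem_range.2 hj, mem_filter.2 ⟨hw, hlt⟩⟩
      have g2 := (card_le_card g1).trans card_biUnion_le
      have g3 : (dg G v : ℝ) ≤ ∑ j ∈ range J,
          (((nb G v).filter (fun w => cl (L0 v (x v j)) τ j < cl (L0 v w) τ j)).card : ℝ) := by
        exact_mod_cast g2
      have g4 := g3.trans (sum_le_sum (fun j _ => (hx v j hvp).2.1))
      rw [sum_const, card_range, nsmul_eq_mul] at g4
      have g5 : (J : ℝ) * (dg G v / (2 * J)) = dg G v / 2 := by field_simp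
      rw [g5] at g4
      have g6 : (0 : ℝ) < dg G v := by exact_mod_cast hvp
      linarith
    have hvw := (mem_nb G v w).1 hw
    have g1 := t4 v w
    rw [sum_range_succ, hcard v w hvw] at g1
    have g2 : ∑ j ∈ range J, (cl (L0 v w) τ j : ℝ) + cl (L0 v w) τ J = D' := by exact_mod_cast g1
    have g3 := (t2 v w hvw).2
    have g4 : ∑ j ∈ range J, (cl (L0 v w) τ j : ℝ) ≤ ∑ j ∈ range J, thr v j := by
      apply sum_le_sum
      intro j hj
      have := hw2 j (mem_range.1 hj)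
      simp only [hthrdef]
      exact_mod_cast this
    have g5 : ∑ j ∈ range J, q j * D' + q J * D' = D' := by
      rw [← sum_mul, ← add_mul, ← sum_range_succ, hq, one_mul]
    linarith
  · -- hcand
    intro v hv i hi j hj
    obtain ⟨hvT, hvS⟩ := mem_sdiff.1 hv
    have hvp := hpos v hvT
    have g1 : h1 ≤ ((Hg v j).card : ℝ) := by
      have g2 := (hx v j hvp).2.2
      have g3 : ((Hg v j).card : ℝ) =
          (((nb G v).filter (fun w => cl (L0 v (x v j)) τ j ≤ cl (L0 v w) τ j)).card : ℝ) := by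
        simp only [hHg, hthrdef, Nat.cast_le]
      rw [g3]
      refine le_trans ?_ g2
      rw [le_div_iff₀ (by positivity)]
      have := hlarge v hvT
      linarith
    have g2 := u3 v i hi j hj g1
    have g3 : h1 / 2 ^ (J + 1) ≤ ((Hg v j).card : ℝ) / 2 ^ (J + 1) :=
      div_le_div_of_nonneg_right g1 (by positivity)
    have g4 : ((Hg v j).filter (fun w => At (σ v) (σ w) i)).card ≤
        ((nb (cutX G S) v).filter (fun w => w ∉ T1 \ S ∧ At (σ v) (σ w) i ∧
          thr v j ≤ cl (L0 v w) τ j)).card + ((nb G v).filter (fun w => w ∈ T1)).card +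
          ((nb G v).filter (fun w => w ∈ S)).card := by
      have g5 : (Hg v j).filter (fun w => At (σ v) (σ w) i) ⊆
          ((nb (cutX G S) v).filter (fun w => w ∉ T1 \ S ∧ At (σ v) (σ w) i ∧
          thr v j ≤ cl (L0 v w) τ j) ∪ (nb G v).filter (fun w => w ∈ T1)) ∪
          (nb G v).filter (fun w => w ∈ S) := by
        intro w hw
        obtain ⟨hw1, hw2⟩ := mem_filter.1 hw
        obtain ⟨hw3, hw4⟩ := mem_filter.1 hw1
        rw [mem_union, mem_union, mem_filter, mem_filter, mem_filter]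
        by_cases hwS : w ∈ S
        · exact Or.inr ⟨hw3, hwS⟩
        · by_cases hwT : w ∈ T1
          · exact Or.inl (Or.inr ⟨hw3, hwT⟩)
          · refine Or.inl (Or.inl ⟨?_, fun h => hwT (mem_sdiff.1 h).1, hw2, hw4⟩)
            rw [mem_nb, cutX_adj]
            exact ⟨(mem_nb G v w).1 hw3, hvS, hwS⟩
      refine (card_le_card g5).trans ((card_union_le _ _).trans ?_)
      exact Nat.add_le_add_right (card_union_le _ _) _
    have g5 : ((nb G v).filter (fun w => w ∈ T1)).card ≤ b := by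
      have h5 : v ∉ T2 := fun h => hvS (hTS h)
      rw [hT2, mem_filter, not_and] at h5
      have h6 := h5 (mem_univ _)
      push Not at h6
      exact h6
    have g6 := hSB v hvS
    have g7 : (((Hg v j).filter (fun w => At (σ v) (σ w) i)).card : ℝ) ≤
        (((nb (cutX G S) v).filter (fun w => w ∉ T1 \ S ∧ At (σ v) (σ w) i ∧
          thr v j ≤ cl (L0 v w) τ j)).card : ℝ) + b + B := by
      have : ((Hg v j).filter (fun w => At (σ v) (σ w) i)).card ≤
        ((nb (cutX G S) v).filter (fun w => w ∉ T1 \ S ∧ At (σ v) (σ w) i ∧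
          thr v j ≤ cl (L0 v w) τ j)).card + b + B := by omega
      exact_mod_cast this
    have g8 : ((J * t * z : ℕ) : ℝ) ≤ (((nb (cutX G S) v).filter (fun w => w ∉ T1 \ S ∧
        At (σ v) (σ w) i ∧ thr v j ≤ cl (L0 v w) τ j)).card : ℝ) := by
      linarith
    exact_mod_cast g8
  · -- hpair
    intro v hv w w' hvw hvw' j hj hlt hle
    apply t3 v w w' ((cutX_adj G S v w).1 hvw).1 ((cutX_adj G S v w').1 hvw').1 j hj
    linarith

end Pool.Agent.K4H76.LD
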