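import Pool.Agent.K4H76.LD.Dense1
import Pool.Agent.K4H76.LR.Params
import Mathlib.Analysis.SpecificLimits.Normed

/-!
# Graphs without dense small sets: the numbers
-/

set_option autoImplicit false
set_option linter.unusedSectionVars false

namespace Pool.Agent.K4H76.LD

open Finset Pool.Agent.H162R2.Sparse Pool.Agent.H162R2.AG Pool.Agent.K4H76.LR
  Pool.Agent.H892.LEC

theorem exists_J (C ε : ℝ) (hε : 0 < ε) : ∃ J : ℕ, 1 ≤ J ∧
    16000 * (J : ℝ) ^ 2 / ε ^ 2 ≤ 2 ^ J ∧ 128 * C ^ 2 / ε ^ 2 ≤ 2 ^ J := by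
  have h1 := tendsto_pow_const_div_const_pow_of_one_lt 2 (show (1 : ℝ) < 2 by norm_num)
  set A : ℝ := 16000 / ε ^ 2 + 128 * C ^ 2 / ε ^ 2 with hA
  have hA0 : 0 < A := by positivity
  have h2 : ∀ᶠ J : ℕ in Filter.atTop, (J : ℝ) ^ 2 / 2 ^ J < 1 / A :=
    (h1.eventually (gt_mem_nhds (by positivity)))
  obtain ⟨J, hJ, hJ1⟩ := (h2.and (Filter.eventually_ge_atTop 1)).exists
  have hJ1' : (1 : ℝ) ≤ J := by exact_mod_cast hJ1
  have hP : (0 : ℝ) < 2 ^ J := by positivity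
  rw [div_lt_div_iff₀ hP hA0, one_mul] at hJ
  have hJ2 : (1 : ℝ) ≤ (J : ℝ) ^ 2 := by nlinarith
  have e1 : 0 ≤ 16000 / ε ^ 2 := by positivity
  have e2 : 0 ≤ 128 * C ^ 2 / ε ^ 2 := by positivity
  refine ⟨J, hJ1, ?_, ?_⟩
  · have : 16000 * (J : ℝ) ^ 2 / ε ^ 2 = (J : ℝ) ^ 2 * (16000 / ε ^ 2) := by ring
    rw [this]
    nlinarith [mul_nonneg (sq_nonneg (J : ℝ)) e2]
  · nlinarith [mul_nonneg (sq_nonneg (J : ℝ)) e1, mul_nonneg (sub_nonneg.2 hJ2) e2]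

theorem exists_big (l : List ℝ) : ∃ K : ℝ, 1 ≤ K ∧ ∀ a ∈ l, a ≤ K := by
  induction l with
  | nil => exact ⟨1, le_refl _, by simp⟩
  | cons a l ih =>
    obtain ⟨K, hK, h⟩ := ih
    refine ⟨max a K, hK.trans (le_max_right _ _), ?_⟩
    intro b hb
    rcases List.mem_cons.1 hb with rfl | hb
    · exact le_max_left _ _
    · exact (h b hb).trans (le_max_right _ _)

theorem expb (A M x : ℝ) (hM : 0 < M) (h : 20 * x * M ≤ A ^ 2) :
    Real.exp (-(A ^ 2) / (4 * M)) ≤ Real.exp (-(5 * x)) := by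
  apply Real.exp_le_exp.2
  rw [neg_div, neg_le_neg_iff, le_div_iff₀ (by positivity)]
  linarith

theorem numN (J x : ℝ) (hJ : 1 ≤ J) (hx : 20 * (J + 2) ^ 2 ≤ x) :
    Real.exp x ^ 3 * (5 * (J + 1)) * Real.exp (-(5 * x)) ≤ 1 / 4 ∧
    Real.exp x * (J + 2 + J * J) * Real.exp (-(5 * x)) ≤ 1 / 4 := by
  have hx0 : 0 ≤ x := le_trans (by positivity) hx
  have h1 : x + 1 ≤ Real.exp x := Real.add_one_le_exp x
  have h2 : Real.exp (-(2 * x)) * Real.exp x ≤ 1 := by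
    rw [← Real.exp_add, Real.exp_le_one_iff]
    linarith
  have h3 : Real.exp x ^ 3 * (5 * (J + 1)) * Real.exp (-(5 * x)) =
      5 * (J + 1) * Real.exp (-(2 * x)) := by
    rw [← Real.exp_nat_mul, mul_comm (Real.exp _) (5 * (J + 1)), mul_assoc, ← Real.exp_add]
    congr 2
    push_cast
    ring
  have h4 : Real.exp x * (J + 2 + J * J) * Real.exp (-(5 * x)) =
      (J + 2 + J * J) * Real.exp (-(4 * x)) := by
    rw [mul_comm (Real.exp x), mul_assoc, ← Real.exp_add]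
    congr 2
    ring
  have h5 : Real.exp (-(4 * x)) ≤ Real.exp (-(2 * x)) := Real.exp_le_exp.2 (by linarith)
  have h6 : 0 < Real.exp (-(2 * x)) := Real.exp_pos _
  have h7 : Real.exp (-(2 * x)) * (20 * (J + 2) ^ 2) ≤ 1 :=
    le_trans (mul_le_mul_of_nonneg_left (by linarith) h6.le) h2
  have h8 : 20 * (J + 1) ≤ 20 * (J + 2) ^ 2 := by nlinarith
  have h9 : 4 * (J + 2 + J * J) ≤ 20 * (J + 2) ^ 2 := by nlinarith
  rw [h3, h4]
  constructor
  · have := mul_le_mul_of_nonneg_left h8 h6.le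
    linarith
  · have h10 := mul_le_mul_of_nonneg_left h9 h6.le
    have h11 := mul_le_mul_of_nonneg_left h5 (show 0 ≤ J + 2 + J * J by positivity)
    linarith

theorem numK (J κ θ x : ℝ) (hJ : 1 ≤ J) (hκ : 0 < κ)
    (h : 8 * Real.log (16 * J * (1 / κ + 1)) ≤ x * θ ^ 2) :
    2 * ((8 * J / κ + 8 * J) * Real.exp x * Real.exp (-(θ ^ 2 * x / 4))) ≤
      Real.exp (x * (1 - θ ^ 2 / 8)) := by
  have h0 : 0 < 16 * J * (1 / κ + 1) := by positivity
  have h1 : 16 * J * (1 / κ + 1) ≤ Real.exp (x * θ ^ 2 / 8) := by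
    rw [← Real.exp_log h0]
    apply Real.exp_le_exp.2
    linarith
  have h2 : 2 * ((8 * J / κ + 8 * J) * Real.exp x * Real.exp (-(θ ^ 2 * x / 4))) =
      (16 * J * (1 / κ + 1)) * Real.exp (x - θ ^ 2 * x / 4) := by
    rw [sub_eq_add_neg, Real.exp_add]
    ring
  rw [h2]
  calc (16 * J * (1 / κ + 1)) * Real.exp (x - θ ^ 2 * x / 4)
      ≤ Real.exp (x * θ ^ 2 / 8) * Real.exp (x - θ ^ 2 * x / 4) :=
        mul_le_mul_of_nonneg_right h1 (Real.exp_pos _).le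
    _ = Real.exp (x * (1 - θ ^ 2 / 8)) := by
        rw [← Real.exp_add]
        congr 1
        ring

open Classical in
theorem dense2 (ε : ℝ) (hε : 0 < ε) (hε1 : ε ≤ 1) : ∃ κ1 κ2 κ3 K : ℝ, 0 < κ1 ∧ 0 < κ2 ∧
    0 < κ3 ∧ κ3 < 1 ∧ 1 ≤ K ∧ ∀ (n : ℕ), K ≤ Real.log n →
    ∀ (G : SimpleGraph (Fin n)) (D' B N2 : ℕ) (L0 : Fin n → Fin n → Finset ℕ),
    (∀ v w, L0 v w = L0 w v) → (∀ v w, G.Adj v w → (L0 v w).card = D') → 1 ≤ D' → (D' : ℝ) ≤ n →
    (∀ v, (dg G v : ℝ) + ε * Real.sqrt (D' * Real.log n) ≤ D') →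
    K * (Real.sqrt (D' * Real.log n) * (1 + Real.log n)) ≤ D' →
    (B : ℝ) ≤ κ2 * Real.sqrt (D' * Real.log n) →
    (∀ X : Finset (Fin n), X.card ≤ N2 → ep G X ≤ B * X.card) →
    (∀ X : Finset (Fin n), (X.card : ℝ) ≤ (n : ℝ) ^ (1 - κ3) →
      2 * (univ.filter (fun v => κ1 * D' < ((nb G v).filter (fun w => w ∈ X)).card)).card ≤ N2) →
    LC G L0 := by
  obtain ⟨C, hC, hmain⟩ := dense1
  obtain ⟨J, hJ1, hJa, hJb⟩ := exists_J C ε hε
  have hJ0 : (1 : ℝ) ≤ J := by exact_mod_cast hJ1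
  obtain ⟨P, hP⟩ : ∃ P : ℝ, P = 2 ^ J := ⟨_, rfl⟩
  have hP1 : 1 ≤ P := by rw [hP]; exact one_le_pow₀ (by norm_num)
  rw [← hP] at hJa hJb
  obtain ⟨θ0, hθ0⟩ : ∃ θ0 : ℝ, θ0 = ε / (20 * J) := ⟨_, rfl⟩
  have hθ00 : 0 < θ0 := by rw [hθ0]; positivity
  have hθε : 20 * (J * θ0) = ε := by rw [hθ0]; field_simp
  have hθ1 : θ0 ≤ 1 / 20 := by nlinarith
  have hθεle : 20 * θ0 ≤ ε := by nlinarith
  obtain ⟨c0, hc0⟩ : ∃ c0 : ℝ, c0 = θ0 ^ 2 / 80 := ⟨_, rfl⟩
  have hc00 : 0 < c0 := by rw [hc0]; positivity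
  have hc01 : c0 ≤ 1 := by rw [hc0]; nlinarith
  obtain ⟨c, hc⟩ : ∃ c : ℝ, c = c0 / (16 * P) := ⟨_, rfl⟩
  have hc'0 : 0 < c := by rw [hc]; positivity
  have hcP : c * (16 * P) = c0 := by rw [hc]; field_simp
  have hc'1 : c ≤ 1 := by nlinarith
  obtain ⟨t0, ht0⟩ : ∃ t0 : ℝ, t0 = 50 * J / c := ⟨_, rfl⟩
  have ht0c : t0 * c = 50 * J := by rw [ht0]; field_simp
  have ht00 : 0 < t0 := by rw [ht0]; positivity
  have ht1 : 50 * J ≤ t0 := by nlinarith
  obtain ⟨y0, hy0⟩ : ∃ y0 : ℝ, y0 = 3 * J * t0 := ⟨_, rfl⟩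
  have hy00 : 150 * J ≤ y0 := by rw [hy0]; nlinarith
  have hy0' : 0 < y0 := by linarith
  obtain ⟨κ, hκ⟩ : ∃ κ : ℝ, κ = θ0 / (64 * C * y0 * P) := ⟨_, rfl⟩
  have hκ0 : 0 < κ := by rw [hκ]; positivity
  have hκe : κ * (64 * C * y0 * P) = θ0 := by rw [hκ]; field_simp
  have hκP : κ * (2 * P) ≤ 1 := by
    have h1 : 1 ≤ C * y0 := by nlinarith
    have h2 : κ * (2 * P) ≤ κ * (2 * P) * (C * y0) := le_mul_of_one_le_right (by positivity) h1
    nlinarith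
  have hκ1 : κ ≤ 1 := by nlinarith
  obtain ⟨κ1, hκ1e⟩ : ∃ κ1 : ℝ, κ1 = κ * θ0 / (J ^ 2 * (256 * P) * t0) := ⟨_, rfl⟩
  have hκ10 : 0 < κ1 := by rw [hκ1e]; positivity
  have hκ1m : κ1 * (J ^ 2 * (256 * P) * t0) = κ * θ0 := by rw [hκ1e]; field_simp
  obtain ⟨K, hK1, hK⟩ := exists_big [20, 1 / c0, 16 * J * P / κ, 32 * J ^ 2 * P * t0 / κ, 24 * P,
    16 * J * t0 * P / c, 8 * P / c0, 2 * P * y0, 160 * P / c0, 160 * J * P / κ, 1 / c, 8 * C / θ0,
    80 * C / ε, 80 / ε, 10 * J / ε, 8 / θ0, 20 * (J + 2) ^ 2,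
    8 * Real.log (16 * J * (1 / κ + 1)) / θ0 ^ 2]
  simp only [List.forall_mem_cons] at hK
  obtain ⟨K1, K2, K3, K4, K5, K6, K7, K8, K9, K10, K11, K12, K13, K14, K15, K16, K17, K18, -⟩ := hK
  refine ⟨κ1, θ0 / 8, θ0 ^ 2 / 8, K, hκ10, by positivity, by positivity, by nlinarith, hK1, ?_⟩
  intro n hn G D' B N2 L0 hsym hcard hD1 hDn hdeg hsize hB H2 H3
  obtain ⟨x, hx⟩ : ∃ x : ℝ, x = Real.log n := ⟨_, rfl⟩
  rw [← hx] at hn hdeg hsize hB
  have hx1 : 1 ≤ x := hK1.trans hn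
  have hn0 : (0 : ℝ) < n := by
    rcases Nat.eq_zero_or_pos n with h | h
    · rw [h, Nat.cast_zero, Real.log_zero] at hx
      linarith
    · exact_mod_cast h
  have hnx : (n : ℝ) = Real.exp x := by rw [hx, Real.exp_log hn0]
  obtain ⟨D, hD⟩ : ∃ D : ℝ, D = D' := ⟨_, rfl⟩
  rw [← hD] at hDn hdeg hsize hB H3
  obtain ⟨Λ, hΛ⟩ : ∃ Λ : ℝ, Λ = Real.sqrt (D * x) := ⟨_, rfl⟩
  rw [← hΛ] at hdeg hsize hB
  have hD1' : 1 ≤ D := by rw [hD]; exact_mod_cast hD1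
  have hD0 : 0 < D := by linarith
  have hx0 : 0 < x := by linarith
  have hK0 : 0 < K := by linarith
  have hΛ2 : Λ ^ 2 = D * x := by rw [hΛ, Real.sq_sqrt (by positivity)]
  have hΛ0 : 0 < Λ := by rw [hΛ]; exact Real.sqrt_pos.2 (by positivity)
  have hKx : K * x ≤ Λ := by
    by_contra hcon
    push Not at hcon
    have h1 : Λ * Λ < K * x * Λ := mul_lt_mul_of_pos_right hcon hΛ0
    have h2 : x * (K * (Λ * (1 + x))) ≤ x * D := mul_le_mul_of_nonneg_left hsize hx0.le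
    have h3 : 0 ≤ K * Λ * x * x := by positivity
    have h4 : x * (K * (Λ * (1 + x))) = K * x * Λ + K * Λ * x * x := by ring
    have h5 : Λ * Λ = x * D := by rw [← pow_two, hΛ2]; ring
    linarith
  have hKΛ : K * Λ ≤ D := by
    have h3 : 0 ≤ K * Λ * x := by positivity
    have h4 : K * (Λ * (1 + x)) = K * Λ + K * Λ * x := by ring
    linarith
  have hΛD : ∀ a b : ℝ, 0 < b → a / b ≤ K → a * Λ ≤ b * D := by
    intro a b hb h
    rw [div_le_iff₀ hb] at h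
    calc a * Λ ≤ K * b * Λ := mul_le_mul_of_nonneg_right h hΛ0.le
      _ = b * (K * Λ) := by ring
      _ ≤ b * D := mul_le_mul_of_nonneg_left hKΛ hb.le
  have hxΛ : ∀ a b : ℝ, 0 < b → a / b ≤ K → a * x ≤ b * Λ := by
    intro a b hb h
    rw [div_le_iff₀ hb] at h
    calc a * x ≤ K * b * x := mul_le_mul_of_nonneg_right h hx0.le
      _ = b * (K * x) := by ring
      _ ≤ b * Λ := mul_le_mul_of_nonneg_left hKx hb.le
  have h1Λ : ∀ a b : ℝ, 0 < b → a / b ≤ K → 0 ≤ a → a ≤ b * Λ := by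
    intro a b hb h ha
    have h2 := hxΛ a b hb h
    have h3 : a * 1 ≤ a * x := mul_le_mul_of_nonneg_left hx1 ha
    linarith
  have g1 := hΛD 20 1 one_pos (by rw [div_one]; exact K1)
  have g2 := hΛD 1 c0 hc00 K2
  have g3 := hΛD _ κ hκ0 K3
  have g4 := hΛD _ κ hκ0 K4
  have g5 := hΛD (24 * P) 1 one_pos (by rw [div_one]; exact K5)
  have g6 := hΛD _ c hc'0 K6
  have g7 := hΛD _ c0 hc00 K7
  have g8 := hΛD (2 * P * y0) 1 one_pos (by rw [div_one]; exact K8)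
  have g9 := hΛD _ c0 hc00 K9
  have g10 := hΛD _ κ hκ0 K10
  have g11 := hxΛ 1 c hc'0 K11
  have g12 := hxΛ _ θ0 hθ00 K12
  have g13 := hxΛ _ ε hε K13
  have g14 := h1Λ 80 ε hε K14 (by norm_num)
  have g15 := h1Λ (10 * J) ε hε K15 (by positivity)
  have g16 := h1Λ 8 θ0 hθ00 K16 (by norm_num)
  have g17 : 20 * ((J : ℝ) + 2) ^ 2 ≤ x := K17.trans hn
  have g18 : 8 * Real.log (16 * J * (1 / κ + 1)) ≤ x * θ0 ^ 2 := by
    have := K18.trans hn
    rwa [div_le_iff₀ (by positivity)] at this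
  have gx : x ≤ Λ := (le_mul_of_one_le_left hx0.le hK1).trans hKx
  have hεΛle : ε * Λ ≤ Λ := mul_le_of_le_one_left hΛ0.le hε1
  have gΛ1 : 80 ≤ Λ := g14.trans hεΛle
  rw [one_mul] at g1 g5 g8 g11
  rw [one_mul] at g2
  -- the quantities
  obtain ⟨d, hd⟩ : ∃ d : ℕ, d = ⌊D - ε * Λ⌋₊ := ⟨_, rfl⟩
  have hDε : 0 ≤ D - ε * Λ := by linarith
  have hd1 : (d : ℝ) ≤ D - ε * Λ := by rw [hd]; exact Nat.floor_le hDε
  have hd2 : D - ε * Λ ≤ d + 1 := by rw [hd]; exact (Nat.lt_floor_add_one _).le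
  have hdgd : ∀ v, dg G v ≤ d := by
    intro v
    rw [hd]
    apply Nat.le_floor
    have := hdeg v
    linarith
  have hεΛ : 0 < ε * Λ := by positivity
  have hdD : d ≤ D' := by
    have : (d : ℝ) ≤ D' := by rw [← hD]; linarith
    exact_mod_cast this
  have hDd : D ≤ 2 * d := by linarith
  have hd0 : (0 : ℝ) < d := by linarith
  have hd1n : 1 ≤ d := by exact_mod_cast hd0
  obtain ⟨t, ht⟩ : ∃ t : ℕ, t = ⌈t0 * Λ⌉₊ := ⟨_, rfl⟩
  have ht1' : t0 * Λ ≤ t := by rw [ht]; exact Nat.le_ceil _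
  have ht2' : (t : ℝ) ≤ t0 * Λ + 1 := by rw [ht]; exact (Nat.ceil_lt_add_one (by positivity)).le
  have ht50 : 50 ≤ t0 := by linarith
  have ht0Λ : 50 * Λ ≤ t0 * Λ := mul_le_mul_of_nonneg_right ht50 hΛ0.le
  have ht3' : (t : ℝ) ≤ 2 * (t0 * Λ) := by linarith
  have htpos : (0 : ℝ) < t := by linarith
  obtain ⟨r, hr⟩ : ∃ r : ℕ, r = ⌊θ0 * Λ / 4⌋₊ := ⟨_, rfl⟩
  have hr1 : (r : ℝ) ≤ θ0 * Λ / 4 := by rw [hr]; exact Nat.floor_le (by positivity)
  have hr2 : θ0 * Λ / 4 ≤ r + 1 := by rw [hr]; exact (Nat.lt_floor_add_one _).le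
  have hr3 : θ0 * Λ / 8 ≤ r := by linarith
  have hrpos : (0 : ℝ) < r := by linarith
  obtain ⟨b, hb⟩ : ∃ b : ℕ, b = ⌊κ1 * D⌋₊ := ⟨_, rfl⟩
  have hb1 : (b : ℝ) ≤ κ1 * D := by rw [hb]; exact Nat.floor_le (by positivity)
  have hJpos : (0 : ℝ) < J := by linarith
  have hPpos : (0 : ℝ) < P := by linarith
  obtain ⟨z, hz⟩ : ∃ z : ℕ, z = ⌊κ * D / (J * (8 * P) * (J * t))⌋₊ := ⟨_, rfl⟩
  have hz1 : (z : ℝ) ≤ κ * D / (J * (8 * P) * (J * t)) := by
    rw [hz]; exact Nat.floor_le (by positivity)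
  have hz2 : κ * D / (J * (8 * P) * (J * t)) ≤ z + 1 := by
    rw [hz]; exact (Nat.lt_floor_add_one _).le
  have hz1' : (J * t * z : ℝ) ≤ κ * D / (J * (8 * P)) := by
    rw [le_div_iff₀ (by positivity)] at hz1 ⊢
    calc (J * t * z : ℝ) * (J * (8 * P)) = z * (J * (8 * P) * (J * t)) := by ring
      _ ≤ κ * D := hz1
  have hz3 : κ * D / (J * (8 * P) * (J * (2 * (t0 * Λ)))) ≤ z + 1 := by
    refine le_trans ?_ hz2
    apply div_le_div_of_nonneg_left (by positivity) (by positivity)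
    exact mul_le_mul_of_nonneg_left (mul_le_mul_of_nonneg_left ht3' hJpos.le) (by positivity)
  have hz4 : κ * D / (J * (8 * P) * (J * (4 * (t0 * Λ)))) ≤ z := by
    have h1 : 1 ≤ κ * D / (J * (8 * P) * (J * (4 * (t0 * Λ)))) := by
      rw [le_div_iff₀ (by positivity), one_mul]
      calc J * (8 * P) * (J * (4 * (t0 * Λ))) = 32 * J ^ 2 * P * t0 * Λ := by ring
        _ ≤ κ * D := g4
    have h2 : κ * D / (J * (8 * P) * (J * (2 * (t0 * Λ)))) =
        2 * (κ * D / (J * (8 * P) * (J * (4 * (t0 * Λ))))) := by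
      field_simp
      ring
    linarith
  have hbzr : (b : ℝ) ≤ z * r := by
    calc (b : ℝ) ≤ κ1 * D := hb1
      _ = κ * D / (J * (8 * P) * (J * (4 * (t0 * Λ)))) * (θ0 * Λ / 8) := by
          rw [hκ1e]
          field_simp
          ring
      _ ≤ z * r := mul_le_mul hz4 hr3 (by positivity) (by positivity)
  have hzpos : (0 : ℝ) < z := lt_of_lt_of_le (by positivity) hz4
  obtain ⟨T, hT⟩ : ∃ T : ℝ, T = θ0 * Λ := ⟨_, rfl⟩
  rw [← hT] at hr1 hr2 hr3 g16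
  have hT0 : 0 < T := by rw [hT]; positivity
  have hTJ : 20 * (J * T) = ε * Λ := by rw [hT, ← hθε]; ring
  have hT1 : T ≤ J * T := le_mul_of_one_le_left hT0.le hJ0
  have hT2 : 20 * T ≤ Λ := by linarith only [hTJ, hT1, hεΛle]
  have hT3 : T ^ 2 = θ0 ^ 2 * (D * x) := by rw [hT, mul_pow, hΛ2]
  have hTx : 8 * (C * x) ≤ T := by
    rw [hT]
    calc 8 * (C * x) = 8 * C * x := by ring
      _ ≤ θ0 * Λ := g12
  have hB' : (B : ℝ) ≤ T / 8 := by
    rw [hT]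
    calc (B : ℝ) ≤ θ0 / 8 * Λ := hB
      _ = θ0 * Λ / 8 := by ring
  have hB0 : (0 : ℝ) ≤ B := Nat.cast_nonneg _
  obtain ⟨DP, hDP⟩ : ∃ DP : ℝ, DP = D / P := ⟨_, rfl⟩
  have hDPP : DP * P = D := by rw [hDP]; field_simp
  have hDP0 : 0 < DP := by rw [hDP]; positivity
  have hdP : (d : ℝ) / P ≤ DP := by
    rw [hDP]
    exact div_le_div_of_nonneg_right (by linarith only [hd1, hεΛ]) hPpos.le
  have hdP2 : DP / 2 ≤ d / P := by
    rw [hDP, div_div, mul_comm P 2, ← div_div]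
    exact div_le_div_of_nonneg_right (by linarith only [hDd]) hPpos.le
  have g5' : 24 * Λ ≤ DP := by
    rw [hDP, le_div_iff₀ hPpos]
    linarith only [g5]
  have g9' : 160 * Λ ≤ c0 * DP := by
    rw [hDP, ← mul_div_assoc, le_div_iff₀ hPpos]
    linarith only [g9]
  have g7' : 8 * Λ ≤ c0 * DP := by linarith only [g9', hΛ0]
  have g6' : 16 * J * t0 * Λ ≤ c * DP := by
    rw [hDP, ← mul_div_assoc, le_div_iff₀ hPpos]
    linarith only [g6]
  have g8' : 2 * (y0 * Λ) ≤ DP := by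
    rw [hDP, le_div_iff₀ hPpos]
    linarith only [g8]
  obtain ⟨e1, he1⟩ : ∃ e1 : ℝ, e1 = ε * Λ / (2 * J) := ⟨_, rfl⟩
  have he1J : J * e1 = ε * Λ / 2 := by rw [he1]; field_simp
  have he10 : 10 * T = e1 := by
    rw [he1, ← hTJ]
    field_simp
    ring
  obtain ⟨q, hq⟩ : ∃ q : ℕ → ℝ, q = fun j => if j < J then ((d : ℝ) / 2 ^ (j + 1) + e1) / D
    else (D - d + d / P - ε * Λ / 2) / D := ⟨_, rfl⟩
  have hqj : ∀ j < J, q j * D = (d : ℝ) / 2 ^ (j + 1) + e1 := by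
    intro j hj
    rw [hq]
    simp only [if_pos hj]
    field_simp
  have hqJ : q J * D = D - d + d / P - ε * Λ / 2 := by
    rw [hq]
    simp only [lt_irrefl, if_false]
    field_simp
  have hqJ0 : 0 < q J * D := by
    rw [hqJ]
    linarith only [hd1, hεΛ, hdP2, hDP0]
  have hqj0 : ∀ j < J, 0 < q j * D := by
    intro j hj
    rw [hqj j hj, ← he10]
    positivity
  have hqpos : ∀ j ≤ J, 0 < q j := by
    intro j hj
    rcases Nat.lt_or_eq_of_le hj with h | h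
    · exact (mul_pos_iff_of_pos_right hD0).1 (hqj0 j h)
    · rw [h]; exact (mul_pos_iff_of_pos_right hD0).1 hqJ0
  have hqsum : ∑ j ∈ range (J + 1), q j = 1 := by
    have h1 : (∑ j ∈ range (J + 1), q j) * D = 1 * D := by
      rw [sum_range_succ, add_mul, sum_mul, hqJ, sum_congr rfl (fun j hj => hqj j (mem_range.1 hj)),
        sum_add_distrib, sum_half, sum_const, card_range, nsmul_eq_mul, he1J, hP]
      ring
    exact mul_right_cancel₀ hD0.ne' h1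
  have hqlow' : ∀ j < J, (d : ℝ) / P + 10 * T ≤ q j * D := by
    intro j hj
    rw [hqj j hj]
    have h1 : (d : ℝ) / P ≤ d / 2 ^ (j + 1) := by
      rw [hP]
      apply div_le_div_of_nonneg_left hd0.le (by positivity)
      exact pow_le_pow_right₀ (by norm_num) hj
    linarith only [h1, he10]
  have hqlow : ∀ j < J, DP / 2 ≤ q j * D := by
    intro j hj
    linarith only [hqlow' j hj, hdP2, hT0]
  have hDx : 0 < D * x := mul_pos hD0 hx0
  have r1 : Real.exp (-((5 * Λ) ^ 2) / (4 * D)) ≤ Real.exp (-(5 * x)) :=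
    expb (5 * Λ) D x hD0 (by rw [mul_pow, hΛ2]; linarith only [hDx])
  have hPθ : 40 ≤ P * θ0 ^ 2 := by
    have h1 : θ0 ^ 2 = ε ^ 2 / (400 * J ^ 2) := by
      rw [hθ0, div_pow, mul_pow]
      norm_num
    calc (40 : ℝ) = 16000 * J ^ 2 / ε ^ 2 * (ε ^ 2 / (400 * J ^ 2)) := by
          field_simp
          norm_num
      _ ≤ P * (ε ^ 2 / (400 * J ^ 2)) := mul_le_mul_of_nonneg_right hJa (by positivity)
      _ = P * θ0 ^ 2 := by rw [h1]
  have r2 : Real.exp (-(T ^ 2) / (4 * (2 * DP))) ≤ Real.exp (-(5 * x)) :=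
    expb T (2 * DP) x (by positivity) (by
      rw [hT3, ← hDPP]
      calc 20 * x * (2 * DP) = 40 * (DP * x) := by ring
        _ ≤ (P * θ0 ^ 2) * (DP * x) := mul_le_mul_of_nonneg_right hPθ (by positivity)
        _ = θ0 ^ 2 * (DP * P * x) := by ring)
  have r3 : Real.exp (-((T / 2) ^ 2) / (4 * (c0 * D))) ≤ Real.exp (-(5 * x)) :=
    expb (T / 2) (c0 * D) x (by positivity) (by
      rw [div_pow, hT3, hc0]
      apply le_of_eq
      ring)
  have r4 : ∀ j < J, Real.exp (-(q j * (c0 * D)) / 16) ≤ Real.exp (-(5 * x)) := by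
    intro j hj
    apply Real.exp_le_exp.2
    have h1 : c0 * (DP / 2) ≤ c0 * (q j * D) := mul_le_mul_of_nonneg_left (hqlow j hj) hc00.le
    have h2 : q j * (c0 * D) = c0 * (q j * D) := by ring
    rw [h2]
    linarith only [h1, g9', gx]
  have r5 : ∀ j < J, c0 * (d / P) / 2 ≤ q j * (c0 * D) / 2 := by
    intro j hj
    have h0 : (d : ℝ) / P ≤ q j * D := by linarith only [hqlow' j hj, hT0]
    have h1 : c0 * (d / P) ≤ c0 * (q j * D) := mul_le_mul_of_nonneg_left h0 hc00.le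
    have h2 : q j * (c0 * D) = c0 * (q j * D) := by ring
    rw [h2]
    linarith only [h1]
  have r6 : Real.exp (-(T ^ 2) / (4 * D)) ≤ Real.exp (-(θ0 ^ 2 * x / 4)) := by
    apply le_of_eq
    congr 1
    rw [hT3]
    field_simp
  have hnum := numN J x hJ0 g17
  have r7 : (n : ℝ) ^ 3 * (5 * (J + 1)) * Real.exp (-(5 * x)) ≤ 1 / 4 := by rw [hnx]; exact hnum.1
  have s2 : (n : ℝ) * (J + 2 + J * J) * Real.exp (-(5 * x)) ≤ 1 / 4 := by
    rw [hnx]; exact hnum.2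
  obtain ⟨ρ0, hρ0⟩ : ∃ ρ0 : ℝ, ρ0 = Real.exp (-(θ0 ^ 2 * x / 4)) := ⟨_, rfl⟩
  have hρ00 : 0 < ρ0 := by rw [hρ0]; exact Real.exp_pos _
  obtain ⟨N, hN⟩ : ∃ N : ℝ, N = (8 * J / κ + 8 * J) * Real.exp x * ρ0 := ⟨_, rfl⟩
  have hN0 : 0 < N := by rw [hN]; positivity
  have hN2 : 2 * N ≤ (n : ℝ) ^ (1 - θ0 ^ 2 / 8) := by
    rw [Real.rpow_def_of_pos hn0, ← hx, hN, hρ0]
    exact numK J κ θ0 x hJ0 hκ0 g18
  have hdDle : (d : ℝ) ≤ D := by linarith only [hd1, hεΛ]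
  have r8 : (n : ℝ) * d * J * ρ0 / (κ * D) ≤ N / 4 := by
    calc (n : ℝ) * d * J * ρ0 / (κ * D) ≤ (n : ℝ) * D * J * ρ0 / (κ * D) := by
          apply div_le_div_of_nonneg_right _ (by positivity)
          apply mul_le_mul_of_nonneg_right _ hρ00.le
          apply mul_le_mul_of_nonneg_right _ hJpos.le
          exact mul_le_mul_of_nonneg_left hdDle hn0.le
      _ = 2 * J / κ * n * ρ0 / 2 := by
          field_simp
      _ ≤ 2 * J / κ * n * ρ0 := by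
          have : 0 < 2 * J / κ * n * ρ0 := by positivity
          linarith only [this]
      _ ≤ 2 * J / κ * n * ρ0 + 2 * J * n * ρ0 := by
          have : 0 < 2 * J * n * ρ0 := by positivity
          linarith only [this]
      _ = N / 4 := by
          rw [hN, ← hnx]
          ring
  have s3 : (n : ℝ) * J * ρ0 ≤ N / 4 := by
    rw [hN, ← hnx]
    have h1 : 0 < 2 * J / κ * n * ρ0 := by positivity
    have h2 : 0 < J * n * ρ0 := by positivity
    have h3 : (8 * J / κ + 8 * J) * n * ρ0 / 4 = 2 * J / κ * n * ρ0 + 2 * (J * n * ρ0) := by ring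
    rw [h3]
    linarith only [h1, h2]
  obtain ⟨h1, hh1⟩ : ∃ h1 : ℝ, h1 = κ * D / (2 * J) := ⟨_, rfl⟩
  have hh1J : 2 * J * h1 = κ * D := by rw [hh1]; field_simp
  have hh10 : 0 < h1 := by rw [hh1]; positivity
  have hh1P : 80 * P * Λ ≤ h1 := by
    rw [hh1, le_div_iff₀ (by positivity)]
    linarith only [g10]
  have s1 : Real.exp (-h1 / (16 * 2 ^ J)) ≤ Real.exp (-(5 * x)) := by
    apply Real.exp_le_exp.2
    rw [neg_div, neg_le_neg_iff, le_div_iff₀ (by positivity), ← hP]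
    have h2 : P * x ≤ P * Λ := mul_le_mul_of_nonneg_left gx hPpos.le
    linarith only [h2, hh1P]
  have s5 : 2 * J * h1 ≤ (d : ℝ) / 2 ^ J := by
    rw [hh1J, ← hP, ← hDPP]
    have h2 : κ * (2 * P) * DP ≤ 1 * DP := mul_le_mul_of_nonneg_right hκP hDP0.le
    linarith only [h2, hdP2]
  have hlogd : Real.log d ≤ x := by
    rw [hx]
    exact Real.log_le_log hd0 (by linarith only [hdDle, hDn])
  have m1 : 34 * (2 * (B : ℝ)) * (1 + Real.log d) ≤ d := by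
    have h2 : 34 * (2 * (B : ℝ)) ≤ Λ := by linarith only [hB', hT2, hT0]
    have h3 : 34 * (2 * (B : ℝ)) * (1 + Real.log d) ≤ Λ * (1 + x) := by
      calc 34 * (2 * (B : ℝ)) * (1 + Real.log d) ≤ 34 * (2 * (B : ℝ)) * (1 + x) :=
            mul_le_mul_of_nonneg_left (by linarith only [hlogd]) (by positivity)
        _ ≤ Λ * (1 + x) := mul_le_mul_of_nonneg_right h2 (by positivity)
    have h4 : 0 < Λ * (1 + x) := by positivity
    have h5 : 20 * (Λ * (1 + x)) ≤ K * (Λ * (1 + x)) := mul_le_mul_of_nonneg_right K1 h4.le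
    linarith only [h3, h4, h5, hsize, hDd]
  obtain ⟨E, hE⟩ : ∃ E : ℝ, E = κ * D / (J * P) := ⟨_, rfl⟩
  have hE1 : κ * D / (J * (8 * P)) = E / 8 := by rw [hE]; field_simp
  have hE2 : h1 / 2 ^ (J + 1) = E / 4 := by
    rw [hh1, hE, pow_succ, ← hP]
    field_simp
    norm_num
  have hE3 : 16 * Λ ≤ E := by
    rw [hE, le_div_iff₀ (by positivity)]
    linarith only [g3]
  have hJ2 : (1 : ℝ) ≤ J ^ 2 := one_le_pow₀ hJ0
  have hκκ : κ1 * (16 * (J * P)) ≤ κ := by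
    have h2 : 16 * (J * P) ≤ J ^ 2 * (256 * P) * t0 := by
      have h3 : (J : ℝ) ≤ J ^ 2 := by
        rw [pow_two]
        exact le_mul_of_one_le_left hJpos.le hJ0
      have h4 : (J : ℝ) * P ≤ J ^ 2 * P := mul_le_mul_of_nonneg_right h3 hPpos.le
      have h5 : (J : ℝ) ^ 2 * P * 1 ≤ J ^ 2 * P * t0 :=
        mul_le_mul_of_nonneg_left (by linarith only [ht50]) (by positivity)
      have h6 : 0 < (J : ℝ) ^ 2 * P := by positivity
      linarith only [h4, h5, h6]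
    calc κ1 * (16 * (J * P)) ≤ κ1 * (J ^ 2 * (256 * P) * t0) :=
          mul_le_mul_of_nonneg_left h2 hκ10.le
      _ = κ * θ0 := hκ1m
      _ ≤ κ := mul_le_of_le_one_right hκ0.le (by linarith only [hθ1])
  have hκ1κ : κ1 ≤ κ := by
    have h2 : 1 ≤ 16 * ((J : ℝ) * P) := by
      have := one_le_mul_of_one_le_of_one_le hJ0 hP1
      linarith only [this]
    exact (le_mul_of_one_le_right hκ10.le h2).trans hκκ
  have hbE : (b : ℝ) ≤ E / 16 := by
    refine hb1.trans ?_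
    rw [hE, div_div, le_div_iff₀ (by positivity)]
    calc κ1 * D * (J * P * 16) = κ1 * (16 * (J * P)) * D := by ring
      _ ≤ κ * D := mul_le_mul_of_nonneg_right hκκ hD0.le
  have m2 : ((J * t * z : ℕ) : ℝ) ≤ h1 / 2 ^ (J + 1) - b - B := by
    push_cast
    rw [hE2]
    rw [hE1] at hz1'
    linarith only [hz1', hbE, hB', hT2, hE3, hT0, hΛ0]
  have m3 : (B : ℝ) ≤ T := by linarith only [hB', hT0]
  have ht0Λ2 : J * (50 * Λ) ≤ J * (t0 * Λ) := mul_le_mul_of_nonneg_left ht0Λ hJpos.le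
  have hJΛ : Λ ≤ J * Λ := le_mul_of_one_le_left hΛ0.le hJ0
  have hJtl : (J : ℝ) * t ≤ J * (t0 * Λ) + J := by
    have := mul_le_mul_of_nonneg_left ht2' hJpos.le
    linarith only [this]
  have hJJΛ : 80 * (J : ℝ) ≤ J * Λ := by
    have := mul_le_mul_of_nonneg_left gΛ1 hJpos.le
    linarith only [this]
  have n2 : ∀ j < J, ((J * t : ℕ) : ℝ) + r < c * (q j * D - 5 * Λ - (2 * B : ℕ)) := by
    intro j hj
    push_cast
    have h2 : DP / 4 ≤ q j * D - 5 * Λ - 2 * B := by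
      linarith only [hqlow j hj, g5', hB', hT2, hT0, hΛ0]
    have h3 : c * (DP / 4) ≤ c * (q j * D - 5 * Λ - 2 * B) := mul_le_mul_of_nonneg_left h2 hc'0.le
    linarith only [h3, g6', hJtl, hJJΛ, ht0Λ2, hr1, hT2, hJΛ, hΛ0, hT0, hJpos]
  have n3 : 2 * c * D ≤ c0 * (d / P) / 2 - (2 * B : ℕ) := by
    push_cast
    have h2 : 2 * c * D = c0 * DP / 8 := by
      rw [← hDPP, ← hcP]
      ring
    have h3 : c0 * (DP / 2) ≤ c0 * (d / P) := mul_le_mul_of_nonneg_left hdP2 hc00.le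
    rw [h2]
    linarith only [h3, g7', hB', hT2, hT0, hΛ0]
  have hct : 50 * (J * Λ) ≤ c * t := by
    calc 50 * (J * Λ) = (t0 * c) * Λ := by rw [ht0c]; ring
      _ = c * (t0 * Λ) := by ring
      _ ≤ c * t := mul_le_mul_of_nonneg_left ht1' hc'0.le
  have n4 : 12 * Real.log n ≤ c ^ 2 * t := by
    rw [← hx]
    have h2 : c * (50 * (J * Λ)) ≤ c * (c * t) := mul_le_mul_of_nonneg_left hct hc'0.le
    have h3 : c * Λ ≤ c * (J * Λ) := mul_le_mul_of_nonneg_left hJΛ hc'0.le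
    have h4 : c ^ 2 * (t : ℝ) = c * (c * t) := by ring
    rw [h4]
    linarith only [h2, h3, g11, hx0]
  have n5 : 2 * (5 * Λ) ≤ c / 4 * t := by
    linarith only [hct, hJΛ, hΛ0]
  have nE : ((2 * B : ℕ) : ℝ) + r + T ≤ 2 * T := by
    push_cast
    linarith only [hB', hr1, hT0]
  have n6 : 4 * (2 * T) + 1 ≤ e1 := by linarith only [he10, g16]
  have n7 : J * (2 * (5 * Λ) + 1) ≤ (t : ℝ) := by
    have h2 : 50 * (J * Λ) ≤ t0 * Λ := by
      calc 50 * (J * Λ) = 50 * J * Λ := by ring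
        _ ≤ t0 * Λ := mul_le_mul_of_nonneg_right ht1 hΛ0.le
    linarith only [h2, ht1', hJJΛ, hJpos]
  have ny : 5 * Λ + (2 * B : ℕ) + 2 * (J * t + r) + T + 2 * T + 1 ≤ y0 * Λ := by
    push_cast
    have h2 : y0 * Λ = 3 * (J * (t0 * Λ)) := by rw [hy0]; ring
    rw [h2]
    linarith only [hJtl, ht0Λ2, hJJΛ, hJΛ, hB', hr1, hT2, hT0, hJ0]
  have ny2 : y0 * Λ ≤ d / 2 ^ J := by
    rw [← hP]
    linarith only [g8', hdP2]
  have n8 : (d : ℝ) / 2 + 2 * T + 1 ≤ n := by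
    linarith only [hdDle, hDn, hT2, g1, gΛ1]
  have hyΛ : 150 * Λ ≤ y0 * Λ := by
    have h2 : (150 : ℝ) ≤ y0 := by linarith only [hy00, hJ0]
    exact mul_le_mul_of_nonneg_right h2 hΛ0.le
  have n9 : C * ((κ * D + b) * (y0 * Λ + Real.log n) * 2 ^ J / d + Real.log n) ≤ T := by
    rw [← hx, ← hP]
    have h2 : (b : ℝ) ≤ κ * D := hb1.trans (mul_le_mul_of_nonneg_right hκ1κ hD0.le)
    have h3 : (κ * D + b) * (y0 * Λ + x) * P / d ≤ 8 * (κ * y0 * P) * Λ := by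
      rw [div_le_iff₀ hd0]
      calc (κ * D + b) * (y0 * Λ + x) * P ≤ (2 * (κ * D)) * (2 * (y0 * Λ)) * P := by
            apply mul_le_mul_of_nonneg_right _ hPpos.le
            apply mul_le_mul (by linarith only [h2]) (by linarith only [gx, hyΛ, hΛ0])
              (by positivity) (by positivity)
        _ = 4 * (κ * y0 * P) * Λ * D := by ring
        _ ≤ 4 * (κ * y0 * P) * Λ * (2 * d) :=
            mul_le_mul_of_nonneg_left hDd (by positivity)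
        _ = 8 * (κ * y0 * P) * Λ * d := by ring
    have h4 : C * (8 * (κ * y0 * P) * Λ) = T / 8 := by
      rw [hT, ← hκe]
      ring
    have h5 := mul_le_mul_of_nonneg_left h3 (show (0 : ℝ) ≤ C by linarith only [hC])
    rw [mul_add]
    linarith only [h4, h5, hTx, hT0]
  have n10 : (d : ℝ) / 2 ^ J + 2 * T + 1 + C * Real.sqrt ((d / 2 ^ J + 2 * T + 1) * Real.log n) +
      C * Real.log n ≤ q J * D - 2 * T - (2 * B : ℕ) := by
    rw [← hx, ← hP, hqJ]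
    push_cast
    have hC0 : 0 < C := by linarith only [hC]
    have h2 : (d / P + 2 * T + 1) * x ≤ (ε * Λ / (8 * C)) ^ 2 := by
      have h3 : (d : ℝ) / P + 2 * T + 1 ≤ 2 * DP := by linarith only [hdP, hT2, g5', gΛ1]
      have h4 : (ε * Λ / (8 * C)) ^ 2 = ε ^ 2 / (64 * C ^ 2) * P * (DP * x) := by
        rw [div_pow, mul_pow, hΛ2, mul_pow, ← hDPP]
        ring
      have h5 : 2 ≤ ε ^ 2 / (64 * C ^ 2) * P := by
        calc (2 : ℝ) = ε ^ 2 / (64 * C ^ 2) * (128 * C ^ 2 / ε ^ 2) := by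
              field_simp
              norm_num
          _ ≤ ε ^ 2 / (64 * C ^ 2) * P := mul_le_mul_of_nonneg_left hJb (by positivity)
      rw [h4]
      calc (d / P + 2 * T + 1) * x ≤ 2 * DP * x := mul_le_mul_of_nonneg_right h3 hx0.le
        _ = 2 * (DP * x) := by ring
        _ ≤ ε ^ 2 / (64 * C ^ 2) * P * (DP * x) := mul_le_mul_of_nonneg_right h5 (by positivity)
    have h6 : Real.sqrt ((d / P + 2 * T + 1) * x) ≤ ε * Λ / (8 * C) :=
      Real.sqrt_le_iff.2 ⟨by positivity, h2⟩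
    have h7 : C * Real.sqrt ((d / P + 2 * T + 1) * x) ≤ ε * Λ / 8 := by
      calc C * Real.sqrt ((d / P + 2 * T + 1) * x) ≤ C * (ε * Λ / (8 * C)) :=
            mul_le_mul_of_nonneg_left h6 hC0.le
        _ = ε * Λ / 8 := by field_simp
    have h8 : 80 * (C * x) ≤ ε * Λ := by
      calc 80 * (C * x) = 80 * C * x := by ring
        _ ≤ ε * Λ := g13
    linarith only [h7, h8, hd1, hTJ, hT1, hB', g14, hT0]
  have H3' : ∀ X : Finset (Fin n), (X.card : ℝ) ≤ 2 * N →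
      2 * (univ.filter (fun v => b < ((nb G v).filter (fun w => w ∈ X)).card)).card ≤ N2 := by
    intro X hX
    have h2 := H3 X (hX.trans hN2)
    have h3 : univ.filter (fun v => b < ((nb G v).filter (fun w => w ∈ X)).card) =
        univ.filter (fun v => κ1 * D < ((nb G v).filter (fun w => w ∈ X)).card) := by
      apply filter_congr
      intro v _
      rw [hb, Nat.floor_lt (by positivity)]
    rw [h3]
    exact h2
  have hn2 : 2 ≤ n := by
    have h2 : (2 : ℝ) ≤ n := by linarith only [hDn, g1, gΛ1]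
    exact_mod_cast h2
  have a1 : 5 * Λ ≤ 2 * d := by linarith only [g1, hDd, hΛ0]
  have a2 : T ≤ 2 * d := by linarith only [g1, hDd, hΛ0, hT2, hT0]
  have a3 : T / 2 ≤ 2 * (c0 * D) := by
    linarith only [g2, hT2, hT0]
  have a4 : q J * D ≤ 2 * DP := by
    rw [hqJ]
    linarith only [hd2, hdP, g5', hεΛle, gΛ1]
  have a5 : (d : ℝ) / 2 ^ J ≤ 2 * DP := by
    rw [← hP]
    linarith only [hdP, hDP0]
  have a6 : T ≤ 2 * (2 * DP) := by linarith only [g5', hT2, hT0, hΛ0]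
  have hq1 : ∀ j < J, (d : ℝ) / 2 ^ (j + 1) + e1 ≤ q j * D := fun j hj => (hqj j hj).ge
  have hq2 : ∀ j < J, q j * D + 5 * Λ ≤ (d : ℝ) / 2 ^ (j + 1) + t := by
    intro j hj
    rw [hqj j hj]
    linarith only [he10, hT2, ht1', ht0Λ, hΛ0]
  have m1' : 34 * (2 * B : ℝ) * (1 + Real.log d) ≤ d := m1
  have hbzr' : b ≤ z * r := by exact_mod_cast hbzr
  have hrp : 0 < r := by exact_mod_cast hrpos
  have hzp : 0 < z := by exact_mod_cast hzpos
  subst hD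
  refine hmain n hn2 G J t r z b d D' B N2 L0 q T (5 * Λ) e1 c c0 (c0 * (d / P) / 2) T (κ * D')
    (y0 * Λ) N (Real.exp (-(5 * x))) ρ0 (2 * DP) h1 hJ1 hrp hzp hbzr' hT0 (by positivity) hT0.le
    hc'0 hc'1 (by positivity) (by positivity) hc00 hc01 (by positivity) hN0 hh10 hsym hcard hdgd
    hdD hqpos hqsum hq1 hq2 a1 a2 a3 a4 a5 a6 r1 r2 r3 r4 r5 ?_ r7 r8 s1 s2 s3 hh1J.le s5 H2 H3'
    m1' m2 m3 n2 n3 n4 n5 nE n6 n7 ny ny2 n8 hd1n n9 n10
  rw [hρ0]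
  exact r6

end Pool.Agent.K4H76.LD
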