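import Pool.Agent.K4H76.LD.Dense2

/-!
# Few vertices of nearly maximum degree, no dense small sets
-/

set_option autoImplicit false
set_option linter.unusedSectionVars false

namespace Pool.Agent.K4H76.LD

open Finset Pool.Agent.H162R2.Sparse Pool.Agent.H162R2.AG Pool.Agent.K4H76.LR
  Pool.Agent.H892.LEC

theorem LC_mono {V : Type} [Fintype V] [DecidableEq V] (G : SimpleGraph V)
    (L L' : V → V → Finset ℕ) (h : ∀ a b, G.Adj a b → L' a b ⊆ L a b) (h' : LC G L') : LC G L := by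
  obtain ⟨f, h1, h2, h3⟩ := h'
  exact ⟨f, h1, fun a b hab => h a b hab (h2 a b hab), h3⟩

theorem few_dens {V : Type} [Fintype V] [DecidableEq V] (G : SimpleGraph V) (T : Finset V) :
    Dens (A_meetX G T) (2 * T.card) := by
  classical
  apply dens_meet
  · intro X hX
    have h1 : (pr G).filter (fun e => e.1 ∈ X ∧ e.2 ∈ X) ⊆ X ×ˢ T := by
      intro e he
      obtain ⟨_, h1, h2⟩ := mem_filter.1 he
      exact mem_product.2 ⟨h1, hX h2⟩
    have h2 := card_le_card h1
    rw [card_product] at h2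
    have h3 : (((pr G).filter (fun e => e.1 ∈ X ∧ e.2 ∈ X)).card : ℝ) ≤ X.card * T.card := by
      exact_mod_cast h2
    have h4 : (0 : ℝ) ≤ X.card * T.card := by positivity
    nlinarith
  · intro v _
    have h1 : (nb G v).filter (fun w => w ∈ T) ⊆ T := fun w hw => (mem_filter.1 hw).2
    have h2 : (((nb G v).filter (fun w => w ∈ T)).card : ℝ) ≤ T.card := by
      exact_mod_cast card_le_card h1
    linarith

open Classical in
theorem dense3 (ε : ℝ) (hε : 0 < ε) (hε1 : ε ≤ 1) : ∃ κ1 κ2 κ3 K : ℝ, 0 < κ1 ∧ 0 < κ2 ∧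
    0 < κ3 ∧ κ3 < 1 ∧ 1 ≤ K ∧ ∀ (n : ℕ), K ≤ Real.log n →
    ∀ (G : SimpleGraph (Fin n)) (D B N2 : ℕ) (T0 : Finset (Fin n)),
    1 ≤ D → (D : ℝ) ≤ n →
    (∀ v, dg G v ≤ D) →
    (∀ v, v ∉ T0 → (dg G v : ℝ) + ε * Real.sqrt (D * Real.log n) ≤ D) →
    K * (Real.sqrt (D * Real.log n) * (1 + Real.log n)) ≤ D →
    (T0.card : ℝ) ≤ κ2 * Real.sqrt (D * Real.log n) →
    (B : ℝ) ≤ κ2 * Real.sqrt (D * Real.log n) →
    (∀ X : Finset (Fin n), X.card ≤ N2 → ep G X ≤ B * X.card) →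
    (∀ X : Finset (Fin n), (X.card : ℝ) ≤ (n : ℝ) ^ (1 - κ3) →
      2 * (univ.filter (fun v => κ1 * D < ((nb G v).filter (fun w => w ∈ X)).card)).card ≤ N2) →
    ∀ L : Fin n → Fin n → Finset ℕ, (∀ x y, L x y = L y x) →
      (∀ x y, G.Adj x y → D ≤ (L x y).card) → LC G L := by
  obtain ⟨κ1, κ2, κ3, K, hκ1, hκ2, hκ3, hκ31, hK, hmain⟩ := dense2 (ε / 2) (by positivity)
    (by linarith)
  refine ⟨κ1 / 2, min (κ2 / 2) (ε / 4), κ3, 2 * K + 34, by positivity, by positivity, hκ3, hκ31,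
    by linarith, ?_⟩
  intro n hn G D B N2 T0 hD1 hDn hdeg hT0 hsize hTc hB H2 H3 L hsym hL
  obtain ⟨x, hx⟩ : ∃ x : ℝ, x = Real.log n := ⟨_, rfl⟩
  rw [← hx] at hn hT0 hsize hTc hB
  have hx1 : 1 ≤ x := by linarith
  have hx0 : 0 < x := by linarith
  obtain ⟨Λ, hΛ⟩ : ∃ Λ : ℝ, Λ = Real.sqrt (D * x) := ⟨_, rfl⟩
  rw [← hΛ] at hT0 hsize hTc hB
  have hD0 : (1 : ℝ) ≤ D := by exact_mod_cast hD1
  have hΛ2 : Λ ^ 2 = D * x := by rw [hΛ, Real.sq_sqrt (by positivity)]
  have hΛ0 : 0 < Λ := by rw [hΛ]; exact Real.sqrt_pos.2 (by positivity)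
  have hsize' : (2 * K + 34) * Λ ≤ D := by
    have h1 : 0 < (2 * K + 34) * Λ * x := by positivity
    have h2 : (2 * K + 34) * (Λ * (1 + x)) = (2 * K + 34) * Λ + (2 * K + 34) * Λ * x := by ring
    linarith
  have hKΛ : 0 ≤ K * Λ := by positivity
  have h34 : 34 * Λ ≤ D := by linarith
  have hT1 : (T0.card : ℝ) ≤ ε / 4 * Λ :=
    hTc.trans (mul_le_mul_of_nonneg_right (min_le_right _ _) hΛ0.le)
  have hB1 : (B : ℝ) ≤ κ2 / 2 * Λ :=
    hB.trans (mul_le_mul_of_nonneg_right (min_le_left _ _) hΛ0.le)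
  have hεΛ : ε * Λ ≤ Λ := mul_le_of_le_one_left hΛ0.le hε1
  have hT2 : 4 * (T0.card : ℝ) ≤ Λ := by linarith
  -- the edges meeting `T0`
  have hlogD : Real.log D ≤ x := by
    rw [hx]
    exact Real.log_le_log (by linarith) hDn
  have ha : 34 * (2 * (T0.card : ℝ)) * (1 + Real.log D) ≤ D := by
    have h1 : 34 * (2 * (T0.card : ℝ)) ≤ 17 * Λ := by linarith
    calc 34 * (2 * (T0.card : ℝ)) * (1 + Real.log D) ≤ 34 * (2 * (T0.card : ℝ)) * (1 + x) :=
          mul_le_mul_of_nonneg_left (by linarith) (by positivity)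
      _ ≤ 17 * Λ * (1 + x) := mul_le_mul_of_nonneg_right h1 (by linarith)
      _ = 17 * (Λ * (1 + x)) := by ring
      _ ≤ (2 * K + 34) * (Λ * (1 + x)) :=
          mul_le_mul_of_nonneg_right (by linarith) (by positivity)
      _ ≤ D := hsize
  obtain ⟨f₁, k1, k2, k3⟩ := main_edge D (2 * T0.card) ha L hsym (pr (A_meetX G T0)).card
    (A_meetX G T0) rfl
    (fun v => (dg_mono (G := G) (H := A_meetX G T0)
      (fun x y hxy => ((A_meetX_adj G T0 x y).1 hxy).1) v).trans (hdeg v)) (few_dens G T0)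
    (fun u v huv => hL u v huv.1)
  refine A_comb G T0 L f₁ k1 k2 k3 ?_
  -- the rest
  set L1 : Fin n → Fin n → Finset ℕ := fun a b =>
    L a b \ (((nb G a).filter (fun w => w ∈ T0)).image (f₁ a) ∪
      ((nb G b).filter (fun w => w ∈ T0)).image (f₁ b)) with hL1
  have hM2 : 4 * T0.card ≤ D := by
    have : (4 * (T0.card : ℝ)) ≤ D := by linarith
    exact_mod_cast this
  obtain ⟨D', hD'⟩ : ∃ D' : ℕ, D' = D - 2 * T0.card := ⟨_, rfl⟩
  have hD'r : (D' : ℝ) = D - 2 * T0.card := by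
    rw [hD', Nat.cast_sub (by omega)]
    push_cast
    ring
  have hD'2 : (D : ℝ) ≤ 2 * D' := by
    have : (4 * (T0.card : ℝ)) ≤ D := by exact_mod_cast hM2
    linarith
  have hD'D : (D' : ℝ) ≤ D := by
    have : (0 : ℝ) ≤ T0.card := Nat.cast_nonneg _
    linarith
  have hD'0 : (0 : ℝ) < D' := by linarith
  have hL1c : ∀ a b, G.Adj a b → D' ≤ (L1 a b).card := by
    intro a b hab
    have e1 := le_card_sdiff (((nb G a).filter (fun w => w ∈ T0)).image (f₁ a) ∪
      ((nb G b).filter (fun w => w ∈ T0)).image (f₁ b)) (L a b)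
    have e2 := card_union_le (((nb G a).filter (fun w => w ∈ T0)).image (f₁ a))
      (((nb G b).filter (fun w => w ∈ T0)).image (f₁ b))
    have e3 := card_image_le (s := (nb G a).filter (fun w => w ∈ T0)) (f := f₁ a)
    have e4 := card_image_le (s := (nb G b).filter (fun w => w ∈ T0)) (f := f₁ b)
    have e5 : ((nb G a).filter (fun w => w ∈ T0)).card ≤ T0.card :=
      card_le_card (fun w hw => (mem_filter.1 hw).2)
    have e6 : ((nb G b).filter (fun w => w ∈ T0)).card ≤ T0.card :=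
      card_le_card (fun w hw => (mem_filter.1 hw).2)
    have e7 := hL a b hab
    simp only [hL1]
    omega
  have hL1s : ∀ a b, L1 a b = L1 b a := by
    intro a b
    simp only [hL1]
    rw [hsym a b, union_comm]
  apply LC_mono (cutX G T0) L1 (fun a b => tr D' (L1 a b)) (fun a b _ => tr_sub _ _)
  have hcut : ∀ v, nb (cutX G T0) v ⊆ nb G v := by
    intro v w hw
    rw [mem_nb, cutX_adj] at hw
    rw [mem_nb]
    exact hw.1
  have hΛ'1 : Real.sqrt (D' * x) ≤ Λ := by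
    rw [hΛ]
    exact Real.sqrt_le_sqrt (mul_le_mul_of_nonneg_right hD'D hx0.le)
  have hΛ'2 : Λ / 2 ≤ Real.sqrt (D' * x) := by
    apply Real.le_sqrt_of_sq_le
    rw [div_pow, hΛ2]
    have := mul_le_mul_of_nonneg_right hD'2 hx0.le
    have h0 : 0 < D' * x := mul_pos hD'0 hx0
    linarith
  apply hmain n (by rw [← hx]; linarith) (cutX G T0) D' B N2 _ (fun a b => by rw [hL1s a b])
    (fun a b hab => tr_card D' _ (hL1c a b ((cutX_adj G T0 a b).1 hab).1))
    (by exact_mod_cast hD'0) (hD'D.trans hDn)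
  · intro v
    rw [← hx]
    by_cases hv : v ∈ T0
    · have h1 : dg (cutX G T0) v = 0 := by
        unfold dg
        rw [card_eq_zero, eq_empty_iff_forall_notMem]
        intro w hw
        rw [mem_nb, cutX_adj] at hw
        exact hw.2.1 hv
      rw [h1, Nat.cast_zero]
      have h2 : ε / 2 * Real.sqrt (D' * x) ≤ 1 * Λ :=
        mul_le_mul (by linarith) hΛ'1 (Real.sqrt_nonneg _) (by norm_num)
      linarith
    · have h1 : (dg (cutX G T0) v : ℝ) ≤ dg G v := by
        exact_mod_cast card_le_card (hcut v)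
      have h2 := hT0 v hv
      have h3 : ε / 2 * Real.sqrt (D' * x) ≤ ε / 2 * Λ :=
        mul_le_mul_of_nonneg_left hΛ'1 (by positivity)
      linarith [hD'r]
  · rw [← hx]
    have h1 : K * (Real.sqrt (D' * x) * (1 + x)) ≤ K * (Λ * (1 + x)) :=
      mul_le_mul_of_nonneg_left (mul_le_mul_of_nonneg_right hΛ'1 (by positivity)) (by positivity)
    have h2 : (2 * K + 34) * (Λ * (1 + x)) = 2 * (K * (Λ * (1 + x))) + 34 * (Λ * (1 + x)) := by
      ring
    have h3 : 0 < Λ * (1 + x) := by positivity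
    linarith
  · rw [← hx]
    have h1 := mul_le_mul_of_nonneg_left hΛ'2 hκ2.le
    linarith
  · intro X hX
    refine le_trans ?_ (H2 X hX)
    unfold ep
    apply card_le_card
    intro e he
    rw [mem_filter, mem_pr, cutX_adj] at he
    rw [mem_filter, mem_pr]
    exact ⟨he.1.1, he.2⟩
  · intro X hX
    refine le_trans ?_ (H3 X hX)
    apply Nat.mul_le_mul_left
    apply card_le_card
    intro v hv
    rw [mem_filter] at hv ⊢
    refine ⟨hv.1, ?_⟩
    have h1 : (((nb (cutX G T0) v).filter (fun w => w ∈ X)).card : ℝ) ≤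
        ((nb G v).filter (fun w => w ∈ X)).card := by
      exact_mod_cast card_le_card (filter_subset_filter _ (hcut v))
    have h2 := hv.2
    have h3 := mul_le_mul_of_nonneg_left hD'2 hκ1.le
    linarith

end Pool.Agent.K4H76.LD
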