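import Pool.Agent.K4H76.LD.Star

/-!
# Small sets in the random graph
-/

set_option autoImplicit false
set_option linter.unusedSectionVars false

namespace Pool.Agent.K4H76.LD

open Finset Pool.Agent.H162R2.Sparse Pool.Agent.K4H76.LR

theorem exp_two_le : Real.exp 2 ≤ 8 := by
  have h1 := Real.exp_one_lt_d9
  have h2 : Real.exp 2 = Real.exp 1 ^ 2 := by
    rw [← Real.exp_nat_mul]
    norm_num
  have h3 : 0 < Real.exp 1 := Real.exp_pos _
  rw [h2]
  nlinarith

theorem four_le : (4 : ℝ) ≤ Real.exp 2 := by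
  have h1 := Real.exp_one_gt_d9
  have h2 : Real.exp 2 = Real.exp 1 ^ 2 := by
    rw [← Real.exp_nat_mul]
    norm_num
  rw [h2]
  nlinarith

/-- no dense small sets -/
theorem evt2 (n b N : ℕ) (hb : 0 < b) (p : ℝ) (h0 : 0 ≤ p) (h1 : p ≤ 1) (hn : 6 ≤ n)
    (hN : 4 * N * p ≤ b) (hbx : 2 * Real.log n ≤ b) :
    Pr (wB (Ed n) p) (fun ω => ¬ ∀ X : Finset (Fin n), X.card ≤ N →
      ep (Gr ω) X ≤ 2 * b * X.card) ≤ 6 / n := by
  classical
  have hw := wB_wt (ι := Ed n) p h0 h1
  have hn0 : (6 : ℝ) ≤ n := by exact_mod_cast hn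
  have hb0 : (0 : ℝ) < b := by exact_mod_cast hb
  have he := Real.exp_one_lt_d9
  have he0 := Real.exp_pos 1
  have h2 := local_sparse n b N hb p (Real.exp 1 / n) h0 h1 (by positivity) (by
    rw [div_le_iff₀ (by linarith)]
    linarith) (by
    intro s hs1 hs2
    have hs0 : (1 : ℝ) ≤ s := by exact_mod_cast hs1
    have hs2' : (s : ℝ) ≤ N := by exact_mod_cast hs2
    have h3 : Real.exp 1 * s * p / (2 * b) ≤ Real.exp (-1) := by
      rw [div_le_iff₀ (by positivity)]
      have e1 : Real.exp 1 = Real.exp 2 * Real.exp (-1) := by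
        rw [← Real.exp_add]
        norm_num
      have e2 : Real.exp 2 * (s * p) ≤ 2 * b := by
        calc Real.exp 2 * (s * p) ≤ 8 * (N * p) := by
              apply mul_le_mul exp_two_le (mul_le_mul_of_nonneg_right hs2' h0) (by positivity)
                (by norm_num)
          _ = 2 * (4 * N * p) := by ring
          _ ≤ 2 * b := by linarith
      have e3 : 0 < Real.exp (-1) := Real.exp_pos _
      calc Real.exp 1 * s * p = Real.exp (-1) * (Real.exp 2 * (s * p)) := by rw [e1]; ring
        _ ≤ Real.exp (-1) * (2 * b) := mul_le_mul_of_nonneg_left e2 e3.le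
    have h4 : (Real.exp 1 * s * p / (2 * b)) ^ b ≤ Real.exp (-b) := by
      calc (Real.exp 1 * s * p / (2 * b)) ^ b ≤ (Real.exp (-1)) ^ b :=
            pow_le_pow_left₀ (by positivity) h3 b
        _ = Real.exp (-b) := by
            rw [← Real.exp_nat_mul]
            congr 1
            ring
    have h5 : Real.exp (-b) ≤ 1 / (n : ℝ) ^ 2 := by
      have e1 : Real.exp (-(b : ℝ)) ≤ Real.exp (-(2 * Real.log n)) :=
        Real.exp_le_exp.2 (by linarith)
      refine e1.trans (le_of_eq ?_)
      have e2 : 2 * Real.log n = Real.log ((n : ℝ) ^ 2) := by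
        rw [Real.log_pow]
        norm_num
      rw [e2, Real.exp_neg, Real.exp_log (by positivity), one_div]
    calc Real.exp 1 * n / s * (Real.exp 1 * s * p / (2 * b)) ^ b ≤
          Real.exp 1 * n * (1 / (n : ℝ) ^ 2) := by
          apply mul_le_mul _ (h4.trans h5) (by positivity) (by positivity)
          exact div_le_self (by positivity) hs0
      _ = Real.exp 1 / n := by
          field_simp)
  refine le_trans (Pr_mono hw ?_) (h2.trans ?_)
  · intro ω hω
    push Not at hω
    obtain ⟨X, hX1, hX2⟩ := hω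
    have h3 := ep_le X ω
    refine ⟨X, ?_, hX1, ?_⟩
    · by_contra hcon
      have h4 : X.card = 0 := by omega
      have h5 := card_ins X
      rw [h4] at h5
      have h6 : cn (ins X) ω ≤ (ins X).card := by
        unfold cn
        exact card_filter_le _ _
      simp at h5
      rw [h5, card_empty] at h6
      rw [h4, Nat.mul_zero] at hX2
      rw [h5] at h3
      omega
    · have h7 : 2 * (b * X.card) < 2 * cn (ins X) ω := by
        have : 2 * (b * X.card) = 2 * b * X.card := by ring
        rw [this]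
        exact lt_of_lt_of_le hX2 h3
      omega
  · have : 2 * (Real.exp 1 / n) = (2 * Real.exp 1) / n := by ring
    rw [this]
    apply div_le_div_of_nonneg_right _ (by positivity)
    linarith

/-- the pairs between `X` and `Y` -/
noncomputable def cr {n : ℕ} (X Y : Finset (Fin n)) : Finset (Ed n) := by
  classical exact univ.filter (fun e => ∃ v ∈ Y, ∃ w ∈ X, e.1 = s(v, w))

theorem card_cr {n : ℕ} (X Y : Finset (Fin n)) : (cr X Y).card ≤ Y.card * X.card := by
  classical
  have h : (cr X Y).image (fun e => e.1) ⊆ (Y ×ˢ X).image (fun q => s(q.1, q.2)) := by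
    intro e he
    rw [mem_image] at he ⊢
    obtain ⟨e', he', rfl⟩ := he
    unfold cr at he'
    rw [mem_filter] at he'
    obtain ⟨_, v, hv, w, hw, h⟩ := he'
    exact ⟨(v, w), mem_product.2 ⟨hv, hw⟩, h.symm⟩
  have h1 := card_le_card h
  rw [card_image_of_injective _ Subtype.val_injective] at h1
  refine h1.trans (card_image_le.trans ?_)
  rw [card_product]

open Classical in
theorem sum_cr {n : ℕ} (X Y : Finset (Fin n)) (ω : Ed n → Bool) :
    ∑ v ∈ Y, ((nb (Gr ω) v).filter (fun w => w ∈ X)).card ≤ 2 * cn (cr X Y) ω := by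
  set P : Finset (Fin n × Fin n) := (univ : Finset (Fin n × Fin n)).filter
    (fun q => q.1 ∈ Y ∧ q.2 ∈ nb (Gr ω) q.1 ∧ q.2 ∈ X) with hP
  have h0 : ∑ v ∈ Y, ((nb (Gr ω) v).filter (fun w => w ∈ X)).card ≤ P.card := by
    rw [← card_sigma]
    apply card_le_card_of_injOn (fun q => (q.1, q.2))
    · rintro ⟨v, w⟩ hq
      simp only [mem_coe, mem_sigma, mem_filter] at hq
      simp only [hP, mem_coe, mem_filter, mem_univ, true_and]
      exact hq
    · rintro ⟨v, w⟩ _ ⟨v', w'⟩ _ h
      simp only [Prod.mk.injEq] at h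
      obtain ⟨rfl, rfl⟩ := h
      rfl
  refine h0.trans ?_
  have h1 : (P.image (fun e => s(e.1, e.2))) ⊆
      ((cr X Y).filter (fun e => ω e = true)).image (fun e => e.1) := by
    intro e he
    rw [mem_image] at he ⊢
    obtain ⟨⟨a, b⟩, hab, rfl⟩ := he
    rw [hP, mem_filter] at hab
    obtain ⟨_, ha, hb, hbX⟩ := hab
    simp only at ha hb hbX
    rw [mem_nb] at hb
    obtain ⟨h1, h2⟩ := hb
    refine ⟨⟨s(a, b), h1⟩, ?_, rfl⟩
    rw [mem_filter]
    refine ⟨?_, h2⟩
    unfold cr
    rw [mem_filter]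
    exact ⟨mem_univ _, a, ha, b, hbX, rfl⟩
  have h2 := card_le_card h1
  rw [card_image_of_injective _ Subtype.val_injective] at h2
  refine le_trans (card_le_mul_card_image (f := fun e : Fin n × Fin n => s(e.1, e.2)) _ 2 ?_)
    (Nat.mul_le_mul_left 2 h2)
  intro e _
  induction e using Sym2.inductionOn with
  | _ a b =>
  refine le_trans (card_le_card (t := {(a, b), (b, a)}) ?_) (card_le_two)
  rintro ⟨x, y⟩ hxy
  rw [mem_filter] at hxy
  have h3 := hxy.2
  simp only [Sym2.eq_iff] at h3
  rw [mem_insert, mem_singleton, Prod.mk.injEq, Prod.mk.injEq]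
  exact h3

open Classical in
/-- few vertices have many neighbours in a small set -/
theorem evt3 (n y k : ℕ) (s a p : ℝ) (h0 : 0 ≤ p) (h1 : p ≤ 1)
    (hk2 : 2 * (k : ℝ) ≤ a * y) (hkn : 3 * n ≤ k) (hn : 1 ≤ n) (hk : 8 * s * y * p ≤ k) :
    Pr (wB (Ed n) p) (fun ω => ∃ X : Finset (Fin n), (X.card : ℝ) ≤ s ∧
      y ≤ (univ.filter (fun v => a < ((nb (Gr ω) v).filter (fun w => w ∈ X)).card)).card) ≤
      Real.exp (-n) := by
  have hw := wB_wt (ι := Ed n) p h0 h1
  have hk0 : 0 < k := by omega
  have hk0' : (0 : ℝ) < k := by exact_mod_cast hk0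
  have h2 : Pr (wB (Ed n) p) (fun ω => ∃ X : Finset (Fin n), (X.card : ℝ) ≤ s ∧
      y ≤ (univ.filter (fun v => a < ((nb (Gr ω) v).filter (fun w => w ∈ X)).card)).card) ≤
      Pr (wB (Ed n) p) (fun ω => ∃ X ∈ (univ : Finset (Finset (Fin n))).filter
        (fun X => (X.card : ℝ) ≤ s), ∃ Y ∈ (univ : Finset (Fin n)).powersetCard y,
          k ≤ cn (cr X Y) ω) := by
    apply Pr_mono hw
    rintro ω ⟨X, hX, hy⟩
    obtain ⟨Y, hY1, hY2⟩ := exists_subset_card_eq hy
    refine ⟨X, mem_filter.2 ⟨mem_univ _, hX⟩, Y, mem_powersetCard.2 ⟨subset_univ _, hY2⟩, ?_⟩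
    have h3 := sum_cr X Y ω
    have h4 : a * y ≤ ∑ v ∈ Y, (((nb (Gr ω) v).filter (fun w => w ∈ X)).card : ℝ) := by
      calc a * y = ∑ _v ∈ Y, a := by rw [sum_const, hY2, nsmul_eq_mul]; ring
        _ ≤ _ := by
            apply sum_le_sum
            intro v hv
            exact (mem_filter.1 (hY1 hv)).2.le
    have h5 : (∑ v ∈ Y, (((nb (Gr ω) v).filter (fun w => w ∈ X)).card : ℝ)) ≤
        2 * (cn (cr X Y) ω : ℝ) := by exact_mod_cast h3
    have h6 : (k : ℝ) ≤ (cn (cr X Y) ω : ℝ) := by linarith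
    exact_mod_cast h6
  refine h2.trans ((Pr_exists _ hw (fun X ω => ∃ Y ∈ (univ : Finset (Fin n)).powersetCard y,
          k ≤ cn (cr X Y) ω)).trans ?_)
  have h3 : ∀ X ∈ (univ : Finset (Finset (Fin n))).filter (fun X => (X.card : ℝ) ≤ s),
      Pr (wB (Ed n) p) (fun ω => ∃ Y ∈ (univ : Finset (Fin n)).powersetCard y,
          k ≤ cn (cr X Y) ω) ≤ 2 ^ n * Real.exp (-(3 * n)) := by
    intro X hX
    have hXs := (mem_filter.1 hX).2
    refine (Pr_exists _ hw (fun Y ω => k ≤ cn (cr X Y) ω)).trans ?_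
    have h4 : ∀ Y ∈ (univ : Finset (Fin n)).powersetCard y,
        Pr (wB (Ed n) p) (fun ω => k ≤ cn (cr X Y) ω) ≤ Real.exp (-(3 * n)) := by
      intro Y hY
      have hYy := (mem_powersetCard.1 hY).2
      refine (cn_le_choose p h0 h1 (cr X Y) k).trans ?_
      have h5 := choose_le_exp (cr X Y).card k hk0
      have h6 : ((cr X Y).card : ℝ) ≤ y * s := by
        have : ((cr X Y).card : ℝ) ≤ (Y.card : ℝ) * X.card := by exact_mod_cast card_cr X Y
        rw [hYy] at this
        exact this.trans (mul_le_mul_of_nonneg_left hXs (Nat.cast_nonneg _))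
      have h7 : Real.exp 1 * (cr X Y).card / k * p ≤ Real.exp (-1) := by
        rw [div_mul_eq_mul_div, div_le_iff₀ hk0']
        have e1 : Real.exp 1 = Real.exp 2 * Real.exp (-1) := by
          rw [← Real.exp_add]
          norm_num
        have e2 : Real.exp 2 * ((cr X Y).card * p) ≤ k := by
          calc Real.exp 2 * ((cr X Y).card * p) ≤ 8 * (y * s * p) := by
                apply mul_le_mul exp_two_le (mul_le_mul_of_nonneg_right h6 h0) (by positivity)
                  (by norm_num)
            _ = 8 * s * y * p := by ring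
            _ ≤ k := hk
        have e3 : 0 < Real.exp (-1) := Real.exp_pos _
        calc Real.exp 1 * (cr X Y).card * p =
              Real.exp (-1) * (Real.exp 2 * ((cr X Y).card * p)) := by rw [e1]; ring
          _ ≤ Real.exp (-1) * k := mul_le_mul_of_nonneg_left e2 e3.le
      calc ((cr X Y).card.choose k : ℝ) * p ^ k ≤
            (Real.exp 1 * (cr X Y).card / k) ^ k * p ^ k :=
            mul_le_mul_of_nonneg_right h5 (pow_nonneg h0 k)
        _ = (Real.exp 1 * (cr X Y).card / k * p) ^ k := by rw [mul_pow]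
        _ ≤ Real.exp (-1) ^ k := pow_le_pow_left₀ (by positivity) h7 k
        _ = Real.exp (-k) := by
            rw [← Real.exp_nat_mul]
            congr 1
            ring
        _ ≤ Real.exp (-(3 * n)) := by
            apply Real.exp_le_exp.2
            have : (3 * (n : ℝ)) ≤ k := by exact_mod_cast hkn
            linarith
    refine (sum_le_sum h4).trans ?_
    rw [sum_const, nsmul_eq_mul]
    apply mul_le_mul_of_nonneg_right _ (Real.exp_pos _).le
    have h8 : ((univ : Finset (Fin n)).powersetCard y).card ≤ 2 ^ n := by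
      calc ((univ : Finset (Fin n)).powersetCard y).card ≤ (univ : Finset (Finset (Fin n))).card :=
            card_le_card (subset_univ _)
        _ = 2 ^ n := by rw [card_univ, Fintype.card_finset, Fintype.card_fin]
    exact_mod_cast h8
  refine (sum_le_sum h3).trans ?_
  rw [sum_const, nsmul_eq_mul]
  have h9 : ((((univ : Finset (Finset (Fin n))).filter (fun X => (X.card : ℝ) ≤ s)).card : ℕ) : ℝ)
      ≤ 2 ^ n := by
    have : ((univ : Finset (Finset (Fin n))).filter (fun X => (X.card : ℝ) ≤ s)).card ≤ 2 ^ n := by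
      calc _ ≤ (univ : Finset (Finset (Fin n))).card := card_le_card (filter_subset _ _)
        _ = 2 ^ n := by rw [card_univ, Fintype.card_finset, Fintype.card_fin]
    exact_mod_cast this
  calc ((((univ : Finset (Finset (Fin n))).filter (fun X => (X.card : ℝ) ≤ s)).card : ℕ) : ℝ) *
        (2 ^ n * Real.exp (-(3 * n))) ≤ 2 ^ n * (2 ^ n * Real.exp (-(3 * n))) := by
        apply mul_le_mul_of_nonneg_right h9 (by positivity)
    _ = 4 ^ n * Real.exp (-(3 * n)) := by
        rw [← mul_assoc, ← mul_pow]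
        norm_num
    _ ≤ Real.exp 2 ^ n * Real.exp (-(3 * n)) := by
        apply mul_le_mul_of_nonneg_right _ (Real.exp_pos _).le
        exact pow_le_pow_left₀ (by norm_num) four_le n
    _ = Real.exp (-n) := by
        rw [← Real.exp_nat_mul, ← Real.exp_add]
        congr 1
        ring

end Pool.Agent.K4H76.LD
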