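import Pool.Agent.H162R2.AG.K1
import Pool.Agent.H162R2.AG.K2
import Pool.Agent.H162R2.AG.K3

/-!
# Galvin's theorem with advantages at single ends
-/

set_option autoImplicit false

namespace Pool.Agent.K4H76.LD

open Finset Pool.Agent.H162R2.Sparse Pool.Agent.H162R2.AG

theorem K2_key {V : Type} [Fintype V] [DecidableEq V] (a b : V × V → ℕ) :
    ∃ p : V × V → ℕ, Function.Injective p ∧
      ∀ f e, p f < p e → a f < a e ∨ (a f = a e ∧ b f ≤ b e) := by
  classical
  set K := (Finset.univ.sup b) + 1 with hK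
  set N := Fintype.card (V × V) with hN
  let eqv := Fintype.equivFin (V × V)
  have hb : ∀ e, b e < K := fun e => Nat.lt_succ_of_le (Finset.le_sup (Finset.mem_univ e))
  have hi : ∀ e, (eqv e : ℕ) < N := fun e => (eqv e).2
  refine ⟨fun e => (a e * K + b e) * N + (eqv e : ℕ), ?_, ?_⟩
  · intro e f hef
    have h1 : ((a e * K + b e) * N + (eqv e : ℕ)) % N = ((a f * K + b f) * N + (eqv f : ℕ)) % N :=
      congrArg (fun t => t % N) hef
    rw [Nat.mul_add_mod', Nat.mul_add_mod', Nat.mod_eq_of_lt (hi e), Nat.mod_eq_of_lt (hi f)] at h1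
    exact eqv.injective (Fin.ext h1)
  · intro f e h
    by_contra hcon
    push Not at hcon
    obtain ⟨h1, h2⟩ := hcon
    have h3 : a e * K + b e + 1 ≤ a f * K + b f := by
      rcases Nat.lt_or_ge (a e) (a f) with h4 | h4
      · have h5 : (a e + 1) * K ≤ a f * K := Nat.mul_le_mul_right _ h4
        have := hb e
        nlinarith
      · have h5 : a f = a e := le_antisymm h4 h1
        have := h2 h5
        rw [h5]
        omega
    have h4 : (a e * K + b e + 1) * N ≤ (a f * K + b f) * N := Nat.mul_le_mul_right _ h3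
    have h5 := hi e
    have h6 : (a f * K + b f) * N + (eqv f : ℕ) < (a e * K + b e) * N + (eqv e : ℕ) := h
    rw [Nat.add_mul, Nat.one_mul] at h4
    omega

theorem K2p {V : Type} [Fintype V] [DecidableEq V] (E : Finset (V × V)) (D y φ : ℕ)
    (c : V × V → ℕ) (h : ℕ → ℕ) (F1 F2 : V × V → Prop) (L : V × V → Finset ℕ)
    [DecidablePred F1] [DecidablePred F2]
    (hcD : ∀ e ∈ E, c e < D)
    (hc : ∀ e ∈ E, ∀ e' ∈ E, e ≠ e' → (e.1 = e'.1 ∨ e.2 = e'.2) → c e ≠ c e')
    (hy : ∀ i < D, y ≤ ((range D).filter (fun j => h j = h i)).card)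
    (hcons : ∀ i < D, h i ≠ 0 → ∃ j < D, h j + 1 = h i)
    (hF1 : ∀ u i, (E.filter (fun e => e.1 = u ∧ F1 e ∧ h (c e) = i)).card ≤ φ)
    (hF2 : ∀ u i, (E.filter (fun e => e.2 = u ∧ F2 e ∧ h (c e) = i)).card ≤ φ)
    (hL0 : ∀ e ∈ E, ¬ F1 e → ¬ F2 e → D + 4 * φ ≤ (L e).card)
    (hL1 : ∀ e ∈ E, D + 4 * φ ≤ (L e).card + y)
    (hL2 : ∀ e ∈ E, F1 e → ¬ F2 e → (E.filter (fun f => f.2 = e.2)).card + 4 * φ ≤ (L e).card)
    (hL3 : ∀ e ∈ E, ¬ F1 e → F2 e → (E.filter (fun f => f.1 = e.1)).card + 4 * φ ≤ (L e).card) :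
    ∃ col : V × V → ℕ, (∀ e ∈ E, col e ∈ L e) ∧
      ∀ e ∈ E, ∀ e' ∈ E, e ≠ e' → (e.1 = e'.1 ∨ e.2 = e'.2) → col e ≠ col e' := by
  classical
  set M := Finset.univ.sup (fun e : V × V => h (c e)) with hM
  have hMle : ∀ e, h (c e) ≤ M := fun e => Finset.le_sup (f := fun e : V × V => h (c e))
    (Finset.mem_univ e)
  obtain ⟨pu, hpi, hpu⟩ := K2_key (fun e => 2 * h (c e) + (if F1 e then 0 else 3)) c
  obtain ⟨qw, hqi, hqw⟩ := K2_key (fun e => 2 * (M - h (c e)) + (if F2 e then 0 else 3))
    (fun e => D - c e)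
  have hcnt1 : ∀ (u : V) (P : ℕ → Prop) [DecidablePred P],
      (E.filter (fun f => f.1 = u ∧ P (c f))).card ≤ ((range D).filter P).card := by
    intro u P _
    apply Finset.card_le_card_of_injOn c
    · intro f hf
      have hf' := Finset.mem_filter.1 hf
      exact Finset.mem_coe.2 (Finset.mem_filter.2 ⟨Finset.mem_range.2 (hcD f hf'.1), hf'.2.2⟩)
    · intro f hf f' hf' heq
      have h1 := Finset.mem_filter.1 (Finset.mem_coe.1 hf)
      have h2 := Finset.mem_filter.1 (Finset.mem_coe.1 hf')
      by_contra hne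
      exact hc f h1.1 f' h2.1 hne (Or.inl (h1.2.1.trans h2.2.1.symm)) heq
  have hcnt2 : ∀ (u : V) (P : ℕ → Prop) [DecidablePred P],
      (E.filter (fun f => f.2 = u ∧ P (c f))).card ≤ ((range D).filter P).card := by
    intro u P _
    apply Finset.card_le_card_of_injOn c
    · intro f hf
      have hf' := Finset.mem_filter.1 hf
      exact Finset.mem_coe.2 (Finset.mem_filter.2 ⟨Finset.mem_range.2 (hcD f hf'.1), hf'.2.2⟩)
    · intro f hf f' hf' heq
      have h1 := Finset.mem_filter.1 (Finset.mem_coe.1 hf)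
      have h2 := Finset.mem_filter.1 (Finset.mem_coe.1 hf')
      by_contra hne
      exact hc f h1.1 f' h2.1 hne (Or.inr (h1.2.1.trans h2.2.1.symm)) heq
  -- the sides
  set S1 : V × V → Finset (V × V) := fun e => E.filter (fun f => f.1 = e.1 ∧ pu f < pu e) with hS1
  set S2 : V × V → Finset (V × V) := fun e => E.filter (fun f => f.2 = e.2 ∧ qw f < qw e) with hS2
  have hdom : ∀ e, (E.filter (fun f => Dom pu qw f e)).card ≤ (S1 e).card + (S2 e).card := by
    intro e
    refine le_trans (card_le_card ?_) (card_union_le _ _)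
    intro f hf
    obtain ⟨hfE, hfd⟩ := mem_filter.1 hf
    rw [mem_union]
    rcases hfd with hfd | hfd
    · exact Or.inl (mem_filter.2 ⟨hfE, hfd⟩)
    · exact Or.inr (mem_filter.2 ⟨hfE, hfd⟩)
  have hS1deg : ∀ e ∈ E, (S1 e).card + 1 ≤ (E.filter (fun f => f.1 = e.1)).card := by
    intro e he
    have h1 : S1 e ⊆ (E.filter (fun f => f.1 = e.1)).erase e := by
      intro f hf
      obtain ⟨h1, h2, h3⟩ := mem_filter.1 hf
      exact mem_erase.2 ⟨fun h => by rw [h] at h3; exact lt_irrefl _ h3, mem_filter.2 ⟨h1, h2⟩⟩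
    have h2 := card_le_card h1
    have h3 := card_erase_add_one (mem_filter.2 ⟨he, rfl⟩ : e ∈ E.filter (fun f => f.1 = e.1))
    omega
  have hS2deg : ∀ e ∈ E, (S2 e).card + 1 ≤ (E.filter (fun f => f.2 = e.2)).card := by
    intro e he
    have h1 : S2 e ⊆ (E.filter (fun f => f.2 = e.2)).erase e := by
      intro f hf
      obtain ⟨h1, h2, h3⟩ := mem_filter.1 hf
      exact mem_erase.2 ⟨fun h => by rw [h] at h3; exact lt_irrefl _ h3, mem_filter.2 ⟨h1, h2⟩⟩
    have h2 := card_le_card h1
    have h3 := card_erase_add_one (mem_filter.2 ⟨he, rfl⟩ : e ∈ E.filter (fun f => f.2 = e.2))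
    omega
  have hS1F : ∀ e ∈ E, F1 e →
      (S1 e).card + 1 ≤ ((range D).filter (fun j => h j + 2 ≤ h (c e))).card + 2 * φ := by
    intro e he hFe
    have hsub : S1 e ⊆ (E.filter (fun f => f.1 = e.1 ∧ h (c f) + 2 ≤ h (c e))) ∪
        ((E.filter (fun f => f.1 = e.1 ∧ F1 f ∧ h (c f) = h (c e))) ∪
            (E.filter (fun f => f.1 = e.1 ∧ F1 f ∧ h (c f) = h (c e) - 1))).erase e := by
      intro f hf
      obtain ⟨hfE, h1, h2⟩ := Finset.mem_filter.1 hf
      simp only [Finset.mem_union, Finset.mem_erase, Finset.mem_filter]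
      have hfe : f ≠ e := fun h => by rw [h] at h2; exact lt_irrefl _ h2
      have h3 := hpu f e h2
      simp only [if_pos hFe] at h3
      by_cases hFf : F1 f
      · simp only [if_pos hFf] at h3
        by_cases h4 : h (c f) + 2 ≤ h (c e)
        · exact Or.inl ⟨hfE, h1, h4⟩
        · right
          refine ⟨hfe, ?_⟩
          by_cases h5 : h (c f) = h (c e)
          · exact Or.inl ⟨hfE, h1, hFf, h5⟩
          · exact Or.inr ⟨hfE, h1, hFf, by omega⟩
      · simp only [if_neg hFf] at h3
        exact Or.inl ⟨hfE, h1, by omega⟩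
    have h0 := (card_le_card hsub).trans (card_union_le _ _)
    have hA := hcnt1 e.1 (fun j => h j + 2 ≤ h (c e))
    have hC : ((((E.filter (fun f => f.1 = e.1 ∧ F1 f ∧ h (c f) = h (c e))) ∪
            (E.filter (fun f => f.1 = e.1 ∧ F1 f ∧ h (c f) = h (c e) - 1))).erase e)).card + 1
            ≤ 2 * φ := by
      rw [Finset.card_erase_add_one (Finset.mem_union_left _
        (Finset.mem_filter.2 ⟨he, rfl, hFe, rfl⟩))]
      refine (Finset.card_union_le _ _).trans ?_
      have h1 := hF1 e.1 (h (c e))
      have h2 := hF1 e.1 (h (c e) - 1)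
      omega
    omega
  have hS2F : ∀ e ∈ E, F2 e →
      (S2 e).card + 1 ≤ ((range D).filter (fun j => h (c e) + 2 ≤ h j)).card + 2 * φ := by
    intro e he hFe
    have hsub : S2 e ⊆ (E.filter (fun f => f.2 = e.2 ∧ h (c e) + 2 ≤ h (c f))) ∪
        ((E.filter (fun f => f.2 = e.2 ∧ F2 f ∧ h (c f) = h (c e))) ∪
            (E.filter (fun f => f.2 = e.2 ∧ F2 f ∧ h (c f) = h (c e) + 1))).erase e := by
      intro f hf
      obtain ⟨hfE, h1, h2⟩ := Finset.mem_filter.1 hf
      have hMf := hMle f
      have hMe := hMle e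
      simp only [Finset.mem_union, Finset.mem_erase, Finset.mem_filter]
      have hfe : f ≠ e := fun h => by rw [h] at h2; exact lt_irrefl _ h2
      have h3 := hqw f e h2
      simp only [if_pos hFe] at h3
      by_cases hFf : F2 f
      · simp only [if_pos hFf] at h3
        by_cases h4 : h (c e) + 2 ≤ h (c f)
        · exact Or.inl ⟨hfE, h1, h4⟩
        · right
          refine ⟨hfe, ?_⟩
          by_cases h5 : h (c f) = h (c e)
          · exact Or.inl ⟨hfE, h1, hFf, h5⟩
          · exact Or.inr ⟨hfE, h1, hFf, by omega⟩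
      · simp only [if_neg hFf] at h3
        exact Or.inl ⟨hfE, h1, by omega⟩
    have h0 := (card_le_card hsub).trans (card_union_le _ _)
    have hA := hcnt2 e.2 (fun j => h (c e) + 2 ≤ h j)
    have hC : ((((E.filter (fun f => f.2 = e.2 ∧ F2 f ∧ h (c f) = h (c e))) ∪
            (E.filter (fun f => f.2 = e.2 ∧ F2 f ∧ h (c f) = h (c e) + 1))).erase e)).card + 1
            ≤ 2 * φ := by
      rw [Finset.card_erase_add_one (Finset.mem_union_left _
        (Finset.mem_filter.2 ⟨he, rfl, hFe, rfl⟩))]
      refine (Finset.card_union_le _ _).trans ?_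
      have h1 := hF2 e.2 (h (c e))
      have h2 := hF2 e.2 (h (c e) + 1)
      omega
    omega
  have hS1N : ∀ e ∈ E, ¬ F1 e → (S1 e).card ≤
      ((range D).filter (fun j => h j < h (c e) ∨ (h j = h (c e) ∧ j < c e))).card + 2 * φ := by
    intro e he hFe
    have hsub : S1 e ⊆
        (E.filter (fun f => f.1 = e.1 ∧ (h (c f) < h (c e) ∨ (h (c f) = h (c e) ∧ c f < c e)))) ∪
        ((E.filter (fun f => f.1 = e.1 ∧ F1 f ∧ h (c f) = h (c e))) ∪
            (E.filter (fun f => f.1 = e.1 ∧ F1 f ∧ h (c f) = h (c e) + 1))) := by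
      intro f hf
      obtain ⟨hfE, h1, h2⟩ := Finset.mem_filter.1 hf
      simp only [Finset.mem_union, Finset.mem_filter]
      have hfe : f ≠ e := fun h => by rw [h] at h2; exact lt_irrefl _ h2
      have hcfe : c f ≠ c e := hc f hfE e he hfe (Or.inl h1)
      have h3 := hpu f e h2
      simp only [if_neg hFe] at h3
      by_cases hFf : F1 f
      · simp only [if_pos hFf] at h3
        by_cases h4 : h (c f) < h (c e)
        · exact Or.inl ⟨hfE, h1, Or.inl h4⟩
        · right
          by_cases h5 : h (c f) = h (c e)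
          · exact Or.inl ⟨hfE, h1, hFf, h5⟩
          · exact Or.inr ⟨hfE, h1, hFf, by omega⟩
      · simp only [if_neg hFf] at h3
        exact Or.inl ⟨hfE, h1, by omega⟩
    have h0 := (card_le_card hsub).trans (card_union_le _ _)
    have hA := hcnt1 e.1 (fun j => h j < h (c e) ∨ (h j = h (c e) ∧ j < c e))
    have hC := Finset.card_union_le (E.filter (fun f => f.1 = e.1 ∧ F1 f ∧ h (c f) = h (c e)))
            (E.filter (fun f => f.1 = e.1 ∧ F1 f ∧ h (c f) = h (c e) + 1))
    have e1 := hF1 e.1 (h (c e))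
    have e2 := hF1 e.1 (h (c e) + 1)
    omega
  have hS2N : ∀ e ∈ E, ¬ F2 e → (S2 e).card ≤
      ((range D).filter (fun j => h (c e) < h j ∨ (h j = h (c e) ∧ c e < j))).card + 2 * φ := by
    intro e he hFe
    have hsub : S2 e ⊆
        (E.filter (fun f => f.2 = e.2 ∧ (h (c e) < h (c f) ∨ (h (c f) = h (c e) ∧ c e < c f)))) ∪
        ((E.filter (fun f => f.2 = e.2 ∧ F2 f ∧ h (c f) = h (c e))) ∪
            (E.filter (fun f => f.2 = e.2 ∧ F2 f ∧ h (c f) = h (c e) - 1))) := by
      intro f hf
      obtain ⟨hfE, h1, h2⟩ := Finset.mem_filter.1 hf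
      have hMf := hMle f
      have hMe := hMle e
      have hcf := hcD f hfE
      have hce := hcD e he
      simp only [Finset.mem_union, Finset.mem_filter]
      have hfe : f ≠ e := fun h => by rw [h] at h2; exact lt_irrefl _ h2
      have hcfe : c f ≠ c e := hc f hfE e he hfe (Or.inr h1)
      have h3 := hqw f e h2
      simp only [if_neg hFe] at h3
      by_cases hFf : F2 f
      · simp only [if_pos hFf] at h3
        by_cases h4 : h (c e) < h (c f)
        · exact Or.inl ⟨hfE, h1, Or.inl h4⟩
        · right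
          by_cases h5 : h (c f) = h (c e)
          · exact Or.inl ⟨hfE, h1, hFf, h5⟩
          · exact Or.inr ⟨hfE, h1, hFf, by omega⟩
      · simp only [if_neg hFf] at h3
        exact Or.inl ⟨hfE, h1, by omega⟩
    have h0 := (card_le_card hsub).trans (card_union_le _ _)
    have hA := hcnt2 e.2 (fun j => h (c e) < h j ∨ (h j = h (c e) ∧ c e < j))
    have hC := Finset.card_union_le (E.filter (fun f => f.2 = e.2 ∧ F2 f ∧ h (c f) = h (c e)))
            (E.filter (fun f => f.2 = e.2 ∧ F2 f ∧ h (c f) = h (c e) - 1))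
    have e1 := hF2 e.2 (h (c e))
    have e2 := hF2 e.2 (h (c e) - 1)
    omega
  have hsum3 : ∀ (P Q R : ℕ → Prop) [DecidablePred P] [DecidablePred Q] [DecidablePred R],
      (∀ j, P j → ¬ Q j) → (∀ j, P j → ¬ R j) → (∀ j, Q j → ¬ R j) →
      ((range D).filter P).card + ((range D).filter Q).card + ((range D).filter R).card ≤ D := by
    intro P Q R _ _ _ h1 h2 h3
    rw [← card_union_of_disjoint, ← card_union_of_disjoint]
    · refine (card_le_card (?_ : _ ⊆ range D)).trans (by simp)
      intro j hj
      simp only [mem_union, mem_filter] at hj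
      rcases hj with (hj | hj) | hj <;> exact hj.1
    · rw [disjoint_left]
      intro j hj1 hj2
      simp only [mem_union, mem_filter] at hj1 hj2
      rcases hj1 with hj1 | hj1
      · exact h2 j hj1.2 hj2.2
      · exact h3 j hj1.2 hj2.2
    · rw [disjoint_left]
      intro j hj1 hj2
      simp only [mem_filter] at hj1 hj2
      exact h1 j hj1.2 hj2.2
  have hdown : ∀ t i, i < D → h i = t → ∀ s < t, ∃ j < D, h j = s := by
    intro t
    induction t with
    | zero => intro i _ _ s hs; exact absurd hs (Nat.not_lt_zero _)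
    | succ t ih =>
      intro i hi hit s hs
      obtain ⟨j, hj, hji⟩ := hcons i hi (by omega)
      have hjt : h j = t := by omega
      rcases Nat.lt_or_ge s t with h1 | h1
      · exact ih j hj hjt s h1
      · exact ⟨j, hj, by omega⟩
  apply list_colour pu qw hpi hqi _ E L rfl
  intro e he
  have hce := hcD e he
  have hd := hdom e
  have hy' := hy (c e) hce
  by_cases hFe1 : F1 e
  · have h1 := hS1F e he hFe1
    by_cases hFe2 : F2 e
    · have h2 := hS2F e he hFe2
      have h3 := hsum3 (fun j => h j + 2 ≤ h (c e)) (fun j => h (c e) + 2 ≤ h j)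
        (fun j => h j = h (c e)) (fun j hj => by omega) (fun j hj => by omega) (fun j hj => by omega)
      have h4 := hL1 e he
      omega
    · have h2 := hS2N e he hFe2
      by_cases h0 : h (c e) = 0
      · have h3 := hS2deg e he
        have h4 := hL2 e he hFe1 hFe2
        have h5 : ((range D).filter (fun j => h j + 2 ≤ h (c e))).card = 0 := by
          rw [card_eq_zero, filter_eq_empty_iff]
          intro j _
          omega
        omega
      · obtain ⟨j, hj, hjh⟩ := hcons (c e) hce h0
        have h3 := hsum3 (fun j => h j + 2 ≤ h (c e))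
          (fun j => h (c e) < h j ∨ (h j = h (c e) ∧ c e < j))
          (fun i => h i = h j) (fun j hj => by omega) (fun j hj => by omega)
          (fun j hj => by omega)
        have h4 := hL1 e he
        have h5 := hy j hj
        omega
  · have h1 := hS1N e he hFe1
    by_cases hFe2 : F2 e
    · have h2 := hS2F e he hFe2
      by_cases h0 : ∃ j < D, h (c e) < h j
      · obtain ⟨j', hj', hjh'⟩ := h0
        obtain ⟨j, hj, hjh⟩ : ∃ j < D, h j = h (c e) + 1 := by
          rcases Nat.lt_or_ge (h (c e) + 1) (h j') with h6 | h6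
          · exact hdown (h j') j' hj' rfl (h (c e) + 1) h6
          · exact ⟨j', hj', by omega⟩
        have h3 := hsum3 (fun j => h j < h (c e) ∨ (h j = h (c e) ∧ j < c e))
          (fun j => h (c e) + 2 ≤ h j)
          (fun i => h i = h j) (fun j hj => by omega) (fun j hj => by omega)
          (fun j hj => by omega)
        have h4 := hL1 e he
        have h5 := hy j hj
        omega
      · push Not at h0
        have h3 := hS1deg e he
        have h4 := hL3 e he hFe1 hFe2
        have h5 : ((range D).filter (fun j => h (c e) + 2 ≤ h j)).card = 0 := by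
          rw [card_eq_zero, filter_eq_empty_iff]
          intro j hj
          have := h0 j (mem_range.1 hj)
          omega
        omega
    · have h2 := hS2N e he hFe2
      have h3 := hsum3 (fun j => h j < h (c e) ∨ (h j = h (c e) ∧ j < c e))
        (fun j => h (c e) < h j ∨ (h j = h (c e) ∧ c e < j))
        (fun j => j = c e) (fun j hj => by omega)
        (fun j hj h' => by rw [h'] at hj; omega) (fun j hj h' => by rw [h'] at hj; omega)
      have h4 := hL0 e he hFe1 hFe2
      have h5 : 1 ≤ ((range D).filter (fun j => j = c e)).card := by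
        rw [Nat.one_le_iff_ne_zero, Ne, card_eq_zero, filter_eq_empty_iff]
        intro h6
        exact h6 (mem_range.2 hce) rfl
      omega

/-- consecutive labels -/
theorem labels (D : ℕ) (h : ℕ → ℕ) : ∃ g : ℕ → ℕ, (∀ i < D, ∀ j < D, g i = g j ↔ h i = h j) ∧
    ∀ i < D, g i ≠ 0 → ∃ j < D, g j + 1 = g i := by
  classical
  set S : Finset ℕ := (range D).image h with hS
  refine ⟨fun i => (S.filter (fun s => s < h i)).card, ?_, ?_⟩
  · intro i hi j hj
    constructor
    · intro he
      simp only at he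
      rcases lt_trichotomy (h i) (h j) with h1 | h1 | h1
      · exfalso
        have h2 : S.filter (fun s => s < h i) ⊂ S.filter (fun s => s < h j) := by
          rw [Finset.ssubset_iff_of_subset]
          · refine ⟨h i, mem_filter.2 ⟨mem_image_of_mem _ (mem_range.2 hi), h1⟩, ?_⟩
            rw [mem_filter]
            exact fun h => lt_irrefl _ h.2
          · intro s hs
            rw [mem_filter] at hs ⊢
            exact ⟨hs.1, hs.2.trans h1⟩
        have := card_lt_card h2
        omega
      · exact h1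
      · exfalso
        have h2 : S.filter (fun s => s < h j) ⊂ S.filter (fun s => s < h i) := by
          rw [Finset.ssubset_iff_of_subset]
          · refine ⟨h j, mem_filter.2 ⟨mem_image_of_mem _ (mem_range.2 hj), h1⟩, ?_⟩
            rw [mem_filter]
            exact fun h => lt_irrefl _ h.2
          · intro s hs
            rw [mem_filter] at hs ⊢
            exact ⟨hs.1, hs.2.trans h1⟩
        have := card_lt_card h2
        omega
    · intro he
      simp only
      rw [he]
  · intro i hi h0
    simp only at h0 ⊢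
    have hne : (S.filter (fun s => s < h i)).Nonempty := by
      rw [← card_pos]
      omega
    set m := (S.filter (fun s => s < h i)).max' hne with hm
    have hmem := (S.filter (fun s => s < h i)).max'_mem hne
    rw [← hm] at hmem
    obtain ⟨hmS, hmi⟩ := mem_filter.1 hmem
    obtain ⟨j, hj, hjm⟩ := mem_image.1 hmS
    refine ⟨j, mem_range.1 hj, ?_⟩
    have h1 : S.filter (fun s => s < h i) = insert m (S.filter (fun s => s < h j)) := by
      ext s
      rw [mem_insert, mem_filter, mem_filter, hjm]
      constructor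
      · intro hs
        have h2 := (S.filter (fun s => s < h i)).le_max' s (mem_filter.2 hs)
        rw [← hm] at h2
        rcases lt_or_eq_of_le h2 with h3 | h3
        · exact Or.inr ⟨hs.1, h3⟩
        · exact Or.inl h3
      · rintro (hs | hs)
        · subst hs
          exact ⟨hmS, hmi⟩
        · exact ⟨hs.1, hs.2.trans hmi⟩
    rw [h1, card_insert_of_notMem]
    rw [mem_filter, hjm]
    exact fun h => lt_irrefl _ h.2

end Pool.Agent.K4H76.LD
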