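import Pool.Agent.K4H76.LD.Dense3
import Pool.Agent.K4H76.LD.Deg
import Pool.Agent.K4H76.LR.Main

/-!
# All random graphs `G(n, p)`
-/

set_option autoImplicit false
set_option linter.unusedSectionVars false

namespace Pool.Agent.K4H76.LD

open Finset Pool.Agent.H162R2.Sparse Pool.Agent.K4H76.LR

theorem inv_le_of (A η : ℝ) (hA : 0 < A) (hη : 0 < η) (h : 1 / η ≤ A) : 1 / A ≤ η := by
  rw [div_le_iff₀ hA]
  rw [div_le_iff₀ hη] at h
  linarith

open Classical in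
/-- the good outcomes are good -/
theorem det (κ1 κ2 κ3 K ε β : ℝ) (n b N2 k : ℕ) (x R S : ℝ)
    (hκ1 : 0 < κ1) (hκ2 : 0 < κ2) (hK : 1 ≤ K) (hε : 0 < ε)
    (hx : x = Real.log n) (hS : S = Real.sqrt (R * x))
    (hmain : ∀ (G : SimpleGraph (Fin n)) (D B N2 : ℕ) (T0 : Finset (Fin n)),
      1 ≤ D → (D : ℝ) ≤ n →
      (∀ v, dg G v ≤ D) →
      (∀ v, v ∉ T0 → (dg G v : ℝ) + ε / 2 * Real.sqrt (D * Real.log n) ≤ D) →
      K * (Real.sqrt (D * Real.log n) * (1 + Real.log n)) ≤ D →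
      (T0.card : ℝ) ≤ κ2 * Real.sqrt (D * Real.log n) →
      (B : ℝ) ≤ κ2 * Real.sqrt (D * Real.log n) →
      (∀ X : Finset (Fin n), X.card ≤ N2 → ep G X ≤ B * X.card) →
      (∀ X : Finset (Fin n), (X.card : ℝ) ≤ (n : ℝ) ^ (1 - κ3) →
        2 * (univ.filter (fun v => κ1 * D < ((nb G v).filter (fun w => w ∈ X)).card)).card ≤ N2) →
      ∀ L : Fin n → Fin n → Finset ℕ, (∀ x y, L x y = L y x) →
        (∀ x y, G.Adj x y → D ≤ (L x y).card) → LC G L)
    (hx1 : 1 ≤ x) (hR2 : 2 ≤ R) (hKS : 4 * K * (S * (1 + x)) ≤ R)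
    (hT : Real.exp (β * x / 8) ≤ κ2 * (S / 2)) (hb : 2 * (b : ℝ) ≤ κ2 * (S / 2))
    (hk : R / 2 ≤ k) (ω : Ed n → Bool)
    (E1 : ∀ v : Fin n, (dg (Gr ω) v : ℝ) < 2 * R)
    (E2 : ¬ ∀ v : Fin n, (dg (Gr ω) v : ℝ) < k + ε * S)
    (E3 : ¬ Real.exp (β * x / 8) ≤
      ((univ.filter (fun v : Fin n => ((k : ℝ) + 1) ≤ dg (Gr ω) v)).card : ℝ))
    (E4 : ∀ X : Finset (Fin n), X.card ≤ N2 → ep (Gr ω) X ≤ 2 * b * X.card)
    (E5 : ¬ ∃ X : Finset (Fin n), (X.card : ℝ) ≤ (n : ℝ) ^ (1 - κ3) ∧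
      N2 / 2 + 1 ≤ (univ.filter (fun v => κ1 * R / 2 <
        ((nb (Gr ω) v).filter (fun w => w ∈ X)).card)).card) : Good (Gr ω) := by
  intro D hD1 hD2 L hsym hL
  obtain ⟨v0, hv0⟩ := hD2
  push Not at E2 E3 E5
  obtain ⟨v1, hv1⟩ := E2
  have hx0 : 0 < x := by linarith
  have hR0 : 0 < R := by linarith
  have hS0 : 0 < S := by rw [hS]; exact Real.sqrt_pos.2 (by positivity)
  have hDk : k + ε * S ≤ D := by
    have : (dg (Gr ω) v1 : ℝ) ≤ D := by exact_mod_cast hD1 v1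
    linarith
  have hεS : 0 < ε * S := by positivity
  have hDR : R / 2 ≤ D := by linarith
  have hD2R : (D : ℝ) ≤ 2 * R := by
    have := E1 v0
    rw [hv0] at this
    exact this.le
  have hDn : (D : ℝ) ≤ n := by
    rw [← hv0]
    have : dg (Gr ω) v0 ≤ n := by
      unfold dg
      refine (card_le_univ _).trans ?_
      rw [Fintype.card_fin]
    exact_mod_cast this
  have hD1' : 1 ≤ D := by
    have : (1 : ℝ) ≤ D := by linarith
    exact_mod_cast this
  have hΛ1 : Real.sqrt (D * x) ≤ 2 * S := by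
    apply Real.sqrt_le_iff.2
    refine ⟨by positivity, ?_⟩
    rw [hS, mul_pow, Real.sq_sqrt (by positivity)]
    have := mul_le_mul_of_nonneg_right hD2R hx0.le
    have h0 : 0 < R * x := by positivity
    linarith
  have hΛ2 : S / 2 ≤ Real.sqrt (D * x) := by
    apply Real.le_sqrt_of_sq_le
    rw [hS, div_pow, Real.sq_sqrt (by positivity)]
    have := mul_le_mul_of_nonneg_right hDR hx0.le
    have h0 : 0 < R * x := by positivity
    linarith
  have hΛ3 : κ2 * (S / 2) ≤ κ2 * Real.sqrt (D * x) := mul_le_mul_of_nonneg_left hΛ2 hκ2.le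
  refine hmain (Gr ω) D (2 * b) N2 (univ.filter (fun v : Fin n => ((k : ℝ) + 1) ≤ dg (Gr ω) v))
    hD1' hDn hD1 ?_ ?_ ?_ ?_ E4 ?_ L hsym hL
  · intro v hv
    rw [mem_filter, not_and] at hv
    have h1 := hv (mem_univ _)
    push Not at h1
    have h2 : (dg (Gr ω) v : ℝ) ≤ k := by
      have : dg (Gr ω) v < k + 1 := by exact_mod_cast h1
      exact_mod_cast Nat.lt_succ_iff.1 this
    rw [← hx]
    have h3 : ε / 2 * Real.sqrt (D * x) ≤ ε / 2 * (2 * S) :=
      mul_le_mul_of_nonneg_left hΛ1 (by positivity)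
    linarith
  · rw [← hx]
    have h1 : K * (Real.sqrt (D * x) * (1 + x)) ≤ K * ((2 * S) * (1 + x)) :=
      mul_le_mul_of_nonneg_left (mul_le_mul_of_nonneg_right hΛ1 (by positivity)) (by positivity)
    linarith
  · rw [← hx]
    linarith
  · rw [← hx]
    push_cast
    linarith
  · intro X hX
    have h1 := E5 X hX
    have h2 : (univ.filter (fun v => κ1 * D <
        ((nb (Gr ω) v).filter (fun w => w ∈ X)).card)).card ≤
        (univ.filter (fun v => κ1 * R / 2 <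
        ((nb (Gr ω) v).filter (fun w => w ∈ X)).card)).card := by
      apply card_le_card
      intro v hv
      rw [mem_filter] at hv ⊢
      refine ⟨hv.1, lt_of_le_of_lt ?_ hv.2⟩
      have := mul_le_mul_of_nonneg_left hDR hκ1.le
      linarith
    omega

theorem dense_main (β δ : ℝ) (hβ : 0 < β) (hβ1 : β ≤ 1) (hδ : 0 < δ) (hδ1 : δ ≤ 1) (η : ℝ)
    (hη : 0 < η) : ∃ x₀ : ℝ, ∀ (n : ℕ), x₀ ≤ Real.log n →
      ∀ p : ℝ, 0 ≤ p → p ≤ 1 - δ → Real.exp (β * Real.log n) ≤ n * p →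
        1 - η ≤ Pr (wB (Ed n) p) (fun ω => Good (Gr ω)) := by
  classical
  obtain ⟨ε, hε, hε1, htop⟩ := topdeg β δ hβ hβ1 hδ hδ1
  obtain ⟨κ1, κ2, κ3, K, hκ1, hκ2, hκ3, hκ31, hK, hmain⟩ := dense3 (ε / 2) (by positivity)
    (by linarith)
  obtain ⟨y0, htop⟩ := htop (η / 6) (by positivity)
  obtain ⟨x1, h1⟩ := ev_exp β hβ (64 * K ^ 2) 3
  obtain ⟨x2, h2⟩ := ev_exp (3 * β / 8) (by positivity) (2 / κ2) 0
  obtain ⟨x3, h3⟩ := ev_exp (β / 2) (by positivity) (4 / κ2 * (4 + 128 / κ1)) 1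
  obtain ⟨x4, h4⟩ := ev_exp κ3 hκ3 (64 / κ1) 0
  obtain ⟨x5, h5⟩ := ev_exp 1 one_pos (36 / η) 0
  refine ⟨max (max (max x1 x2) (max x3 x4)) (max (max x5 y0) (max K 6)), ?_⟩
  intro n hn p hp0 hpδ hnp
  obtain ⟨x, hx⟩ : ∃ x : ℝ, x = Real.log n := ⟨_, rfl⟩
  rw [← hx] at hn
  simp only [max_le_iff] at hn
  obtain ⟨⟨⟨hx1, hx2⟩, hx3, hx4⟩, ⟨hx5, hy0⟩, hKx, hx6⟩ := hn
  have k1 := h1 x hx1
  have k2 := h2 x hx2
  have k3 := h3 x hx3
  have k4 := h4 x hx4
  have k5 := h5 x hx5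
  rw [pow_zero, mul_one] at k2 k4 k5
  rw [pow_one] at k3
  rw [one_mul] at k5
  have hx0 : 0 < x := by linarith
  have hn0 : (0 : ℝ) < n := by
    rcases Nat.eq_zero_or_pos n with h | h
    · rw [h, Nat.cast_zero, Real.log_zero] at hx
      linarith
    · exact_mod_cast h
  have hnx : (n : ℝ) = Real.exp x := by rw [hx, Real.exp_log hn0]
  obtain ⟨k, hk, t1, t2⟩ := htop n (by rw [← hx]; exact hy0) p hp0 hpδ hnp
  rw [← hx] at hnp t1 t2
  obtain ⟨R, hR⟩ : ∃ R : ℝ, R = n * p := ⟨_, rfl⟩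
  rw [← hR] at hnp t1 hk
  obtain ⟨S, hS⟩ : ∃ S : ℝ, S = Real.sqrt (R * x) := ⟨_, rfl⟩
  rw [← hS] at t1
  have hp1 : p ≤ 1 := by linarith
  have hw := wB_wt (ι := Ed n) p hp0 hp1
  have hK2 : 1 ≤ K ^ 2 := one_le_pow₀ hK
  have hRx : 64 * x ≤ R := by
    have e1 : 64 * x ≤ 64 * K ^ 2 * x ^ 3 := by
      have e2 : x ≤ x ^ 3 := le_self_pow₀ (by linarith) (by norm_num)
      have e3 : 1 * x ≤ K ^ 2 * x ^ 3 := mul_le_mul hK2 e2 hx0.le (by positivity)
      linarith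
    exact e1.trans (k1.trans hnp)
  have hR0 : 0 < R := by linarith
  have hp00 : 0 < p := by
    rcases hp0.lt_or_eq with h | h
    · exact h
    · rw [← h, mul_zero] at hR
      linarith
  have hRn : R ≤ n := by
    rw [hR]
    exact mul_le_of_le_one_right hn0.le hp1
  have hS2 : S ^ 2 = R * x := by rw [hS, Real.sq_sqrt (by positivity)]
  have hS0 : 0 < S := by rw [hS]; exact Real.sqrt_pos.2 (by positivity)
  have hSexp : Real.exp (β / 2 * x) ≤ S := by
    rw [hS]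
    apply Real.le_sqrt_of_sq_le
    rw [← Real.exp_nat_mul]
    calc Real.exp (((2 : ℕ) : ℝ) * (β / 2 * x)) = Real.exp (β * x) := by
          congr 1
          push_cast
          ring
      _ ≤ R := hnp
      _ ≤ R * x := le_mul_of_one_le_right hR0.le (by linarith)
  have hKS : 4 * K * (S * (1 + x)) ≤ R := by
    have e1 : (4 * K * (S * (1 + x))) ^ 2 ≤ R ^ 2 := by
      calc (4 * K * (S * (1 + x))) ^ 2 = R * (16 * K ^ 2 * ((1 + x) ^ 2 * x)) := by
            rw [mul_pow, mul_pow, mul_pow, hS2]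
            ring
        _ ≤ R * (64 * K ^ 2 * x ^ 3) := by
            apply mul_le_mul_of_nonneg_left _ hR0.le
            have e2 : (1 + x) ^ 2 ≤ 4 * x ^ 2 := by nlinarith only [hx6]
            have e3 : (1 + x) ^ 2 * x ≤ 4 * x ^ 2 * x := mul_le_mul_of_nonneg_right e2 hx0.le
            have e4 : 16 * K ^ 2 * ((1 + x) ^ 2 * x) ≤ 16 * K ^ 2 * (4 * x ^ 2 * x) :=
              mul_le_mul_of_nonneg_left e3 (by positivity)
            refine e4.trans (le_of_eq ?_)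
            ring
        _ ≤ R * R := mul_le_mul_of_nonneg_left (k1.trans hnp) hR0.le
        _ = R ^ 2 := by ring
    exact le_of_sq_le_sq e1 hR0.le
  have hT : Real.exp (β * x / 8) ≤ κ2 * (S / 2) := by
    have e1 : 1 ≤ κ2 / 2 * Real.exp (3 * β / 8 * x) := by
      rw [div_le_iff₀ hκ2] at k2
      linarith
    calc Real.exp (β * x / 8) ≤ Real.exp (β * x / 8) * (κ2 / 2 * Real.exp (3 * β / 8 * x)) :=
          le_mul_of_one_le_right (Real.exp_pos _).le e1
      _ = κ2 / 2 * Real.exp (β / 2 * x) := by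
          have : Real.exp (β / 2 * x) = Real.exp (β * x / 8) * Real.exp (3 * β / 8 * x) := by
            rw [← Real.exp_add]
            congr 1
            ring
          rw [this]
          ring
      _ ≤ κ2 / 2 * S := mul_le_mul_of_nonneg_left hSexp (by positivity)
      _ = κ2 * (S / 2) := by ring
  obtain ⟨b, hb⟩ : ∃ b : ℕ, b = ⌊κ2 * S / 4⌋₊ := ⟨_, rfl⟩
  have hb1 : (b : ℝ) ≤ κ2 * S / 4 := by rw [hb]; exact Nat.floor_le (by positivity)
  have hb2 : κ2 * S / 4 ≤ b + 1 := by rw [hb]; exact (Nat.lt_floor_add_one _).le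
  have hκ1i : 0 < 128 / κ1 := by positivity
  have hb3 : 2 * x + 1 + 128 / κ1 ≤ b := by
    have e1 : 4 / κ2 * (4 + 128 / κ1) * x ≤ S := k3.trans hSexp
    have e2 : (4 + 128 / κ1) * x ≤ κ2 * S / 4 := by
      have := mul_le_mul_of_nonneg_left e1 (show 0 ≤ κ2 / 4 by positivity)
      have e3 : κ2 / 4 * (4 / κ2 * (4 + 128 / κ1) * x) = (4 + 128 / κ1) * x := by
        field_simp
      linarith
    have e4 : 128 / κ1 * 1 ≤ 128 / κ1 * x := mul_le_mul_of_nonneg_left (by linarith) hκ1i.le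
    linarith
  have hbpos : (0 : ℝ) < b := by linarith
  have hbpos' : 0 < b := by exact_mod_cast hbpos
  obtain ⟨N2, hN2⟩ : ∃ N2 : ℕ, N2 = ⌊(b : ℝ) / (4 * p)⌋₊ := ⟨_, rfl⟩
  have hN21 : (N2 : ℝ) ≤ b / (4 * p) := by rw [hN2]; exact Nat.floor_le (by positivity)
  have hN22 : (b : ℝ) / (4 * p) ≤ N2 + 1 := by rw [hN2]; exact (Nat.lt_floor_add_one _).le
  have hn36 : 36 / η ≤ n := by rw [hnx]; exact k5
  have hn6 : 6 ≤ n := by
    have e1 : x + 1 ≤ Real.exp x := Real.add_one_le_exp x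
    have : (6 : ℝ) ≤ n := by rw [hnx]; linarith
    exact_mod_cast this
  -- event 1
  have p1 : Pr (wB (Ed n) p) (fun ω => ¬ ∀ v : Fin n, (dg (Gr ω) v : ℝ) < 2 * R) ≤ η / 6 := by
    have e1 : Pr (wB (Ed n) p) (fun ω => ¬ ∀ v : Fin n, (dg (Gr ω) v : ℝ) < 2 * R) ≤
        Pr (wB (Ed n) p) (fun ω => ∃ v ∈ (univ : Finset (Fin n)), R + R ≤ (dg (Gr ω) v : ℝ)) := by
      apply Pr_mono hw
      intro ω hω
      push Not at hω
      obtain ⟨v, hv⟩ := hω
      exact ⟨v, mem_univ _, by linarith⟩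
    refine e1.trans ((Pr_exists _ hw (fun v ω => R + R ≤ (dg (Gr ω) v : ℝ))).trans ?_)
    have e2 : ∀ v ∈ (univ : Finset (Fin n)), Pr (wB (Ed n) p)
        (fun ω => R + R ≤ (dg (Gr ω) v : ℝ)) ≤ Real.exp (-(2 * x)) := by
      intro v _
      refine (deg_upper n p R R hp0 hp1 hR0 hR0.le (by linarith) hR.ge v).trans ?_
      apply Real.exp_le_exp.2
      rw [neg_div, neg_le_neg_iff, le_div_iff₀ (by positivity)]
      have := mul_le_mul_of_nonneg_right hRx hR0.le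
      have h0 : 0 < x * R := by positivity
      rw [pow_two]
      linarith
    refine (sum_le_sum e2).trans ?_
    rw [sum_const, card_univ, Fintype.card_fin, nsmul_eq_mul, hnx, ← Real.exp_add]
    have e3 : Real.exp (x + -(2 * x)) = 1 / n := by
      rw [hnx, one_div, ← Real.exp_neg]
      congr 1
      ring
    rw [e3]
    apply inv_le_of _ _ hn0 (by positivity)
    refine le_trans ?_ hn36
    rw [div_le_div_iff₀ (by positivity) hη]
    linarith
  -- event 4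
  have p4 := evt2 n b N2 hbpos' p hp0 hp1 hn6 (by
    calc 4 * (N2 : ℝ) * p ≤ 4 * (b / (4 * p)) * p :=
          mul_le_mul_of_nonneg_right (mul_le_mul_of_nonneg_left hN21 (by norm_num)) hp0
      _ = b := by field_simp) (by rw [← hx]; linarith)
  have p4' : (6 : ℝ) / n ≤ η / 6 := by
    rw [div_le_div_iff₀ hn0 (by norm_num)]
    rw [div_le_iff₀ hη] at hn36
    linarith
  -- event 5
  obtain ⟨y, hy⟩ : ∃ y : ℕ, y = N2 / 2 + 1 := ⟨_, rfl⟩
  have hy1 : (b : ℝ) / (8 * p) ≤ y := by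
    have e1 : N2 + 1 ≤ 2 * y := by omega
    have e2 : (N2 : ℝ) + 1 ≤ 2 * y := by exact_mod_cast e1
    have e3 : (b : ℝ) / (8 * p) = b / (4 * p) / 2 := by field_simp; norm_num
    rw [e3]
    linarith
  obtain ⟨a, ha⟩ : ∃ a : ℝ, a = κ1 * R / 2 := ⟨_, rfl⟩
  have ha0 : 0 < a := by rw [ha]; positivity
  have hay : κ1 * n * b / 16 ≤ a * y := by
    calc κ1 * n * b / 16 = a * (b / (8 * p)) := by
          rw [ha, hR]
          field_simp
          norm_num
      _ ≤ a * y := mul_le_mul_of_nonneg_left hy1 ha0.le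
  have hκb : 128 ≤ κ1 * b := by
    have e1 : 128 / κ1 ≤ b := by linarith
    rw [div_le_iff₀ hκ1] at e1
    linarith
  have hay8 : 8 * (n : ℝ) ≤ a * y := by
    refine le_trans ?_ hay
    have := mul_le_mul_of_nonneg_right hκb hn0.le
    linarith
  obtain ⟨k', hk'⟩ : ∃ k' : ℕ, k' = ⌊a * y / 2⌋₊ := ⟨_, rfl⟩
  have hk'1 : (k' : ℝ) ≤ a * y / 2 := by rw [hk']; exact Nat.floor_le (by positivity)
  have hk'2 : a * y / 2 ≤ k' + 1 := by rw [hk']; exact (Nat.lt_floor_add_one _).le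
  have hn1 : (1 : ℝ) ≤ n := by
    have : (6 : ℝ) ≤ n := by exact_mod_cast hn6
    linarith
  have p5 := evt3 n y k' ((n : ℝ) ^ (1 - κ3)) a p hp0 hp1 (by linarith) (by
    have : (3 * (n : ℝ)) ≤ k' := by linarith
    exact_mod_cast this) (by omega) (by
    have e1 : (n : ℝ) ^ (1 - κ3) ≤ κ1 * n / 64 := by
      have e2 : (n : ℝ) ^ (1 - κ3) = n / Real.exp (κ3 * x) := by
        rw [Real.rpow_def_of_pos hn0, ← hx, eq_div_iff (Real.exp_pos _).ne', ← Real.exp_add, hnx]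
        congr 1
        ring
      rw [e2, div_le_iff₀ (Real.exp_pos _)]
      rw [div_le_iff₀ hκ1] at k4
      have := mul_le_mul_of_nonneg_left k4 hn0.le
      linarith
    calc 8 * (n : ℝ) ^ (1 - κ3) * y * p ≤ 8 * (κ1 * n / 64) * y * p := by
          apply mul_le_mul_of_nonneg_right _ hp0
          apply mul_le_mul_of_nonneg_right _ (Nat.cast_nonneg _)
          exact mul_le_mul_of_nonneg_left e1 (by norm_num)
      _ = a * y / 4 := by
          rw [ha, hR]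
          ring
      _ ≤ k' := by linarith)
  have p5' : Real.exp (-(n : ℝ)) ≤ η / 6 := by
    have e1 := Real.add_one_le_exp (n : ℝ)
    have e2 : 6 / η ≤ Real.exp n := by
      have : 6 / η ≤ 36 / η := div_le_div_of_nonneg_right (by norm_num) hη.le
      linarith
    rw [Real.exp_neg, inv_le_comm₀ (Real.exp_pos _) (by positivity), inv_div]
    exact e2
  -- all together
  have hgood : Pr (wB (Ed n) p) (fun ω => ¬ Good (Gr ω)) ≤ η := by
    have e1 : Pr (wB (Ed n) p) (fun ω => ¬ Good (Gr ω)) ≤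
        Pr (wB (Ed n) p) (fun ω =>
          (¬ ∀ v : Fin n, (dg (Gr ω) v : ℝ) < 2 * R) ∨
          ((∀ v : Fin n, (dg (Gr ω) v : ℝ) < k + ε * S) ∨
          ((Real.exp (β * x / 8) ≤
            ((univ.filter (fun v : Fin n => ((k : ℝ) + 1) ≤ dg (Gr ω) v)).card : ℝ)) ∨
          ((¬ ∀ X : Finset (Fin n), X.card ≤ N2 → ep (Gr ω) X ≤ 2 * b * X.card) ∨
          (∃ X : Finset (Fin n), (X.card : ℝ) ≤ (n : ℝ) ^ (1 - κ3) ∧
            y ≤ (univ.filter (fun v => a <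
              ((nb (Gr ω) v).filter (fun w => w ∈ X)).card)).card))))) := by
      apply Pr_mono hw
      intro ω hω
      by_contra hcon
      rw [not_or, not_or, not_or, not_or, not_not, not_not] at hcon
      obtain ⟨c1, c2, c3, c4, c5⟩ := hcon
      apply hω
      rw [hy, ha] at c5
      exact det κ1 κ2 κ3 K ε β n b N2 k x R S hκ1 hκ2 hK hε hx hS
        (hmain n (by rw [← hx]; exact hKx)) (by linarith) (by linarith) hKS hT (by linarith) hk ω
        c1 c2 c3 c4 c5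
    refine e1.trans ?_
    have q1 := Pr_or hw (fun ω => ¬ ∀ v : Fin n, (dg (Gr ω) v : ℝ) < 2 * R)
      (fun ω => (∀ v : Fin n, (dg (Gr ω) v : ℝ) < k + ε * S) ∨
          ((Real.exp (β * x / 8) ≤
            ((univ.filter (fun v : Fin n => ((k : ℝ) + 1) ≤ dg (Gr ω) v)).card : ℝ)) ∨
          ((¬ ∀ X : Finset (Fin n), X.card ≤ N2 → ep (Gr ω) X ≤ 2 * b * X.card) ∨
          (∃ X : Finset (Fin n), (X.card : ℝ) ≤ (n : ℝ) ^ (1 - κ3) ∧
            y ≤ (univ.filter (fun v => a <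
              ((nb (Gr ω) v).filter (fun w => w ∈ X)).card)).card))))
    have q2 := Pr_or hw (fun ω => ∀ v : Fin n, (dg (Gr ω) v : ℝ) < k + ε * S)
      (fun ω => (Real.exp (β * x / 8) ≤
            ((univ.filter (fun v : Fin n => ((k : ℝ) + 1) ≤ dg (Gr ω) v)).card : ℝ)) ∨
          ((¬ ∀ X : Finset (Fin n), X.card ≤ N2 → ep (Gr ω) X ≤ 2 * b * X.card) ∨
          (∃ X : Finset (Fin n), (X.card : ℝ) ≤ (n : ℝ) ^ (1 - κ3) ∧
            y ≤ (univ.filter (fun v => a <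
              ((nb (Gr ω) v).filter (fun w => w ∈ X)).card)).card)))
    have q3 := Pr_or hw (fun ω => Real.exp (β * x / 8) ≤
            ((univ.filter (fun v : Fin n => ((k : ℝ) + 1) ≤ dg (Gr ω) v)).card : ℝ))
      (fun ω => (¬ ∀ X : Finset (Fin n), X.card ≤ N2 → ep (Gr ω) X ≤ 2 * b * X.card) ∨
          (∃ X : Finset (Fin n), (X.card : ℝ) ≤ (n : ℝ) ^ (1 - κ3) ∧
            y ≤ (univ.filter (fun v => a <
              ((nb (Gr ω) v).filter (fun w => w ∈ X)).card)).card))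
    have q4 := Pr_or hw (fun ω => ¬ ∀ X : Finset (Fin n), X.card ≤ N2 →
        ep (Gr ω) X ≤ 2 * b * X.card)
      (fun ω => ∃ X : Finset (Fin n), (X.card : ℝ) ≤ (n : ℝ) ^ (1 - κ3) ∧
            y ≤ (univ.filter (fun v => a <
              ((nb (Gr ω) v).filter (fun w => w ∈ X)).card)).card)
    linarith only [q1, q2, q3, q4, p1, t1, t2, p4, p4', p5, p5', hη]
  rw [Pr_not hw] at hgood
  linarith

/-- all `p ≤ 1 - δ` -/
theorem main (δ : ℝ) (hδ : 0 < δ) (η : ℝ) (hη : 0 < η) : ∃ N : ℕ, ∀ n : ℕ, N ≤ n → ∀ p : ℝ,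
    0 ≤ p → p ≤ 1 - δ → 1 - η ≤ Pr (wB (Ed n) p) (fun ω => Good (Gr ω)) := by
  by_cases hδ1 : δ ≤ 1
  · obtain ⟨β, hβ, hs⟩ := Pool.Agent.K4H76.LR.main
    obtain ⟨N1, hN1⟩ := hs η hη
    obtain ⟨x₀, hd⟩ := dense_main (min β 1) δ (lt_min hβ one_pos) (min_le_right _ _) hδ hδ1 η hη
    obtain ⟨N, hN⟩ := exists_nat_ge (Real.exp x₀)
    refine ⟨max 1 (max N N1), ?_⟩
    intro n hn p hp0 hpδ
    simp only [max_le_iff] at hn
    obtain ⟨hn1, hnN, hnN1⟩ := hn
    have hn0 : (0 : ℝ) < n := by exact_mod_cast hn1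
    have hn1' : (1 : ℝ) ≤ n := by exact_mod_cast hn1
    by_cases hp : n * p ≤ (n : ℝ) ^ (min β 1)
    · apply hN1 n hnN1 p hp0 (by linarith)
      refine hp.trans ?_
      exact Real.rpow_le_rpow_of_exponent_le hn1' (min_le_left β 1)
    · push Not at hp
      apply hd n _ p hp0 hpδ
      · rw [mul_comm (min β 1), ← Real.rpow_def_of_pos hn0]
        exact hp.le
      · rw [Real.le_log_iff_exp_le hn0]
        have : (N : ℝ) ≤ n := by exact_mod_cast hnN
        linarith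
  · exact ⟨0, fun n _ p hp0 hp => by push Not at hδ1; linarith⟩

end Pool.Agent.K4H76.LD
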