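import Pool.Agent.K4H76.LD.Bin

/-!
# The maximum degree from independent stars
-/

set_option autoImplicit false
set_option linter.unusedSectionVars false

namespace Pool.Agent.K4H76.LD

open Finset Pool.Agent.H162R2.Sparse Pool.Agent.K4H76.LR

theorem cn_congr {ι : Type} [DecidableEq ι] (F : Finset ι) (ω ω' : ι → Bool)
    (h : ∀ i ∈ F, ω i = ω' i) : cn F ω = cn F ω' := by
  unfold cn
  congr 1
  apply Finset.filter_congr
  intro i hi
  rw [h i hi]

theorem cn_mono {ι : Type} [DecidableEq ι] {F F' : Finset ι} (h : F ⊆ F') (ω : ι → Bool) :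
    cn F ω ≤ cn F' ω := by
  unfold cn
  exact card_le_card (filter_subset_filter _ h)

theorem cn_union_le {ι : Type} [DecidableEq ι] (F F' : Finset ι) (ω : ι → Bool) :
    cn (F ∪ F') ω ≤ cn F ω + cn F' ω := by
  unfold cn
  rw [filter_union]
  exact card_union_le _ _

theorem cn_union_disj {ι : Type} [DecidableEq ι] {F F' : Finset ι} (h : Disjoint F F')
    (ω : ι → Bool) : cn F ω + cn F' ω = cn (F ∪ F') ω := by
  unfold cn
  rw [filter_union, card_union_of_disjoint]
  exact disjoint_filter_filter h

theorem st_union {n : ℕ} (v : Fin n) (S S' : Finset (Fin n)) : st v S ∪ st v S' = st v (S ∪ S') := by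
  classical
  ext e
  unfold st
  simp only [mem_union, mem_filter, mem_univ, true_and]
  constructor
  · rintro (⟨w, hw, h⟩ | ⟨w, hw, h⟩)
    · exact ⟨w, Or.inl hw, h⟩
    · exact ⟨w, Or.inr hw, h⟩
  · rintro ⟨w, hw | hw, h⟩
    · exact Or.inl ⟨w, hw, h⟩
    · exact Or.inr ⟨w, hw, h⟩

theorem st_disj {n : ℕ} (v : Fin n) (S S' : Finset (Fin n)) (h : Disjoint S S') :
    Disjoint (st v S) (st v S') := by
  classical
  rw [disjoint_left]
  intro e he he'
  unfold st at he he'
  rw [mem_filter] at he he'
  obtain ⟨_, a, ha, h3⟩ := he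
  obtain ⟨_, b, hb, h4⟩ := he'
  rw [h3, Sym2.eq_iff] at h4
  rcases h4 with h4 | h4
  · rw [disjoint_left] at h
    exact h ha (h4.2 ▸ hb)
  · rw [disjoint_left] at h
    have : a = b := h4.2.trans h4.1
    exact h ha (this ▸ hb)

open Classical in
theorem maxdeg (n M h u l : ℕ) (p Q r : ℝ) (h0 : 0 ≤ p) (h1 : p ≤ 1) (hM : M ≤ n)
    (hQ : ∀ v : Fin n, Q ≤ Pr (wB (Ed n) p) (fun ω => h ≤ cn (st v (univ.erase v)) ω))
    (hu : ∀ v : Fin n, v.val < M → Pr (wB (Ed n) p) (fun ω => u <
      cn (st v ((univ.filter (fun w : Fin n => w.val < M)).erase v)) ω) ≤ r)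
    (hl : ∀ v : Fin n, v.val < M → Pr (wB (Ed n) p) (fun ω =>
      cn (st v ((univ.filter (fun w : Fin n => w.val < M)).erase v)) ω < l) ≤ r) :
    Pr (wB (Ed n) p) (fun ω => ∀ v : Fin n, dg (Gr ω) v + u < h + l) ≤
      Real.exp (-(M * (Q - r))) + M * r := by
  have hw := wB_wt (ι := Ed n) p h0 h1
  set A : Finset (Fin n) := univ.filter (fun v => v.val < M) with hA
  set B : Finset (Fin n) := univ.filter (fun v => ¬ v.val < M) with hB
  have hAc : A.card = M := by
    rw [hA, Fin.card_filter_val_lt]
    omega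
  have hmA : ∀ v, v ∈ A ↔ v.val < M := fun v => by rw [hA, mem_filter]; simp
  have hmB : ∀ v, v ∈ B ↔ ¬ v.val < M := fun v => by rw [hB, mem_filter]; simp
  have h2 : Pr (wB (Ed n) p) (fun ω => ∀ v : Fin n, dg (Gr ω) v + u < h + l) ≤
      Pr (wB (Ed n) p) (fun ω => (∀ v ∈ A, cn (st v B) ω + u < h) ∨
        ∃ v ∈ A, cn (st v (A.erase v)) ω < l) := by
    apply Pr_mono hw
    intro ω hω
    by_contra hcon
    rw [not_or] at hcon
    obtain ⟨hc1, hc2⟩ := hcon
    push Not at hc1 hc2
    obtain ⟨v, hv, hv1⟩ := hc1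
    have hv2 := hc2 v hv
    have hv3 := hω v
    have hd : Disjoint B (A.erase v) := by
      rw [disjoint_left]
      intro w hw hw'
      exact (hmB w).1 hw ((hmA w).1 (mem_of_mem_erase hw'))
    have h3 := cn_union_disj (st_disj v B (A.erase v) hd) ω
    rw [st_union] at h3
    have h4 := cn_st_le v (B ∪ A.erase v) ω
    omega
  refine h2.trans ((Pr_or hw _ _).trans (add_le_add ?_ ?_))
  · rw [Pr_forall_indep hw (fun v => st v B) (fun v ω => cn (st v B) ω + u < h)]
    · have h3 : ∀ v ∈ A, Pr (wB (Ed n) p) (fun ω => cn (st v B) ω + u < h) ≤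
          Real.exp (-(Q - r)) := by
        intro v hv
        have h4 : Pr (wB (Ed n) p) (fun ω => cn (st v B) ω + u < h) =
            1 - Pr (wB (Ed n) p) (fun ω => h ≤ cn (st v B) ω + u) := by
          rw [← Pr_not hw]
          congr 1
          funext ω
          rw [not_le]
        have h5 : Pr (wB (Ed n) p) (fun ω => h ≤ cn (st v (univ.erase v)) ω) ≤
            Pr (wB (Ed n) p) (fun ω => h ≤ cn (st v B) ω + u) +
            Pr (wB (Ed n) p) (fun ω => u < cn (st v (A.erase v)) ω) := by
          refine le_trans (Pr_mono hw ?_) (Pr_or hw _ _)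
          intro ω hω
          by_contra hcon
          rw [not_or] at hcon
          obtain ⟨hc1, hc2⟩ := hcon
          push Not at hc1 hc2
          have h6 : univ.erase v ⊆ B ∪ A.erase v := by
            intro w hw
            rw [mem_union]
            by_cases hwA : w ∈ A
            · exact Or.inr (mem_erase.2 ⟨(mem_erase.1 hw).1, hwA⟩)
            · exact Or.inl ((hmB w).2 (fun h => hwA ((hmA w).2 h)))
          have h7 : st v (univ.erase v) ⊆ st v B ∪ st v (A.erase v) := by
            rw [st_union]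
            intro e he
            unfold st at he ⊢
            rw [mem_filter] at he ⊢
            obtain ⟨h8, w, hw, h9⟩ := he
            exact ⟨h8, w, h6 hw, h9⟩
          have h8 := (cn_mono h7 ω).trans (cn_union_le _ _ ω)
          omega
        have h6 := hQ v
        have h7 := hu v ((hmA v).1 hv)
        have h8 := Real.add_one_le_exp (-(Q - r))
        rw [h4]
        linarith
      calc ∏ v ∈ A, Pr (wB (Ed n) p) (fun ω => cn (st v B) ω + u < h) ≤
            ∏ _v ∈ A, Real.exp (-(Q - r)) := by
            apply Finset.prod_le_prod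
            · intro v _
              exact Pr_nonneg hw _
            · exact h3
        _ = Real.exp (-(M * (Q - r))) := by
            rw [Finset.prod_const, hAc, ← Real.exp_nat_mul]
            congr 1
            ring
    · intro v ω ω' h
      show cn (st v B) ω + u < _ ↔ cn (st v B) ω' + u < _
      rw [cn_congr _ ω ω' h]
    · intro v hv w hw hvw
      rw [disjoint_left]
      intro e he he'
      unfold st at he he'
      rw [mem_filter] at he he'
      obtain ⟨_, a, ha, h3⟩ := he
      obtain ⟨_, b, hb, h4⟩ := he'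
      rw [h3, Sym2.eq_iff] at h4
      rcases h4 with h4 | h4
      · exact hvw h4.1
      · rw [h4.1] at hv
        exact (hmB b).1 hb ((hmA b).1 hv)
  · refine (Pr_exists A hw (fun v ω => cn (st v (A.erase v)) ω < l)).trans ?_
    calc ∑ v ∈ A, Pr (wB (Ed n) p) (fun ω => cn (st v (A.erase v)) ω < l) ≤ ∑ _v ∈ A, r := by
          apply Finset.sum_le_sum
          intro v hv
          exact hl v ((hmA v).1 hv)
      _ = M * r := by rw [Finset.sum_const, hAc, nsmul_eq_mul]

end Pool.Agent.K4H76.LD
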